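import Pool.Agent.Helper79.Defl.Checker

/-! Bit lemmas for the relation matrices. -/

namespace Pool.Agent.Helper79.Defl

theorem forceN_eq {α : Type} (n : ℕ) (k : ℕ → α) : forceN n k = k n := by
  cases n <;> rfl

theorem tb_eq (M k : ℕ) : tb M k = M.testBit k := by
  unfold tb
  rw [Nat.testBit_eq_decide_div_mod_eq]
  have h : Nat.land (Nat.shiftRight M k) 1 = (M / 2 ^ k) % 2 := by
    have h1 : Nat.land (Nat.shiftRight M k) 1 = (M >>> k) &&& 1 := rfl
    rw [h1, Nat.and_one_is_mod, Nat.shiftRight_eq_div_pow]
  rw [h]
  rcases Nat.mod_two_eq_zero_or_one (M / 2 ^ k) with h0 | h0 <;> rw [h0] <;> rfl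

/-- product of a number with bits only at multiples of 128 and a number below `2^128` -/
theorem testBit_mul_col (r : ℕ) (hr : r < 2 ^ 128) : ∀ (c : ℕ),
    (∀ m, c.testBit m = true → m % 128 = 0) → ∀ a b, b < 128 →
    (c * r).testBit (128 * a + b) = (c.testBit (128 * a) && r.testBit b) := by
  intro c
  induction c using Nat.strong_induction_on with
  | _ c ih =>
    intro hc a b hb
    rcases Nat.eq_zero_or_pos c with h0 | hpos
    · subst h0; simp
    set c' := c / 2 ^ 128 with hc'
    set b0 := c % 2 ^ 128 with hb0
    have hcd : c = 2 ^ 128 * c' + b0 := (Nat.div_add_mod c (2 ^ 128)).symm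
    have hlt : c' < c := Nat.div_lt_self hpos (by norm_num)
    have hb0le : b0 ≤ 1 := by
      by_contra hcon
      have h2 : 2 ≤ b0 := by omega
      have h3 : ∃ m, m ≠ 0 ∧ b0.testBit m = true := by
        by_contra h4
        push Not at h4
        have : b0 / 2 = 0 := by
          apply Nat.eq_of_testBit_eq
          intro i
          rw [Nat.testBit_div_two]
          simpa using h4 (i + 1) (by omega)
        omega
      obtain ⟨m, hm0, hm⟩ := h3
      have hm128 : m < 128 := by
        by_contra h5
        have h6 : b0 < 2 ^ m := lt_of_lt_of_le (Nat.mod_lt _ (by norm_num))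
          (Nat.pow_le_pow_right (by norm_num) (by omega))
        rw [Nat.testBit_lt_two_pow h6] at hm
        exact absurd hm (by simp)
      have hcm : c.testBit m = true := by
        have h7 : b0.testBit m = (decide (m < 128) && c.testBit m) := by
          rw [hb0, Nat.testBit_mod_two_pow]
        rw [h7] at hm
        simpa using (Bool.and_eq_true _ _ ▸ hm).2
      have := hc m hcm
      omega
    have hc'bits : ∀ m, c'.testBit m = true → m % 128 = 0 := by
      intro m hm
      have h7 : c'.testBit m = c.testBit (128 + m) := by
        rw [hc', Nat.testBit_div_two_pow]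
        congr 1; omega
      rw [h7] at hm
      have := hc _ hm
      omega
    have hprod : c * r = 2 ^ 128 * (c' * r) + b0 * r := by
      conv_lhs => rw [hcd]
      ring
    have hb0r : b0 * r < 2 ^ 128 := by
      have : b0 * r ≤ 1 * r := Nat.mul_le_mul_right _ hb0le
      omega
    rw [hprod, Nat.testBit_two_pow_mul_add _ hb0r]
    rcases Nat.eq_zero_or_pos a with ha | ha
    · subst ha
      rw [if_pos (by omega)]
      have h8 : c.testBit (128 * 0) = b0.testBit 0 := by
        rw [hb0, Nat.testBit_mod_two_pow]; simp
      rw [h8]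
      have h9 : b0 = 0 ∨ b0 = 1 := by omega
      rcases h9 with h9 | h9 <;> rw [h9] <;> simp
    · rw [if_neg (by omega)]
      have h10 : 128 * a + b - 128 = 128 * (a - 1) + b := by omega
      rw [h10, ih c' hlt hc'bits (a - 1) b hb]
      have h11 : c'.testBit (128 * (a - 1)) = c.testBit (128 * a) := by
        rw [hc', Nat.testBit_div_two_pow]
        have h12 : 128 + 128 * (a - 1) = 128 * a := by omega
        first
        | rw [h12]
        | rw [Nat.add_comm, h12]
      rw [h11]

theorem colC_bits : ∀ m, colC.testBit m = true → m % 128 = 0 := by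
  intro m hm
  have hlt : m < 8192 := by
    by_contra h
    have h6 : colC < 2 ^ m := lt_of_lt_of_le (b := 2 ^ 8192) (by decide +kernel)
      (Nat.pow_le_pow_right (by norm_num) (by omega))
    rw [Nat.testBit_lt_two_pow h6] at hm
    exact absurd hm (by simp)
  have key : ∀ a < 64, ∀ b < 128, colC.testBit (128 * a + b) = true → b = 0 := by
    decide +kernel
  have := key (m / 128) (by omega) (m % 128) (by omega) (by rwa [Nat.div_add_mod])
  exact this

end Pool.Agent.Helper79.Defl
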