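import Pool.Agent.Helper79.Defl.Checker

/-! Generation of the blocking configurations and their templates. -/

namespace Pool.Agent.Helper79.Defl

def ltX (F : ℕ) (p : ℕ → ℕ) (i j : ℕ) : Bool :=
  match F with
  | 0 => decide (i < j)
  | 1 => decide (j < i)
  | 2 => decide (p i < p j)
  | _ => decide (p j < p i)

def ltY (F : ℕ) (p : ℕ → ℕ) (i j : ℕ) : Bool :=
  match F with
  | 0 => decide (p i < p j)
  | 1 => decide (p i < p j)
  | _ => decide (i < j)

def inK (K j : ℕ) : Bool := K.testBit j

def rg : List ℕ := [0, 1, 2, 3, 4]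

/-- admissible configuration: role `r`, block roles `K` -/
def cfgOK (F : ℕ) (p : ℕ → ℕ) (dec capL capU : Bool) (r K : ℕ) : Bool :=
  !inK K r &&
  rg.all (fun k => !inK K k || ltX F p k r) &&
  rg.all (fun j => decide (j = r) || inK K j ||
    rg.all (fun k => !inK K k ||
      (rg.all (fun l => !inK K l || (!(ltX F p k j && ltX F p j l) && !(ltY F p k j && ltY F p j l))) &&
        !(ltY F p k j && ltY F p j r) && !(ltY F p r j && ltY F p j k)))) &&
  rg.all (fun k => !inK K k || rg.all (fun l => !inK K l || decide (k = l) ||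
    ((!capL || !(ltY F p k r) || !(ltY F p l r)) &&
     (!capU || !(ltY F p r k) || !(ltY F p r l)) &&
     (!dec || (decide (l < k) || decide (p l < p k))))))

/-- pairs of consecutive elements of `L` for the order `lt` -/
def consec (lt : ℕ → ℕ → Bool) (L : List (ℕ × ℕ)) : List (ℕ × ℕ) :=
  L.flatMap fun a => L.filterMap fun b =>
    if lt a.1 b.1 && !(L.any fun m => lt a.1 m.1 && lt m.1 b.1) then some (a.2, b.2) else none

def restL (r K : ℕ) : List ℕ := rg.filter (fun j => !(decide (j = r)) && !inK K j)

def idx (r K j : ℕ) : ℕ := ((restL r K).filter (fun m => decide (m < j))).length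

def innerL (F : ℕ) (p : ℕ → ℕ) (r K : ℕ) : List (ℕ × ℕ) :=
  (((restL r K).map fun j => (j, 100 + idx r K j)) ++
    ((rg.filter (inK K)).take 1).map fun j => (j, 0)).filter fun a => ltX F p a.1 r

def outerL (F : ℕ) (p : ℕ → ℕ) (r K : ℕ) : List (ℕ × ℕ) :=
  ((restL r K).map fun j => (j, 100 + idx r K j)).filter fun a => ltX F p r a.1

def lastL (F : ℕ) (p : ℕ → ℕ) (r K : ℕ) : List (ℕ × ℕ) :=
  (innerL F p r K).filter fun a => !((innerL F p r K).any fun m => ltX F p a.1 m.1)

def firstL (F : ℕ) (p : ℕ → ℕ) (r K : ℕ) : List (ℕ × ℕ) :=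
  (outerL F p r K).filter fun a => !((outerL F p r K).any fun m => ltX F p m.1 a.1)

def mkTpl (F : ℕ) (p : ℕ → ℕ) (kind r K : ℕ) : Tpl where
  nv := (restL r K).length
  ats :=
    ((consec (ltX F p) (innerL F p r K)) ++ (consec (ltX F p) (outerL F p r K))).map
      (fun a => atX F a.1 a.2 true) ++
    (match kind with
      | 0 => ((lastL F p r K).filter fun a => !(decide (a.2 = 0))).map (fun a => atX F a.2 99 true) ++
          (firstL F p r K).map (fun a => atX F 99 a.2 false)
      | 1 => ((lastL F p r K).filter fun a => !(decide (a.2 = 0))).map (fun a => atX F a.2 99 false) ++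
          (firstL F p r K).map (fun a => atX F 99 a.2 true)
      | _ => []) ++
    (consec (ltY F p) (((restL r K).map fun j => (j, 100 + idx r K j)) ++ [(r, 0)])).map
      (fun a => atY F a.1 a.2 true)
  li := match lastL F p r K with
    | [] => 0
    | a :: _ => a.2

/-- all templates of a cell kind, for the roles in `roles` (bit mask) -/
def fullT (F : ℕ) (p : ℕ → ℕ) (dec capL capU : Bool) (kind roles : ℕ) : List Tpl :=
  rg.flatMap fun r => if roles.testBit r && !(kind == 2 && rg.any (fun j => ltX F p r j)) then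
    (List.range 32).filterMap fun K =>
      if cfgOK F p dec capL capU r K then some (mkTpl F p kind r K) else none
    else []

end Pool.Agent.Helper79.Defl
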