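import Pool.Agent.Helper79.Defl.Sound3
import Pool.Agent.Helper79.Defl.Tables

/-! From an occurrence of the pattern after the insertion of a point to a configuration. -/

namespace Pool.Agent.Helper79.Defl

/-- extension of a pattern to the natural numbers -/
def pN (π : Fin 5 → ℕ) (i : ℕ) : ℕ := if h : i < 5 then π ⟨i, h⟩ else 0

theorem F_cases (F : ℕ) : F = 0 ∨ F = 1 ∨ F = 2 ∨
    ((∀ p, XF F p = - p.2) ∧ (∀ p, YF F p = p.1) ∧ (∀ p i j, ltX F p i j = decide (p j < p i)) ∧
      (∀ p i j, ltY F p i j = decide (i < j))) := by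
  match F with
  | 0 => simp
  | 1 => simp
  | 2 => simp
  | n + 3 =>
    right; right; right
    exact ⟨fun _ => rfl, fun _ => rfl, fun _ _ _ => rfl, fun _ _ _ => rfl⟩

theorem XF_inj {τ : Finset Pt} (hg : Gen τ) (F : ℕ) {p q : Pt} (hp : p ∈ τ) (hq : q ∈ τ)
    (h : XF F p = XF F q) : p = q := by
  rcases F_cases F with rfl | rfl | rfl | ⟨h1, _⟩
  · exact hg.1 p hp q hq h
  · exact hg.1 p hp q hq (neg_injective h)
  · exact hg.2 p hp q hq h
  · rw [h1, h1] at h
    exact hg.2 p hp q hq (neg_injective h)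

theorem YF_inj {τ : Finset Pt} (hg : Gen τ) (F : ℕ) {p q : Pt} (hp : p ∈ τ) (hq : q ∈ τ)
    (h : YF F p = YF F q) : p = q := by
  rcases F_cases F with rfl | rfl | rfl | ⟨_, h1, _⟩
  · exact hg.2 p hp q hq h
  · exact hg.2 p hp q hq h
  · exact hg.1 p hp q hq h
  · rw [h1, h1] at h
    exact hg.1 p hp q hq h

theorem intv_X {τ I : Finset Pt} (hI : Intv τ I) (F : ℕ) {a b c : Pt} (ha : a ∈ I) (hb : b ∈ I)
    (hc : c ∈ τ) (h1 : XF F a < XF F c) (h2 : XF F c < XF F b) : c ∈ I := by
  rcases F_cases F with rfl | rfl | rfl | ⟨h, _⟩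
  · exact hI.2 a ha b hb c hc (Or.inl ⟨h1, h2⟩)
  · exact hI.2 b hb a ha c hc (Or.inl ⟨neg_lt_neg_iff.mp h2, neg_lt_neg_iff.mp h1⟩)
  · exact hI.2 a ha b hb c hc (Or.inr ⟨h1, h2⟩)
  · rw [h, h] at h1 h2
    exact hI.2 b hb a ha c hc (Or.inr ⟨neg_lt_neg_iff.mp h2, neg_lt_neg_iff.mp h1⟩)

theorem intv_Y {τ I : Finset Pt} (hI : Intv τ I) (F : ℕ) {a b c : Pt} (ha : a ∈ I) (hb : b ∈ I)
    (hc : c ∈ τ) (h1 : YF F a < YF F c) (h2 : YF F c < YF F b) : c ∈ I := by
  rcases F_cases F with rfl | rfl | rfl | ⟨_, h, _⟩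
  · exact hI.2 a ha b hb c hc (Or.inr ⟨h1, h2⟩)
  · exact hI.2 a ha b hb c hc (Or.inr ⟨h1, h2⟩)
  · exact hI.2 a ha b hb c hc (Or.inl ⟨h1, h2⟩)
  · rw [h, h] at h1 h2
    exact hI.2 a ha b hb c hc (Or.inl ⟨h1, h2⟩)

/-- a point outside an interval sees all its points on the same side -/
theorem side_X {τ I : Finset Pt} (hg : Gen τ) (hI : Intv τ I) (F : ℕ) {a b c : Pt} (ha : a ∈ I)
    (hb : b ∈ I) (hc : c ∈ τ) (hcI : c ∉ I) (h : XF F a < XF F c) : XF F b < XF F c := by
  by_contra h1
  push Not at h1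
  rcases lt_or_eq_of_le h1 with h2 | h2
  · exact hcI (intv_X hI F ha hb hc h h2)
  · have := XF_inj hg F hc (hI.1 hb) h2
    exact hcI (this ▸ hb)

theorem side_X' {τ I : Finset Pt} (hg : Gen τ) (hI : Intv τ I) (F : ℕ) {a b c : Pt} (ha : a ∈ I)
    (hb : b ∈ I) (hc : c ∈ τ) (hcI : c ∉ I) (h : XF F c < XF F a) : XF F c < XF F b := by
  by_contra h1
  push Not at h1
  rcases lt_or_eq_of_le h1 with h2 | h2
  · exact hcI (intv_X hI F hb ha hc h2 h)
  · have := XF_inj hg F (hI.1 hb) hc h2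
    exact hcI (this ▸ hb)

theorem side_Y {τ I : Finset Pt} (hg : Gen τ) (hI : Intv τ I) (F : ℕ) {a b c : Pt} (ha : a ∈ I)
    (hb : b ∈ I) (hc : c ∈ τ) (hcI : c ∉ I) (h : YF F a < YF F c) : YF F b < YF F c := by
  by_contra h1
  push Not at h1
  rcases lt_or_eq_of_le h1 with h2 | h2
  · exact hcI (intv_Y hI F ha hb hc h h2)
  · have := YF_inj hg F hc (hI.1 hb) h2
    exact hcI (this ▸ hb)

theorem side_Y' {τ I : Finset Pt} (hg : Gen τ) (hI : Intv τ I) (F : ℕ) {a b c : Pt} (ha : a ∈ I)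
    (hb : b ∈ I) (hc : c ∈ τ) (hcI : c ∉ I) (h : YF F c < YF F a) : YF F c < YF F b := by
  by_contra h1
  push Not at h1
  rcases lt_or_eq_of_le h1 with h2 | h2
  · exact hcI (intv_Y hI F hb ha hc h2 h)
  · have := YF_inj hg F (hI.1 hb) hc h2
    exact hcI (this ▸ hb)

/-- existence of a cut -/
theorem cut_aux {τ I : Finset Pt} (Y : Pt → ℚ) (hinj : ∀ p ∈ I, ∀ q ∈ I, Y p = Y q → p = q)
    (hiv : ∀ a ∈ I, ∀ b ∈ I, ∀ c ∈ τ, Y a < Y c → Y c < Y b → c ∈ I) (h2 : 2 ≤ I.card) :
    ∃ y0, (∀ w ∈ τ, Y w ≠ y0) ∧ (∃ i ∈ I, Y i < y0) ∧ (∃ j ∈ I, y0 < Y j) ∧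
      (∀ i ∈ I, ∀ j ∈ I, y0 < Y i → y0 < Y j → i = j) := by
  classical
  have hne : I.Nonempty := Finset.card_pos.mp (by omega)
  obtain ⟨m, hm, hmax⟩ := I.exists_max_image Y hne
  have hne2 : (I.erase m).Nonempty := by
    rw [← Finset.card_pos, Finset.card_erase_of_mem hm]; omega
  obtain ⟨m2, hm2, hmax2⟩ := (I.erase m).exists_max_image Y hne2
  have hm2I : m2 ∈ I := Finset.mem_of_mem_erase hm2
  have hlt : Y m2 < Y m := by
    refine lt_of_le_of_ne (hmax m2 hm2I) fun h => ?_
    exact (Finset.ne_of_mem_erase hm2) (hinj m2 hm2I m hm h)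
  have hcase : ∀ i ∈ I, i = m ∨ Y i ≤ Y m2 := by
    intro i hi
    by_cases h : i = m
    · exact Or.inl h
    · exact Or.inr (hmax2 i (Finset.mem_erase.mpr ⟨h, hi⟩))
  refine ⟨(Y m2 + Y m) / 2, ?_, ⟨m2, hm2I, by linarith⟩, ⟨m, hm, by linarith⟩, ?_⟩
  · intro w hw heq
    have hwI : w ∈ I := hiv m2 hm2I m hm w hw (by linarith) (by linarith)
    rcases hcase w hwI with rfl | h
    · linarith
    · linarith
  · intro i hi j hj h1 h2
    have hi' : i = m := by
      rcases hcase i hi with h | h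
      · exact h
      · linarith
    have hj' : j = m := by
      rcases hcase j hj with h | h
      · exact h
      · linarith
    rw [hi', hj']

/-- data of a cut in the frame `F` with the size restrictions -/
structure Cut (τ I : Finset Pt) (F : ℕ) (capL capU : Bool) (y0 : ℚ) : Prop where
  ne : ∀ w ∈ τ, YF F w ≠ y0
  lo : ∃ i ∈ I, YF F i < y0
  hi : ∃ i ∈ I, y0 < YF F i
  cL : capL = true → ∀ i ∈ I, ∀ j ∈ I, YF F i < y0 → YF F j < y0 → i = j
  cU : capU = true → ∀ i ∈ I, ∀ j ∈ I, y0 < YF F i → y0 < YF F j → i = j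

theorem cut_exists {τ I : Finset Pt} (hg : Gen τ) (hI : Intv τ I) (h2 : 2 ≤ I.card) (F : ℕ)
    (capL capU : Bool) (hc : (capL && capU) = false) : ∃ y0, Cut τ I F capL capU y0 := by
  cases capL with
  | true =>
    have hU : capU = false := by simpa using hc
    subst hU
    obtain ⟨y0, a1, ⟨i, hi, a2⟩, ⟨j, hj, a3⟩, a4⟩ := cut_aux (τ := τ) (I := I) (fun p => - YF F p)
      (fun p hp q hq h => YF_inj hg F (hI.1 hp) (hI.1 hq) (neg_injective h))
      (fun a ha b hb c hc h h' => intv_Y hI F hb ha hc (by linarith) (by linarith)) h2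
    refine ⟨-y0, ⟨fun w hw h => a1 w hw (by linarith), ⟨j, hj, by linarith⟩, ⟨i, hi, by linarith⟩,
      fun _ i hi j hj h h' => a4 i hi j hj (by linarith) (by linarith), fun h => absurd h (by simp)⟩⟩
  | false =>
    obtain ⟨y0, a1, a2, a3, a4⟩ := cut_aux (τ := τ) (I := I) (fun p => YF F p)
      (fun p hp q hq h => YF_inj hg F (hI.1 hp) (hI.1 hq) h)
      (fun a ha b hb c hc h h' => intv_Y hI F ha hb hc h h') h2
    exact ⟨y0, ⟨a1, a2, a3, fun h => absurd h (by simp), fun _ => a4⟩⟩

/-- the point with given frame coordinates -/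
def mkP (F : ℕ) (t y : ℚ) : Pt :=
  match F with | 0 => (t, y) | 1 => (-t, y) | 2 => (y, t) | _ => (y, -t)

theorem XF_mkP (F : ℕ) (t y : ℚ) : XF F (mkP F t y) = t := by
  match F with
  | 0 => rfl
  | 1 => exact neg_neg t
  | 2 => rfl
  | n + 3 => exact neg_neg t

theorem YF_mkP (F : ℕ) (t y : ℚ) : YF F (mkP F t y) = y := by
  match F with
  | 0 => rfl
  | 1 => rfl
  | 2 => rfl
  | n + 3 => rfl

/-- equal coordinates in terms of the frame -/
theorem fst_snd_eq (F : ℕ) (p q : Pt) : (p.1 = q.1 → XF F p = XF F q ∨ YF F p = YF F q) ∧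
    (p.2 = q.2 → XF F p = XF F q ∨ YF F p = YF F q) := by
  match F with
  | 0 => exact ⟨fun h => Or.inl h, fun h => Or.inr h⟩
  | 1 => exact ⟨fun h => Or.inl (by show - p.1 = - q.1; rw [h]), fun h => Or.inr h⟩
  | 2 => exact ⟨fun h => Or.inr h, fun h => Or.inl h⟩
  | n + 3 => exact ⟨fun h => Or.inr h, fun h => Or.inl (by show - p.2 = - q.2; rw [h])⟩

/-- semantics of a configuration at the threshold `t` -/
structure CfgSem (W : Finset Pt) (e : Pt) (F : ℕ) (p : ℕ → ℕ) (r K : ℕ) (t : ℚ) (v : ℕ → Pt) :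
    Prop where
  mem : ∀ j < 5, j ≠ r → inK K j = false → v j ∈ W
  xx : ∀ i < 5, i ≠ r → inK K i = false → ∀ j < 5, j ≠ r → inK K j = false →
    ltX F p i j = true → XF F (v i) < XF F (v j)
  yy : ∀ i < 5, i ≠ r → inK K i = false → ∀ j < 5, j ≠ r → inK K j = false →
    ltY F p i j = true → YF F (v i) < YF F (v j)
  xk : ∀ j < 5, j ≠ r → inK K j = false → ∀ k < 5, inK K k = true → ltX F p j k = true →
    XF F (v j) < XF F e
  kx : ∀ j < 5, j ≠ r → inK K j = false → ∀ k < 5, inK K k = true → ltX F p k j = true →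
    XF F e < XF F (v j)
  inner : ∀ j < 5, j ≠ r → inK K j = false → ltX F p j r = true → XF F (v j) < t
  outer : ∀ j < 5, j ≠ r → inK K j = false → ltX F p r j = true → t < XF F (v j)
  yr : ∀ j < 5, j ≠ r → inK K j = false → ltY F p j r = true → YF F (v j) < YF F e
  ry : ∀ j < 5, j ≠ r → inK K j = false → ltY F p r j = true → YF F e < YF F (v j)

theorem ltX_tri (F : ℕ) (π : Fin 5 → ℕ) (hπ : Function.Injective π) {i j : ℕ} (hi : i < 5)
    (hj : j < 5) (hij : i ≠ j) : ltX F (pN π) i j = true ∨ ltX F (pN π) j i = true := by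
  have hne : pN π i ≠ pN π j := by
    unfold pN
    rw [dif_pos hi, dif_pos hj]
    intro h
    exact hij (by simpa using hπ h)
  match F with
  | 0 => simp only [ltX, decide_eq_true_eq]; omega
  | 1 => simp only [ltX, decide_eq_true_eq]; omega
  | 2 => simp only [ltX, decide_eq_true_eq]; omega
  | n + 3 => simp only [ltX, decide_eq_true_eq]; omega

theorem mask_exists (b0 b1 b2 b3 b4 : Bool) : ∃ K < 32, inK K 0 = b0 ∧ inK K 1 = b1 ∧
    inK K 2 = b2 ∧ inK K 3 = b3 ∧ inK K 4 = b4 := by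
  revert b0 b1 b2 b3 b4
  decide

/-- monotonicity of an occurrence in a frame -/
theorem occ_frame {π : Fin 5 → ℕ} {f : Fin 5 → Pt} (h1 : ∀ i j, i < j → (f i).1 < (f j).1)
    (h2 : ∀ i j, π i < π j → (f i).2 < (f j).2) (F : ℕ) {i j : ℕ} (hi : i < 5) (hj : j < 5) :
    (ltX F (pN π) i j = true → XF F (f ⟨i, hi⟩) < XF F (f ⟨j, hj⟩)) ∧
    (ltY F (pN π) i j = true → YF F (f ⟨i, hi⟩) < YF F (f ⟨j, hj⟩)) := by
  have e1 : ∀ k (hk : k < 5), pN π k = π ⟨k, hk⟩ := fun k hk => dif_pos hk
  have a1 : i < j → (f ⟨i, hi⟩).1 < (f ⟨j, hj⟩).1 := fun h => h1 _ _ h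
  have a2 : j < i → (f ⟨j, hj⟩).1 < (f ⟨i, hi⟩).1 := fun h => h1 _ _ h
  have a3 : pN π i < pN π j → (f ⟨i, hi⟩).2 < (f ⟨j, hj⟩).2 := fun h => h2 _ _ (by
    rw [e1 i hi, e1 j hj] at h; exact h)
  have a4 : pN π j < pN π i → (f ⟨j, hj⟩).2 < (f ⟨i, hi⟩).2 := fun h => h2 _ _ (by
    rw [e1 i hi, e1 j hj] at h; exact h)
  match F with
  | 0 =>
    simp only [ltX, ltY, XF, YF, decide_eq_true_eq]
    exact ⟨a1, a3⟩
  | 1 =>
    simp only [ltX, ltY, XF, YF, decide_eq_true_eq]
    exact ⟨fun h => neg_lt_neg (a2 h), a3⟩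
  | 2 =>
    simp only [ltX, ltY, XF, YF, decide_eq_true_eq]
    exact ⟨a3, a1⟩
  | n + 3 =>
    simp only [ltX, ltY, XF, YF, decide_eq_true_eq]
    exact ⟨fun h => neg_lt_neg (a4 h), a1⟩

/-- the main step: if every admissible insertion creates an occurrence, then at every threshold
beyond a point `w` there is a configuration -/
theorem block {τ I : Finset Pt} {π : Fin 5 → ℕ} (hπ : Function.Injective π) (hg : Gen τ)
    (ha : ¬ Occ π τ) (hI : Intv τ I) {e : Pt} (he : e ∈ I)
    (H : ∀ p, p ∉ τ → Gen (insert p τ) → Breaks τ I p → Occ π (insert p τ))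
    (dec : Bool) (hdec : dec = true → ∀ a ∈ I, ∀ b ∈ I, a.1 < b.1 → b.2 < a.2)
    (F : ℕ) {capL capU : Bool} {y0 : ℚ} (hcut : Cut τ I F capL capU y0)
    (t : ℚ) (ht : ∀ w ∈ τ, XF F w ≠ t) {w : Pt} (hw : w ∈ τ) (hwI : w ∉ I)
    (hew : XF F e < XF F w) (hwt : XF F w < t) :
    ∃ r < 5, ∃ K < 32, cfgOK F (pN π) dec capL capU r K = true ∧
      ∃ v : ℕ → Pt, CfgSem (insert e (τ \ I)) e F (pN π) r K t v := by
  classical
  set p := mkP F t y0 with hp
  have hXp : XF F p = t := XF_mkP F t y0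
  have hYp : YF F p = y0 := YF_mkP F t y0
  have hpne : ∀ q ∈ τ, p.1 ≠ q.1 ∧ p.2 ≠ q.2 := by
    intro q hq
    constructor
    · intro h
      rcases (fst_snd_eq F p q).1 h with h | h
      · exact ht q hq (by rw [← h, hXp])
      · exact hcut.ne q hq (by rw [← h, hYp])
    · intro h
      rcases (fst_snd_eq F p q).2 h with h | h
      · exact ht q hq (by rw [← h, hXp])
      · exact hcut.ne q hq (by rw [← h, hYp])
  have hpτ : p ∉ τ := fun h => (hpne p h).1 rfl
  have hgen : Gen (insert p τ) := by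
    constructor
    · intro a ha' b hb hab
      rcases Finset.mem_insert.mp ha' with rfl | ha'
      · rcases Finset.mem_insert.mp hb with rfl | hb
        · rfl
        · exact absurd hab (hpne b hb).1
      · rcases Finset.mem_insert.mp hb with rfl | hb
        · exact absurd hab.symm (hpne a ha').1
        · exact hg.1 a ha' b hb hab
    · intro a ha' b hb hab
      rcases Finset.mem_insert.mp ha' with rfl | ha'
      · rcases Finset.mem_insert.mp hb with rfl | hb
        · rfl
        · exact absurd hab (hpne b hb).2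
      · rcases Finset.mem_insert.mp hb with rfl | hb
        · exact absurd hab.symm (hpne a ha').2
        · exact hg.2 a ha' b hb hab
  obtain ⟨i0, hi0, hlo⟩ := hcut.lo
  obtain ⟨j0, hj0, hhi⟩ := hcut.hi
  have hIw : ∀ i ∈ I, XF F i < XF F w := fun i hi => side_X hg hI F he hi hw hwI hew
  have hbr : Breaks τ I p := by
    have e3 : ∀ x y : ℚ, x < y → - y < - x := fun x y h => neg_lt_neg h
    rcases F_cases F with rfl | rfl | rfl | ⟨h1, h2, _⟩
    · left
      exact ⟨⟨i0, hi0, j0, hj0, hlo, hhi⟩, w, hw, Or.inl ⟨hIw, hwt⟩⟩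
    · left
      refine ⟨⟨i0, hi0, j0, hj0, hlo, hhi⟩, w, hw, Or.inr ⟨fun i hi => neg_lt_neg_iff.mp (hIw i hi), ?_⟩⟩
      have : XF 1 w < XF 1 p := by rw [hXp]; exact hwt
      exact neg_lt_neg_iff.mp this
    · right
      exact ⟨⟨i0, hi0, j0, hj0, hlo, hhi⟩, w, hw, Or.inl ⟨hIw, hwt⟩⟩
    · right
      rw [← hXp] at hwt
      rw [← hYp] at hlo hhi
      rw [h1, h1] at hwt
      rw [h2, h2] at hlo hhi
      refine ⟨⟨i0, hi0, j0, hj0, hlo, hhi⟩, w, hw, Or.inr ⟨fun i hi => ?_, neg_lt_neg_iff.mp hwt⟩⟩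
      have := hIw i hi
      rw [h1, h1] at this
      exact neg_lt_neg_iff.mp this
  obtain ⟨f, hf, hfx, hfy⟩ := H p hpτ hgen hbr
  have hinj : ∀ i j, f i = f j → i = j := by
    intro i j hij
    rcases lt_trichotomy i j with h | h | h
    · have := hfx i j h; rw [hij] at this; exact absurd this (lt_irrefl _)
    · exact h
    · have := hfx j i h; rw [hij] at this; exact absurd this (lt_irrefl _)
  have hr : ∃ r, f r = p := by
    by_contra hcon
    push Not at hcon
    exact ha ⟨f, fun i => by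
      rcases Finset.mem_insert.mp (hf i) with h | h
      · exact absurd h (hcon i)
      · exact h, hfx, hfy⟩
  obtain ⟨r, hr⟩ := hr
  have hfτ : ∀ i, i ≠ r → f i ∈ τ := by
    intro i hi
    rcases Finset.mem_insert.mp (hf i) with h | h
    · exact absurd (hinj i r (by rw [h, hr])) hi
    · exact h
  obtain ⟨K, hK32, k0, k1, k2, k3, k4⟩ := mask_exists (decide (f 0 ∈ I)) (decide (f 1 ∈ I))
    (decide (f 2 ∈ I)) (decide (f 3 ∈ I)) (decide (f 4 ∈ I))
  have hK : ∀ (i : ℕ) (hi : i < 5), inK K i = decide (f ⟨i, hi⟩ ∈ I) := by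
    intro i hi
    interval_cases i
    · exact k0
    · exact k1
    · exact k2
    · exact k3
    · exact k4
  have hKt : ∀ (i : ℕ) (hi : i < 5), inK K i = true → f ⟨i, hi⟩ ∈ I := by
    intro i hi h
    rw [hK i hi] at h
    exact of_decide_eq_true h
  have hKf : ∀ (i : ℕ) (hi : i < 5), inK K i = false → f ⟨i, hi⟩ ∉ I := by
    intro i hi h
    rw [hK i hi] at h
    exact of_decide_eq_false h
  have hr5 : (r : ℕ) < 5 := r.isLt
  have hfr : f ⟨(r : ℕ), hr5⟩ = p := hr
  have hneI : ∀ (i : ℕ) (hi : i < 5), i ≠ (r : ℕ) → f ⟨i, hi⟩ ∈ τ := by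
    intro i hi hir
    exact hfτ _ (fun h => hir (by rw [← h]))
  have mX : ∀ {i j : ℕ} (hi : i < 5) (hj : j < 5), ltX F (pN π) i j = true →
      XF F (f ⟨i, hi⟩) < XF F (f ⟨j, hj⟩) := fun hi hj => (occ_frame hfx hfy F hi hj).1
  have mY : ∀ {i j : ℕ} (hi : i < 5) (hj : j < 5), ltY F (pN π) i j = true →
      YF F (f ⟨i, hi⟩) < YF F (f ⟨j, hj⟩) := fun hi hj => (occ_frame hfx hfy F hi hj).2
  refine ⟨r, hr5, K, hK32, ?_, fun j => if h : j < 5 then f ⟨j, h⟩ else e, ?_⟩
  · -- admissibility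
    have hkr : inK K r = false := by
      rw [hK r hr5, hfr]
      exact decide_eq_false (fun h => hpτ (hI.1 h))
    have rgm : ∀ {k}, k ∈ rg → k < 5 := by
      intro k hk
      unfold rg at hk
      simp only [List.mem_cons, List.not_mem_nil, or_false] at hk
      omega
    unfold cfgOK
    simp only [Bool.and_eq_true, List.all_eq_true, Bool.or_eq_true, Bool.not_eq_true',
      decide_eq_true_eq]
    refine ⟨⟨⟨hkr, ?_⟩, ?_⟩, ?_⟩
    · intro k hk
      have hk5 := rgm hk
      rcases hb : inK K k with _ | _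
      · exact Or.inl rfl
      · right
        have h1 := hKt k hk5 hb
        have hkr' : k ≠ (r : ℕ) := fun h => by rw [h, hkr] at hb; exact absurd hb (by simp)
        rcases ltX_tri F π hπ hk5 hr5 hkr' with h2 | h2
        · exact h2
        · have h3 := mX hr5 hk5 h2
          rw [hfr, hXp] at h3
          have h4 := hIw _ h1
          linarith
    · intro j hj
      have hj5 := rgm hj
      by_cases hjr : j = (r : ℕ)
      · exact Or.inl (Or.inl hjr)
      rcases hb : inK K j with _ | _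
      · right
        have hjI := hKf j hj5 hb
        have hjτ := hneI j hj5 hjr
        intro k hk
        have hk5 := rgm hk
        rcases hbk : inK K k with _ | _
        · exact Or.inl rfl
        · right
          have hkI := hKt k hk5 hbk
          refine ⟨⟨?_, ?_⟩, ?_⟩
          · intro l hl
            have hl5 := rgm hl
            rcases hbl : inK K l with _ | _
            · exact Or.inl rfl
            · right
              have hlI := hKt l hl5 hbl
              refine ⟨?_, ?_⟩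
              · rcases hx : ltX F (pN π) k j && ltX F (pN π) j l with _ | _
                · rfl
                · obtain ⟨x1, x2⟩ := (Bool.and_eq_true _ _ ▸ hx)
                  exact absurd (intv_X hI F hkI hlI hjτ (mX hk5 hj5 x1) (mX hj5 hl5 x2)) hjI
              · rcases hx : ltY F (pN π) k j && ltY F (pN π) j l with _ | _
                · rfl
                · obtain ⟨x1, x2⟩ := (Bool.and_eq_true _ _ ▸ hx)
                  exact absurd (intv_Y hI F hkI hlI hjτ (mY hk5 hj5 x1) (mY hj5 hl5 x2)) hjI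
          · rcases hx : ltY F (pN π) k j && ltY F (pN π) j r with _ | _
            · rfl
            · obtain ⟨x1, x2⟩ := (Bool.and_eq_true _ _ ▸ hx)
              have x3 := mY hj5 hr5 x2
              rw [hfr, hYp] at x3
              exact absurd (intv_Y hI F hkI hj0 hjτ (mY hk5 hj5 x1) (lt_trans x3 hhi)) hjI
          · rcases hx : ltY F (pN π) r j && ltY F (pN π) j k with _ | _
            · rfl
            · obtain ⟨x1, x2⟩ := (Bool.and_eq_true _ _ ▸ hx)
              have x3 := mY hr5 hj5 x1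
              rw [hfr, hYp] at x3
              exact absurd (intv_Y hI F hi0 hkI hjτ (lt_trans hlo x3) (mY hj5 hk5 x2)) hjI
      · exact Or.inl (Or.inr rfl)
    · intro k hk
      have hk5 := rgm hk
      rcases hbk : inK K k with _ | _
      · exact Or.inl rfl
      right
      have hkI := hKt k hk5 hbk
      intro l hl
      have hl5 := rgm hl
      rcases hbl : inK K l with _ | _
      · exact Or.inl (Or.inl rfl)
      have hlI := hKt l hl5 hbl
      by_cases hkl : k = l
      · exact Or.inl (Or.inr hkl)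
      right
      have hne : f ⟨k, hk5⟩ ≠ f ⟨l, hl5⟩ := fun h => hkl (by simpa using hinj _ _ h)
      refine ⟨⟨?_, ?_⟩, ?_⟩
      · rcases hcL : capL with _ | _
        · exact Or.inl (Or.inl rfl)
        · rcases h1 : ltY F (pN π) k r with _ | _
          · exact Or.inl (Or.inr rfl)
          · rcases h2 : ltY F (pN π) l r with _ | _
            · exact Or.inr rfl
            · exfalso
              have x1 := mY hk5 hr5 h1
              have x2 := mY hl5 hr5 h2
              rw [hfr, hYp] at x1 x2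
              exact hne (hcut.cL hcL _ hkI _ hlI x1 x2)
      · rcases hcU : capU with _ | _
        · exact Or.inl (Or.inl rfl)
        · rcases h1 : ltY F (pN π) r k with _ | _
          · exact Or.inl (Or.inr rfl)
          · rcases h2 : ltY F (pN π) r l with _ | _
            · exact Or.inr rfl
            · exfalso
              have x1 := mY hr5 hk5 h1
              have x2 := mY hr5 hl5 h2
              rw [hfr, hYp] at x1 x2
              exact hne (hcut.cU hcU _ hkI _ hlI x1 x2)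
      · rcases hd : dec with _ | _
        · exact Or.inl rfl
        · right
          rcases Nat.lt_trichotomy l k with h1 | h1 | h1
          · exact Or.inl h1
          · exact absurd h1.symm hkl
          · right
            have x1 : (f ⟨k, hk5⟩).1 < (f ⟨l, hl5⟩).1 := hfx _ _ h1
            have x2 := hdec hd _ hkI _ hlI x1
            by_contra hcon
            have hneπ : pN π k ≠ pN π l := by
              unfold pN
              rw [dif_pos hk5, dif_pos hl5]
              intro h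
              exact hkl (by simpa using hπ h)
            have x3 : pN π k < pN π l := by omega
            unfold pN at x3
            rw [dif_pos hk5, dif_pos hl5] at x3
            exact absurd (hfy _ _ x3) (not_lt.mpr x2.le)
  · have hv : ∀ (j : ℕ) (hj : j < 5), (if h : j < 5 then f ⟨j, h⟩ else e) = f ⟨j, hj⟩ :=
      fun j hj => dif_pos hj
    refine ⟨?_, ?_, ?_, ?_, ?_, ?_, ?_, ?_, ?_⟩
    · intro j hj hjr hb
      rw [hv j hj]
      exact Finset.mem_insert_of_mem (Finset.mem_sdiff.mpr ⟨hneI j hj hjr, hKf j hj hb⟩)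
    · intro i hi _ _ j hj _ _ h
      rw [hv i hi, hv j hj]
      exact mX hi hj h
    · intro i hi _ _ j hj _ _ h
      rw [hv i hi, hv j hj]
      exact mY hi hj h
    · intro j hj hjr hb k hk hbk h
      rw [hv j hj]
      exact side_X' hg hI F (hKt k hk hbk) he (hneI j hj hjr) (hKf j hj hb) (mX hj hk h)
    · intro j hj hjr hb k hk hbk h
      rw [hv j hj]
      exact side_X hg hI F (hKt k hk hbk) he (hneI j hj hjr) (hKf j hj hb) (mX hk hj h)
    · intro j hj _ _ h
      rw [hv j hj]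
      have := mX hj hr5 h
      rwa [hfr, hXp] at this
    · intro j hj _ _ h
      rw [hv j hj]
      have := mX hr5 hj h
      rwa [hfr, hXp] at this
    · intro j hj hjr hb h
      rw [hv j hj]
      have := mY hj hr5 h
      rw [hfr, hYp] at this
      exact side_Y' hg hI F hj0 he (hneI j hj hjr) (hKf j hj hb) (lt_trans this hhi)
    · intro j hj hjr hb h
      rw [hv j hj]
      have := mY hr5 hj h
      rw [hfr, hYp] at this
      exact side_Y hg hI F hi0 he (hneI j hj hjr) (hKf j hj hb) (lt_trans hlo this)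

end Pool.Agent.Helper79.Defl
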