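import Pool.Agent.Helper79.Defl.Defs

/-! Certificate checker. -/

namespace Pool.Agent.Helper79.Defl

/-- atom: coordinate `ax` (false = first) of `i` is `<` (`st`) or `≤` that of `j` -/
structure Atom where
  ax : Bool
  i : ℕ
  j : ℕ
  st : Bool
deriving DecidableEq

/-- template: `nv` variables (terms `100 + k`), `0` is the centre, `99` the cell point -/
structure Tpl where
  nv : ℕ
  ats : List Atom
  li : ℕ
deriving DecidableEq

/-- state -/
structure St where
  n : ℕ
  mx : ℕ
  my : ℕ
  facts : List (List Atom)

/-- a rule: frame, kind of cell, kept templates -/
structure RuleT where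
  F : ℕ
  kind : ℕ
  kept : List Tpl

def colC : ℕ := 32054206789764143541094287778483939213043507413453626740547111226482599218355172950277940740410565255444120191658485789772148748555720175151953434334714570039983197248978273924104936746209885023151382982947300767748185895299675513960244657831382436020015738579147645886411209374599243194673825611089232895345797438493330591832148079445312499665120844071218907220421339854088711696174140048705133766692627134741150798956804311860633322712195848892829628097595784592016303710446902245181445018340146410838013510872045970314385115156880469167926466472050603074358611956494790999700343126693572515953823364660106071211953857102401393391777794603230866631564517029716014935278793558235991398615973284006539048571009937341960468992186687092786924758258513027501362463638626702257396500277940643204549725667123503683454313748109143253485273484784661580252351657647134933509249523003788631044692411895343312344681588373148674023856861729982746718559564283745623176895078701984890017761169631266985475681498807545240280610065882970657885722015181290893773137029889217170467261926234776311528177803059473565536877700736213267123555744484758283612957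14036303134761160507976752879889281153437249743827229933795201134791047935196542985108256109245090567111778067219838033213641614301219994638273705497690976197263565609672791647069496157153464508303499419605796397336217383090242256575393859698530671733404158380607472866230872879748234890821471770618381971617064026055781098078631768649214673392239744871739274237856689473086503770759041653645097792510421552596493278064899946453761030251990560181282521338917094597343703801771870196776299996899936921646138178339450708535914637953734558842616525533250018548378335614235098809401083487044155834696313735768296617772313740407834337813769311460004131981684519715205788278100026735866041412314624786987286050464803266824378050909468015995924532372608440776776970510436163271791860610592518612756809412134967687983393697474225165131965206004863694779024513020527517856922340159002596017365066071220710907377517872012904599240408930519017076998575869234417193288447513414229095371770737277550283609776373122814942839337045168029268372387754010628092121305221905831443058580603233379394142453869362360959658205778158819910510218797628853593871923477355544252915147951980666867379484913369200530387812183996783683697945293922304423660512590489672085769643496706525261707980845174600320627473645569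

def tb (M k : ℕ) : Bool := Nat.beq (Nat.land (Nat.shiftRight M k) 1) 1

/-- add the relation `i < j` (`st`) or `i ≤ j` to the closed matrix `M` -/
def addE (M i j : ℕ) (st : Bool) : ℕ :=
  let rj := Nat.mod (Nat.shiftRight M (Nat.mul 128 j)) 340282366920938463463374607431768211456
  let low := Nat.mod rj 18446744073709551616
  let cle := Nat.land (Nat.shiftRight M i) colC
  match st with
  | true => Nat.lor M (Nat.mul cle (Nat.mul low 18446744073709551617))
  | false =>
    let clt := Nat.land (Nat.shiftRight M (Nat.add i 64)) colC
    Nat.lor (Nat.lor M (Nat.mul cle rj)) (Nat.mul clt (Nat.mul low 18446744073709551616))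


def addA (mx my : ℕ) (a : Atom) : ℕ × ℕ :=
  match a.ax with
  | false => (addE mx a.i a.j a.st, my)
  | true => (mx, addE my a.i a.j a.st)

/-- is the atom known -/
def hasA (mx my : ℕ) (ax : Bool) (i j : ℕ) (st : Bool) : Bool :=
  match Nat.ble j 63 with
  | true => tb (match ax with | false => mx | true => my)
      (Nat.add (Nat.mul 128 i) (match st with | true => Nat.add 64 j | false => j))
  | false => false

def forceN {α : Type} (n : ℕ) (k : ℕ → α) : α :=
  match n with
  | 0 => k 0
  | m + 1 => k (Nat.succ m)

/-- add a list of atoms over points (terms already resolved by `f`), all indices must be `< n` -/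
def addL (f : ℕ → ℕ) : List Atom → ℕ → ℕ → (ℕ → ℕ → St) → St
  | [], mx, my, k => k mx my
  | a :: l, mx, my, k =>
    match a.ax with
    | false => forceN (addE mx (f a.i) (f a.j) a.st) (fun m => addL f l m my k)
    | true => forceN (addE my (f a.i) (f a.j) a.st) (fun m => addL f l mx m k)

def newPt (n M : ℕ) : ℕ := Nat.lor M (Nat.shiftLeft 1 (Nat.mul 129 n))

def newPts : ℕ → ℕ → ℕ → ℕ
  | 0, _, M => M
  | m + 1, n, M => newPts m (Nat.succ n) (newPt n M)

/-- resolve a template term as a point: `99` is the cell point `d`, `100 + k` the new point
`n + k`, other terms are themselves -/
def resP (d n t : ℕ) : ℕ :=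
  match Nat.ble 100 t with
  | true => Nat.add n (Nat.sub t 100)
  | false => match Nat.beq t 99 with | true => d | false => t

/-- resolve a template term for a fact: variables stay -/
def resF (d t : ℕ) : ℕ := match Nat.beq t 99 with | true => d | false => t

def mapA (f : ℕ → ℕ) (a : Atom) : Atom := ⟨a.ax, f a.i, f a.j, a.st⟩

/-- atom saying `X_F i < X_F j` (or `≤`) -/
def atX (F i j : ℕ) (st : Bool) : Atom :=
  match F with
  | 0 => ⟨false, i, j, st⟩
  | 1 => ⟨false, j, i, st⟩
  | 2 => ⟨true, i, j, st⟩
  | _ => ⟨true, j, i, st⟩

def atY (F i j : ℕ) (st : Bool) : Atom :=
  match F with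
  | 0 => ⟨true, i, j, st⟩
  | 1 => ⟨true, i, j, st⟩
  | 2 => ⟨false, i, j, st⟩
  | _ => ⟨false, i, j, st⟩

/-- side condition for the point `v`: `q = 0` below the centre, `q = 1` above, else nothing -/
def sideA (F q v : ℕ) : List Atom :=
  match q with
  | 0 => [atY F v 0 true]
  | 1 => [atY F 0 v true]
  | _ => []

/-- state after adding the atoms of template `t` with new points -/
def addT (s : St) (d : ℕ) (t : Tpl) (facts : List (List Atom)) : St :=
  addL (resP d s.n) t.ats (newPts t.nv s.n s.mx) (newPts t.nv s.n s.my)
    (fun mx my => ⟨Nat.add s.n t.nv, mx, my, facts⟩)

def tplFact (d : ℕ) (t : Tpl) : List Atom := t.ats.map (mapA (resF d))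

/-- fact: no instance of `t` whose designated point is inside `z` -/
def extFact (F d z : ℕ) (t : Tpl) : List Atom := atX F t.li z true :: t.ats.map (mapA (resF d))

/-- resolve a term of a fact under an assignment of the variables -/
def resV (v : List ℕ) (t : ℕ) : ℕ :=
  match Nat.ble 100 t with
  | true => v.getD (Nat.sub t 100) 63
  | false => t

/-- check a list of atoms under an assignment of the variables -/
def instOK (mx my : ℕ) (v : List ℕ) : List Atom → Bool
  | [] => true
  | a :: l =>
    match hasA mx my a.ax (resV v a.i) (resV v a.j) a.st with
    | true => instOK mx my v l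
    | false => false

/-- read `m` numbers -/
def rdL : ℕ → ℕ → List ℕ → (List ℕ → ℕ → Option (List St × ℕ)) → Option (List St × ℕ)
  | 0, s, acc, k => k acc.reverse s
  | m + 1, s, acc, k => forceN (Nat.mod s 128) (fun a => forceN (Nat.div s 128) (fun s' => rdL m s' (a :: acc) k))

structure Th where
  pi : List ℕ          -- the pattern, list of 5 values
  ord : List ℕ         -- positions in increasing order of values
  rules : List RuleT   -- blocking rules
  exts : List RuleT    -- families for the extremal rule

def chainOK (mx my : ℕ) (ax : Bool) : List ℕ → Bool
  | [] => true
  | [_] => true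
  | a :: b :: l => match hasA mx my ax a b true with
    | true => chainOK mx my ax (b :: l)
    | false => false

def allLt (n : ℕ) : List ℕ → Bool
  | [] => true
  | a :: l => match Nat.ble (Nat.succ a) n with
    | true => allLt n l
    | false => false

/-- is `X_F i < X_F j` known -/
def hasX (s : St) (F i j : ℕ) : Bool :=
  match F with
  | 0 => hasA s.mx s.my false i j true
  | 1 => hasA s.mx s.my false j i true
  | 2 => hasA s.mx s.my true i j true
  | _ => hasA s.mx s.my true j i true

def op0 (s : St) (c : ℕ) : Option (List St × ℕ) :=
  rdL 2 c [] fun l c =>
    match l with
    | [ax, i] => match hasA s.mx s.my (Nat.beq ax 1) i i true with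
      | true => some ([], c)
      | false => none
    | _ => none

def op1 (T : Th) (s : St) (c : ℕ) : Option (List St × ℕ) :=
  rdL 5 c [] fun l c =>
    match chainOK s.mx s.my false l with
    | true => match chainOK s.mx s.my true (T.ord.map fun k => l.getD k 63) with
      | true => some ([], c)
      | false => none
    | false => none

def op2 (s : St) (c : ℕ) : Option (List St × ℕ) :=
  rdL 2 c [] fun l c =>
    match l with
    | [fi, nv] => rdL nv c [] fun v c =>
      match s.facts[fi]? with
      | some ats => match instOK s.mx s.my v ats with
        | true => some ([], c)
        | false => none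
      | none => none
    | _ => none

def op3 (s : St) (c : ℕ) : Option (List St × ℕ) :=
  rdL 3 c [] fun l c =>
    match l with
    | [ax, i, j] => match allLt s.n [i, j] with
      | true => some ([addL id [⟨Nat.beq ax 1, i, j, true⟩] s.mx s.my (fun mx my => ⟨s.n, mx, my, s.facts⟩),
          addL id [⟨Nat.beq ax 1, j, i, false⟩] s.mx s.my (fun mx my => ⟨s.n, mx, my, s.facts⟩)], c)
      | false => none
    | _ => none

def op4 (s : St) (c : ℕ) : Option (List St × ℕ) :=
  rdL 3 c [] fun l c =>
    match l with
    | [ax, i, j] =>
      match hasA s.mx s.my (Nat.beq ax 1) i j false with
      | true => match hasA s.mx s.my (!(Nat.beq ax 1)) i j true || hasA s.mx s.my (!(Nat.beq ax 1)) j i true with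
        | true => some ([addL id [⟨Nat.beq ax 1, i, j, true⟩] s.mx s.my
            (fun mx my => ⟨s.n, mx, my, s.facts⟩)], c)
        | false => none
      | false => none
    | _ => none

def op5 (s : St) (c : ℕ) : Option (List St × ℕ) :=
  rdL 3 c [] fun l c =>
    match l with
    | [ax, i, j] =>
      match hasA s.mx s.my (Nat.beq ax 1) i j false with
      | true => match hasA s.mx s.my (Nat.beq ax 1) j i false with
        | true => some ([addL id [⟨!(Nat.beq ax 1), i, j, false⟩, ⟨!(Nat.beq ax 1), j, i, false⟩] s.mx s.my
            (fun mx my => ⟨s.n, mx, my, s.facts⟩)], c)
        | false => none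
      | false => none
    | _ => none

def op6 (s : St) (c : ℕ) : Option (List St × ℕ) :=
  rdL 1 c [] fun l c =>
    match l with
    | [ax] => match Nat.ble s.n 60 with
      | true =>
        some ([addL id [⟨Nat.beq ax 1, s.n, 0, true⟩] (newPts 1 s.n s.mx) (newPts 1 s.n s.my)
            (fun mx my => ⟨Nat.add s.n 1, mx, my, s.facts⟩),
          addL id [⟨Nat.beq ax 1, 0, s.n, true⟩] (newPts 1 s.n s.mx) (newPts 1 s.n s.my)
            (fun mx my => ⟨Nat.add s.n 1, mx, my, s.facts⟩)], c)
      | false => none
    | _ => none

def op7 (s : St) (c : ℕ) : Option (List St × ℕ) :=
  rdL 1 c [] fun l c =>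
    match l with
    | [F] => match Nat.ble s.n 60 with
      | true =>
        some ([⟨s.n, s.mx, s.my, [atX F 0 100 true] :: s.facts⟩,
          addL id [atX F 0 s.n true] (newPts 1 s.n s.mx) (newPts 1 s.n s.my)
            (fun mx my => ⟨Nat.add s.n 1, mx, my, s.facts⟩)], c)
      | false => none
    | _ => none

def op8 (s : St) (c : ℕ) : Option (List St × ℕ) :=
  rdL 3 c [] fun l c =>
    match l with
    | [F, d, q] => match Nat.ble s.n 60 with
      | true => match Nat.ble (Nat.succ d) s.n with
        | true =>
          some ([⟨s.n, s.mx, s.my, (atX F 0 100 true :: atX F 100 d true :: sideA F q 100) :: s.facts⟩,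
            addL id (atX F 0 s.n true :: atX F s.n d true :: sideA F q s.n)
              (newPts 1 s.n s.mx) (newPts 1 s.n s.my)
              (fun mx my => ⟨Nat.add s.n 1, mx, my,
                (atX F s.n 100 true :: atX F 100 d true :: sideA F q 100) :: s.facts⟩)], c)
        | false => none
      | false => none
    | _ => none

def pre9 (s : St) (R : RuleT) (d w : ℕ) : Bool :=
  match Nat.ble (Nat.succ d) s.n with
  | true => match R.kind with
    | 0 => hasX s R.F 0 w && hasX s R.F w d
    | 1 => hasX s R.F 0 d
    | _ => hasX s R.F 0 w
  | false => false

def op9 (T : Th) (s : St) (c : ℕ) : Option (List St × ℕ) :=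
  rdL 3 c [] fun l c =>
    match l with
    | [ri, d, w] => match T.rules[ri]? with
      | some R =>
        match pre9 s R d w with
        | true => match Nat.ble s.n 60 with
          | true => some (R.kept.map fun t => addT s d t s.facts, c)
          | false => none
        | false => none
      | none => none
    | _ => none

def op10 (T : Th) (s : St) (c : ℕ) : Option (List St × ℕ) :=
  rdL 2 c [] fun l c =>
    match l with
    | [ri, d] => match T.exts[ri]? with
      | some R =>
        match Nat.ble (Nat.succ d) s.n with
        | true => match Nat.ble s.n 60 with
          | true => some (⟨s.n, s.mx, s.my, R.kept.map (tplFact d) ++ s.facts⟩ ::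
              R.kept.map (fun t => addT s d t
                (R.kept.map (extFact R.F d (resP d s.n t.li)) ++ s.facts)), c)
          | false => none
        | false => none
      | none => none
    | _ => none

def step (T : Th) (s : St) (c : ℕ) : Option (List St × ℕ) :=
  forceN (Nat.mod c 128) fun op => forceN (Nat.div c 128) fun c =>
  match op with
  | 0 => op0 s c
  | 1 => op1 T s c
  | 2 => op2 s c
  | 3 => op3 s c
  | 4 => op4 s c
  | 5 => op5 s c
  | 6 => op6 s c
  | 7 => op7 s c
  | 8 => op8 s c
  | 9 => op9 T s c
  | 10 => op10 T s c
  | _ => none

def chkList (f : St → ℕ → (ℕ → Bool) → Bool) : List St → ℕ → (ℕ → Bool) → Bool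
  | [], c, k => k c
  | s :: l, c, k => f s c (fun c' => chkList f l c' k)

def chk (T : Th) : ℕ → St → ℕ → (ℕ → Bool) → Bool
  | 0, _, _, _ => false
  | fuel + 1, s, c, k =>
    forceN s.mx fun mx => forceN s.my fun my => forceN s.n fun n =>
    match step T ⟨n, mx, my, s.facts⟩ c with
    | some (l, c') => chkList (chk T fuel) l c' k
    | none => false

end Pool.Agent.Helper79.Defl
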