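import Pool.Agent.Helper79.Defl.Tmpl

/-! From accepted certificates to the local insertion lemma. -/

namespace Pool.Agent.Helper79.Defl

theorem thr_lo (S : Finset ℚ) (x : ℚ) : ∃ t, t < x ∧ ∀ y ∈ S, y < x → y < t := by
  induction S using Finset.induction_on with
  | empty => exact ⟨x - 1, by linarith, by simp⟩
  | insert a S _ ih =>
    obtain ⟨t, h1, h2⟩ := ih
    by_cases ha : a < x
    · refine ⟨max t ((a + x) / 2), max_lt h1 (by linarith), ?_⟩
      intro y hy hyx
      rcases Finset.mem_insert.mp hy with rfl | hy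
      · exact lt_max_of_lt_right (by linarith)
      · exact lt_max_of_lt_left (h2 y hy hyx)
    · refine ⟨t, h1, ?_⟩
      intro y hy hyx
      rcases Finset.mem_insert.mp hy with rfl | hy
      · exact absurd hyx ha
      · exact h2 y hy hyx

theorem thr_hi (S : Finset ℚ) (x : ℚ) : ∃ t, x < t ∧ ∀ y ∈ S, x < y → t < y := by
  obtain ⟨t, h1, h2⟩ := thr_lo (S.image (fun y => -y)) (-x)
  refine ⟨-t, by linarith, fun y hy hxy => ?_⟩
  have := h2 (-y) (Finset.mem_image.mpr ⟨y, hy, rfl⟩) (by linarith)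
  linarith

theorem thr_top (S : Finset ℚ) : ∃ t, ∀ y ∈ S, y < t := by
  induction S using Finset.induction_on with
  | empty => exact ⟨0, by simp⟩
  | insert a S _ ih =>
    obtain ⟨t, h2⟩ := ih
    refine ⟨max t (a + 1), ?_⟩
    intro y hy
    rcases Finset.mem_insert.mp hy with rfl | hy
    · exact lt_max_of_lt_right (by linarith)
    · exact lt_max_of_lt_left (h2 y hy)

/-- the state with the centre and the cell point -/
def baseSt (F kind : ℕ) (facts : List (List Atom)) : St :=
  match kind with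
  | 0 => addL id [atX F 0 1 true] (newPts 2 0 0) (newPts 2 0 0) (fun mx my => ⟨2, mx, my, facts⟩)
  | 1 => addL id [atX F 0 1 true] (newPts 2 0 0) (newPts 2 0 0) (fun mx my => ⟨2, mx, my, facts⟩)
  | _ => ⟨2, newPts 2 0 0, newPts 2 0 0, facts⟩

def statSt (base : List (List Atom)) (R : RuleT) (t : Tpl) : St :=
  addT (baseSt R.F R.kind []) 1 t (base ++ R.kept.map (tplFact 1))

def statT (pi ord : List ℕ) : Th := ⟨pi, ord, [], []⟩

def statOne (pi ord : List ℕ) (base : List (List Atom)) (R : RuleT) (t : Tpl) (c : ℕ) : Bool :=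
  match decide (t ∈ R.kept) with
  | true => true
  | false => chk (statT pi ord) 400 (statSt base R t) c (fun c => Nat.beq c 0)

def statList (pi ord : List ℕ) (base : List (List Atom)) (R : RuleT) :
    List Tpl → List ℕ → Bool
  | [], _ => true
  | _ :: _, [] => false
  | t :: l, c :: cs => match statOne pi ord base R t c with
    | true => statList pi ord base R l cs
    | false => false

def statRule (T : Th) (dec : Bool) (caps : ℕ → Bool × Bool) (base : List (List Atom)) (p : ℕ → ℕ)
    (R : RuleT) (cs : List ℕ) : Bool :=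
  statList T.pi T.ord base R (fullT R.F p dec (caps R.F).1 (caps R.F).2 R.kind 31) cs &&
    R.kept.all tplOK &&
    (fullT R.F p dec (caps R.F).1 (caps R.F).2 R.kind 31).all tplOK

def statAll (T : Th) (dec : Bool) (caps : ℕ → Bool × Bool) (base : List (List Atom)) (p : ℕ → ℕ) :
    List RuleT → List (List ℕ) → Bool
  | [], _ => true
  | _ :: _, [] => false
  | R :: l, cs :: ls => statRule T dec caps base p R cs && statAll T dec caps base p l ls

theorem statAll_mem {T : Th} {dec : Bool} {caps : ℕ → Bool × Bool} {base : List (List Atom)}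
    {p : ℕ → ℕ} : ∀ (l : List RuleT) (ls : List (List ℕ)), statAll T dec caps base p l ls = true →
    ∀ R ∈ l, ∃ cs, statRule T dec caps base p R cs = true := by
  intro l
  induction l with
  | nil => intro _ _ R hR; exact absurd hR (by simp)
  | cons a l ih =>
    intro ls h R hR
    cases ls with
    | nil => exact absurd h (by simp [statAll])
    | cons cs ls =>
      rw [statAll, Bool.and_eq_true] at h
      rcases List.mem_cons.mp hR with rfl | hR
      · exact ⟨cs, h.1⟩
      · exact ih ls h.2 R hR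

theorem statList_mem {pi ord : List ℕ} {base : List (List Atom)} {R : RuleT} :
    ∀ (l : List Tpl) (cs : List ℕ), statList pi ord base R l cs = true →
    ∀ t ∈ l, ∃ c, statOne pi ord base R t c = true := by
  intro l
  induction l with
  | nil => intro _ _ R hR; exact absurd hR (by simp)
  | cons a l ih =>
    intro ls h R hR
    cases ls with
    | nil => exact absurd h (by simp [statList])
    | cons c cs =>
      rw [statList] at h
      split at h
      · rename_i h1
        rcases List.mem_cons.mp hR with rfl | hR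
        · exact ⟨c, h1⟩
        · exact ih cs h R hR
      · exact absurd h (by simp)

/-- facts which hold in every state -/
def BaseOK (W : Finset Pt) (e : Pt) (base : List (List Atom)) : Prop :=
  ∀ f ∈ base, ∀ (ρ : ℕ → Pt) (n : ℕ), ρ 0 = e → 0 < n → FOK W ρ n f

theorem baseSt_n (F kind : ℕ) (facts : List (List Atom)) : (baseSt F kind facts).n = 2 := by
  unfold baseSt
  split
  · unfold atX
    split <;> simp only [addL, forceN_eq]
  · unfold atX
    split <;> simp only [addL, forceN_eq]
  · rfl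

theorem MOK.zero (ax : Bool) (ρ : ℕ → Pt) : MOK ax ρ 0 0 := by
  constructor <;> intros <;> simp_all

theorem Sat.base {W : Finset Pt} {e d : Pt} (he : e ∈ W) (hd : d ∈ W) (F kind : ℕ)
    (hk : kind = 0 ∨ kind = 1 → XF F e < XF F d) :
    Sat W e (fun i => if i = 0 then e else d) (baseSt F kind []) := by
  have hρ : ∀ i, (if i = 0 then e else d) ∈ W := by
    intro i; split
    · exact he
    · exact hd
  have hM : ∀ ax, MOK ax (fun i => if i = 0 then e else d) 2 (newPts 2 0 0) := fun ax =>
    MOK.newPts (m := 2) (n := 0) (MOK.zero ax _) (by norm_num)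
  have hs0 : Sat W e (fun i => if i = 0 then e else d) ⟨2, newPts 2 0 0, newPts 2 0 0, []⟩ :=
    ⟨rfl, by norm_num, by norm_num, fun i _ => hρ i, hM false, hM true, fun f hf => absurd hf (by simp)⟩
  have hadd : XF F e < XF F d → Sat W e (fun i => if i = 0 then e else d)
      (addL id [atX F 0 1 true] (newPts 2 0 0) (newPts 2 0 0) (fun mx my => ⟨2, mx, my, []⟩)) := by
    intro hlt
    refine hs0.addAtoms _ ?_
    intro a ha
    rw [List.mem_singleton] at ha
    subst ha
    have hAT : AT (fun i => if i = 0 then e else d) (atX F 0 1 true) := by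
      rw [AT_atX]
      simpa using hlt
    rcases atX_idx F 0 1 true with ⟨h5, h6⟩ | ⟨h5, h6⟩
    · rw [h5, h6]; exact ⟨by norm_num, by norm_num, hAT⟩
    · rw [h5, h6]; exact ⟨by norm_num, by norm_num, hAT⟩
  unfold baseSt
  split
  · exact hadd (hk (Or.inl rfl))
  · exact hadd (hk (Or.inr rfl))
  · exact hs0

theorem valid4_of_stat {T : Th} {dec : Bool} {caps : ℕ → Bool × Bool} {base : List (List Atom)}
    {p : ℕ → ℕ} {R : RuleT} {cs : List ℕ} {W : Finset Pt} {e : Pt}
    (hst : statRule T dec caps base p R cs = true) (hW : World (statT T.pi T.ord) W e)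
    (hbase : BaseOK W e base)
    (hkey : ∀ d ∈ W, ∀ w, Pre9 W e R.kind R.F d w →
      ∃ t ∈ fullT R.F p dec (caps R.F).1 (caps R.F).2 R.kind 31, ∃ g : ℕ → Pt,
        (∀ k, g k ∈ W) ∧ ∀ a ∈ t.ats, AT (tval e d g) a) : Valid4 W e R := by
  unfold statRule at hst
  simp only [Bool.and_eq_true, List.all_eq_true] at hst
  obtain ⟨⟨hst, hk⟩, hfull⟩ := hst
  intro d hd w hpre
  by_contra hno
  obtain ⟨t, ht, g, hg, hat⟩ := hkey d hd w hpre
  obtain ⟨c, hc⟩ := statList_mem _ _ hst t ht
  unfold statOne at hc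
  split at hc
  · rename_i hmem
    exact hno ⟨t, of_decide_eq_true hmem, g, hg, hat⟩
  · obtain ⟨hun, _⟩ := chk_sound hW 400 _ c _ hc
    have hk0 : R.kind = 0 ∨ R.kind = 1 → XF R.F e < XF R.F d := by
      rintro (h | h)
      · rw [h] at hpre
        have h3 : w ∈ W ∧ XF R.F e < XF R.F w ∧ XF R.F w < XF R.F d := hpre
        exact lt_trans h3.2.1 h3.2.2
      · rw [h] at hpre
        exact hpre
    have hs := Sat.base hW.he hd R.F R.kind hk0
    have hn2 := baseSt_n R.F R.kind []
    have htok := hfull t ht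
    have hnv : t.nv ≤ 4 := by
      unfold tplOK at htok
      simp only [Bool.and_eq_true, decide_eq_true_eq] at htok
      exact htok.1.1
    refine hun _ (hs.addT (d := 1) (by rw [hn2]; norm_num) htok (by rw [hn2]; norm_num)
      (g := g) hg (by simpa using hat) (base ++ R.kept.map (tplFact 1)) ?_)
    intro x hx
    have e0 : ext (fun i => if i = 0 then e else d) g (baseSt R.F R.kind []).n 0 = e := by
      rw [ext_lt (by rw [hn2]; norm_num)]; simp
    have e1 : ext (fun i => if i = 0 then e else d) g (baseSt R.F R.kind []).n 1 = d := by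
      rw [ext_lt (by rw [hn2]; norm_num)]; simp
    rcases List.mem_append.mp hx with hx | hx
    · exact hbase x hx _ _ e0 (by omega)
    · obtain ⟨t', ht', rfl⟩ := List.mem_map.mp hx
      have h1n : 1 < (baseSt R.F R.kind []).n + t.nv := by omega
      have h64 : (baseSt R.F R.kind []).n + t.nv ≤ 64 := by omega
      refine ⟨(tplFact_iff (g := g) h1n e0 h64 (by omega) (hk t' ht')).1, ?_⟩
      intro g' hg' hall
      have h6 := (tplFact_iff (g := g') h1n e0 h64 (by omega) (hk t' ht')).2 hall
      rw [e1] at h6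
      exact hno ⟨t', ht', g', hg', h6⟩

/-- the list `ord` orders the positions by their values -/
def OrdOK (π : Fin 5 → ℕ) (ord : List ℕ) : Prop :=
  ∀ i j : Fin 5, π i < π j → ∃ a < 5, ∃ b < 5, a < b ∧ ord[a]? = some i.val ∧ ord[b]? = some j.val

theorem occ_of_chains {π : Fin 5 → ℕ} {ord : List ℕ} (hord : OrdOK π ord) {W : Finset Pt}
    {v : ℕ → Pt} (hv : ∀ k, v k ∈ W)
    (h1 : List.IsChain (fun a b => (v a).1 < (v b).1) [0, 1, 2, 3, 4])
    (h2 : List.IsChain (fun a b => (v a).2 < (v b).2) ord) : Occ π W := by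
  have : IsTrans ℕ (fun a b => (v a).1 < (v b).1) := ⟨fun _ _ _ h h' => lt_trans h h'⟩
  have : IsTrans ℕ (fun a b => (v a).2 < (v b).2) := ⟨fun _ _ _ h h' => lt_trans h h'⟩
  refine ⟨fun i => v i, fun i => hv _, ?_, ?_⟩
  · have h3 := List.isChain_iff_pairwise.mp h1
    intro i j hij
    rw [List.pairwise_iff_getElem] at h3
    have h4 := h3 i.val j.val (by simpa using i.isLt) (by simpa using j.isLt) hij
    fin_cases i <;> fin_cases j <;> simp_all
  · have h3 := List.isChain_iff_pairwise.mp h2
    intro i j hij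
    obtain ⟨a, _, b, _, hab, ha, hb⟩ := hord i j hij
    rw [List.pairwise_iff_getElem] at h3
    obtain ⟨ha1, ha2⟩ := List.getElem?_eq_some_iff.mp ha
    obtain ⟨hb1, hb2⟩ := List.getElem?_eq_some_iff.mp hb
    have h4 := h3 a b ha1 hb1 hab
    rw [ha2, hb2] at h4
    exact h4

theorem closes {τ I : Finset Pt} {π : Fin 5 → ℕ} (hπ : Function.Injective π) (hg : Gen τ)
    (ha : ¬ Occ π τ) (hI : Intv τ I) (h2 : 2 ≤ I.card) (hne : I ≠ τ)
    (H : ∀ p, p ∉ τ → Gen (insert p τ) → Breaks τ I p → Occ π (insert p τ))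
    {e : Pt} (he : e ∈ I)
    (dec : Bool) (hdec : dec = true → ∀ a ∈ I, ∀ b ∈ I, a.1 < b.1 → b.2 < a.2)
    (caps : ℕ → Bool × Bool) (hcaps : ∀ F, ((caps F).1 && (caps F).2) = false)
    (T : Th) (hord : OrdOK π T.ord) (hT : thOK T = true)
    (base : List (List Atom)) (hbase : BaseOK (insert e (τ \ I)) e base)
    (stat : List (List ℕ)) (hstat : statAll T dec caps base (pN π) T.rules stat = true)
    (cert : ℕ) (hcert : chk T 1000 ⟨1, 1, 1, base⟩ cert (fun c => Nat.beq c 0) = true) : False := by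
  classical
  have hWτ : ∀ w ∈ insert e (τ \ I), w ∈ τ := by
    intro w hw
    rcases Finset.mem_insert.mp hw with rfl | hw
    · exact hI.1 he
    · exact (Finset.mem_sdiff.mp hw).1
  have hWne : ∀ w ∈ insert e (τ \ I), w ≠ e → w ∈ τ ∧ w ∉ I := by
    intro w hw hwe
    rcases Finset.mem_insert.mp hw with h | hw
    · exact absurd h hwe
    · exact Finset.mem_sdiff.mp hw
  have heW : e ∈ insert e (τ \ I) := Finset.mem_insert_self _ _
  have hpat : ∀ v : ℕ → Pt, (∀ k, v k ∈ insert e (τ \ I)) →
      List.IsChain (fun a b => (v a).1 < (v b).1) [0, 1, 2, 3, 4] →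
      List.IsChain (fun a b => (v a).2 < (v b).2) T.ord → False := by
    intro v hv h3 h4
    obtain ⟨f, f1, f2, f3⟩ := occ_of_chains hord hv h3 h4
    exact ha ⟨f, fun i => hWτ _ (f1 i), f2, f3⟩
  have hwne : ∃ w ∈ insert e (τ \ I), w ≠ e := by
    by_contra hcon
    push Not at hcon
    refine hne (Finset.Subset.antisymm hI.1 fun w hw => ?_)
    by_contra hwI
    have := hcon w (Finset.mem_insert_of_mem (Finset.mem_sdiff.mpr ⟨hw, hwI⟩))
    exact hwI (this ▸ he)
  have hW0 : World (statT T.pi T.ord) (insert e (τ \ I)) e :=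
    ⟨heW, fun p hp q hq h => hg.1 p (hWτ p hp) q (hWτ q hq) h,
      fun p hp q hq h => hg.2 p (hWτ p hp) q (hWτ q hq) h, hpat, hwne, by
        unfold thOK at hT ⊢
        simp only [Bool.and_eq_true] at hT
        simp only [statT, List.all_nil, Bool.true_and]
        exact hT.2, fun R hR => absurd hR (by simp [statT])⟩
  have hrules : ∀ R ∈ T.rules, Valid4 (insert e (τ \ I)) e R := by
    intro R hR
    obtain ⟨cs, hcs⟩ := statAll_mem _ _ hstat R hR
    refine valid4_of_stat hcs hW0 hbase ?_
    intro d hd w hpre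
    obtain ⟨y0, hcut⟩ := cut_exists hg hI h2 R.F (caps R.F).1 (caps R.F).2 (hcaps R.F)
    have key : ∀ (t : ℚ), (∀ w ∈ τ, XF R.F w ≠ t) → CellRel (insert e (τ \ I)) R.F R.kind t d →
        (∃ w, w ∈ τ ∧ w ∉ I ∧ XF R.F e < XF R.F w ∧ XF R.F w < t) →
        ∃ t ∈ fullT R.F (pN π) dec (caps R.F).1 (caps R.F).2 R.kind 31, ∃ g : ℕ → Pt,
          (∀ k, g k ∈ insert e (τ \ I)) ∧ ∀ a ∈ t.ats, AT (tval e d g) a := by
      rintro t ht hc ⟨w, hw, hwI, hew, hwt⟩
      obtain ⟨r, hr, K, hK, hok, v, hsem⟩ := block hπ hg ha hI he H dec hdec R.F hcut t ht hw hwI hew hwt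
      exact ⟨_, mem_fullT hr hK hsem hc hok, gT e r K v, gT_mem hsem heW, tpl_holds hr hK hsem hc⟩
    have hne_of : ∀ w ∈ insert e (τ \ I), XF R.F e < XF R.F w → w ∈ τ ∧ w ∉ I := by
      intro w hw hlt
      refine hWne w hw ?_
      rintro rfl
      exact absurd hlt (lt_irrefl _)
    rcases hk : R.kind with _ | _ | n
    · rw [hk] at hpre key
      have h3 : w ∈ insert e (τ \ I) ∧ XF R.F e < XF R.F w ∧ XF R.F w < XF R.F d := hpre
      obtain ⟨t, ht1, ht2⟩ := thr_lo (τ.image (XF R.F)) (XF R.F d)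
      have ht3 : ∀ w ∈ τ, XF R.F w < XF R.F d → XF R.F w < t := fun w hw h =>
        ht2 _ (Finset.mem_image_of_mem _ hw) h
      refine key t ?_ ?_ ⟨w, (hne_of w h3.1 h3.2.1).1, (hne_of w h3.1 h3.2.1).2, h3.2.1,
        ht3 w (hWτ w h3.1) h3.2.2⟩
      · intro w hw heq
        have := ht3 w hw (by rw [heq]; exact ht1)
        rw [heq] at this
        exact absurd this (lt_irrefl _)
      · show ∀ w ∈ insert e (τ \ I), (XF R.F w < t → XF R.F w < XF R.F d) ∧
          (t < XF R.F w → XF R.F d ≤ XF R.F w)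
        intro w hw
        refine ⟨fun h => lt_trans h ht1, fun h => ?_⟩
        by_contra hcon
        push Not at hcon
        exact absurd (ht3 w (hWτ w hw) hcon) (not_lt.mpr h.le)
    · rw [hk] at hpre key
      have h3 : XF R.F e < XF R.F d := hpre
      obtain ⟨t, ht1, ht2⟩ := thr_hi (τ.image (XF R.F)) (XF R.F d)
      have ht3 : ∀ w ∈ τ, XF R.F d < XF R.F w → t < XF R.F w := fun w hw h =>
        ht2 _ (Finset.mem_image_of_mem _ hw) h
      refine key t ?_ ?_ ⟨d, (hne_of d hd h3).1, (hne_of d hd h3).2, h3, ht1⟩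
      · intro w hw heq
        have := ht3 w hw (by rw [heq]; exact ht1)
        rw [heq] at this
        exact absurd this (lt_irrefl _)
      · show ∀ w ∈ insert e (τ \ I), (XF R.F w < t → XF R.F w ≤ XF R.F d) ∧
          (t < XF R.F w → XF R.F d < XF R.F w)
        intro w hw
        refine ⟨fun h => ?_, fun h => lt_trans ht1 h⟩
        by_contra hcon
        push Not at hcon
        exact absurd (ht3 w (hWτ w hw) hcon) (not_lt.mpr h.le)
    · rw [hk] at hpre key
      have h3 : w ∈ insert e (τ \ I) ∧ XF R.F e < XF R.F w := hpre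
      obtain ⟨t, ht2⟩ := thr_top (τ.image (XF R.F))
      have ht3 : ∀ w ∈ τ, XF R.F w < t := fun w hw => ht2 _ (Finset.mem_image_of_mem _ hw)
      refine key t ?_ ?_ ⟨w, (hne_of w h3.1 h3.2).1, (hne_of w h3.1 h3.2).2, h3.2,
        ht3 w (hWτ w h3.1)⟩
      · intro w hw heq
        exact absurd (ht3 w hw) (by rw [heq]; exact lt_irrefl _)
      · show ∀ w ∈ insert e (τ \ I), XF R.F w < t
        intro w hw
        exact ht3 w (hWτ w hw)
  have hWT : World T (insert e (τ \ I)) e :=
    ⟨heW, hW0.gx, hW0.gy, hpat, hwne, hT, hrules⟩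
  obtain ⟨hun, _⟩ := chk_sound hWT 1000 _ cert _ hcert
  have hM : ∀ ax, MOK ax (fun _ : ℕ => e) 1 1 := fun ax =>
    MOK.newPt (n := 0) (M := 0) (MOK.zero ax _) (by norm_num)
  exact hun (fun _ => e) ⟨rfl, by norm_num, by norm_num, fun i _ => heW, hM false, hM true,
    fun f hf => hbase f hf _ _ rfl (by norm_num)⟩

end Pool.Agent.Helper79.Defl
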