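import Pool.Agent.Helper79.Defl.Closes

/-! The patterns, the caps of the cuts and the static facts. -/

namespace Pool.Agent.Helper79.Defl

def pi25314 : Fin 5 → ℕ := ![1, 4, 2, 0, 3]
def pi24153 : Fin 5 → ℕ := ![1, 3, 0, 4, 2]
def pi23514 : Fin 5 → ℕ := ![1, 2, 4, 0, 3]
def pi24513 : Fin 5 → ℕ := ![1, 3, 4, 0, 2]

def caps25314 (F : ℕ) : Bool × Bool :=
  match F with
  | 0 => (true, false)
  | 1 => (false, true)
  | 2 => (false, true)
  | _ => (true, false)

def caps24153 (F : ℕ) : Bool × Bool :=
  match F with
  | 0 => (true, false)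
  | 1 => (false, true)
  | 2 => (true, false)
  | _ => (false, true)

def caps24513 (F : ℕ) : Bool × Bool :=
  match F with
  | 0 => (false, true)
  | 1 => (false, true)
  | 2 => (true, false)
  | _ => (true, false)

def caps23514 (F : ℕ) : Bool × Bool :=
  match F with
  | 0 => (true, false)
  | 1 => (false, true)
  | 2 => (true, false)
  | _ => (true, false)

def capsN (_ : ℕ) : Bool × Bool := (false, false)

/-- an ascending pair of the interval cannot be completed to a copy of 23514 -/
def x23514 : List Atom :=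
  [⟨false, 0, 100, true⟩, ⟨false, 100, 101, true⟩, ⟨false, 101, 102, true⟩,
   ⟨true, 101, 0, true⟩, ⟨true, 0, 102, true⟩, ⟨true, 102, 100, true⟩]

/-- an ascending pair of the interval cannot be completed to a copy of 24513 -/
def x24513 : List Atom :=
  [⟨false, 100, 0, true⟩, ⟨false, 0, 101, true⟩, ⟨false, 101, 102, true⟩,
   ⟨true, 101, 100, true⟩, ⟨true, 100, 102, true⟩, ⟨true, 102, 0, true⟩]

end Pool.Agent.Helper79.Defl
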