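import Mathlib

/-! Permutations, containment, classes, simple permutations, substitution closure, deflatability. -/

namespace Pool.Agent.Helper79.Defl

/-- a permutation of some length -/
abbrev Permutation := Σ n : ℕ, Equiv.Perm (Fin n)

/-- `α ≤ β`: some subsequence of `β` has its entries in the same relative order as `α` -/
def Contained (α β : Permutation) : Prop :=
  ∃ f : Fin α.1 → Fin β.1, StrictMono f ∧ ∀ i j, α.2 i < α.2 j ↔ β.2 (f i) < β.2 (f j)

/-- a class: a set of permutations closed downward under containment -/
def IsClass (C : Set Permutation) : Prop := ∀ α β, Contained α β → β ∈ C → α ∈ C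

/-- `Av(π)` -/
def Av (π : Permutation) : Set Permutation := {σ | ¬ Contained π σ}

/-- interval of a permutation: a set of entries (given by their positions) whose positions form a
contiguous range and whose values form a contiguous range -/
def IsInterval (σ : Permutation) (I : Finset (Fin σ.1)) : Prop :=
  (∀ a ∈ I, ∀ b ∈ I, ∀ c, a < c → c < b → c ∈ I) ∧
  (∀ a ∈ I, ∀ b ∈ I, ∀ c, σ.2 a < σ.2 c → σ.2 c < σ.2 b → c ∈ I)

/-- simple permutation: its only (nonempty) intervals are single entries and the set of all
entries -/
def IsSimple (σ : Permutation) : Prop :=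
  ∀ I : Finset (Fin σ.1), IsInterval σ I → I.card ≤ 1 ∨ I = Finset.univ

/-- substitution closure `⟨D⟩`: the largest class whose simple permutations are exactly the simple
permutations of `D`, i.e. the union of all classes with this property -/
def SubstClosure (D : Set Permutation) : Set Permutation :=
  {σ | ∃ E : Set Permutation, IsClass E ∧ (∀ ρ, IsSimple ρ → (ρ ∈ E ↔ ρ ∈ D)) ∧ σ ∈ E}

/-- `C` is deflatable: `C ⊆ ⟨D⟩` for some proper subclass `D` of `C` -/
def Deflatable (C : Set Permutation) : Prop :=
  ∃ D : Set Permutation, IsClass D ∧ D ⊂ C ∧ C ⊆ SubstClosure D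

end Pool.Agent.Helper79.Defl
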