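import Mathlib

/-! Generic finite point sets in the plane (over the rationals) as a model of permutations,
and the reduction of non-deflatability to a local insertion lemma. -/

namespace Pool.Agent.Helper79.Defl

/-- points of the plane -/
abbrev Pt := ℚ × ℚ

/-- no two points of `τ` on a common vertical or horizontal line -/
def Gen (τ : Finset Pt) : Prop :=
  (∀ p ∈ τ, ∀ q ∈ τ, p.1 = q.1 → p = q) ∧ (∀ p ∈ τ, ∀ q ∈ τ, p.2 = q.2 → p = q)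

/-- `τ` contains the pattern `π` of length 5 (`π i` = value at position `i`) -/
def Occ (π : Fin 5 → ℕ) (τ : Finset Pt) : Prop :=
  ∃ f : Fin 5 → Pt, (∀ i, f i ∈ τ) ∧ (∀ i j, i < j → (f i).1 < (f j).1) ∧
    (∀ i j, π i < π j → (f i).2 < (f j).2)

/-- `J` is an interval of `τ` -/
def Intv (τ J : Finset Pt) : Prop :=
  J ⊆ τ ∧ ∀ a ∈ J, ∀ b ∈ J, ∀ c ∈ τ,
    ((a.1 < c.1 ∧ c.1 < b.1) ∨ (a.2 < c.2 ∧ c.2 < b.2)) → c ∈ J

/-- `τ` is simple -/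
def Simple (τ : Finset Pt) : Prop := ∀ J, Intv τ J → J.card ≤ 1 ∨ J = τ

/-- `I` is a strong interval: it overlaps no other interval -/
def Strong (τ I : Finset Pt) : Prop :=
  Intv τ I ∧ ∀ J, Intv τ J → I ⊆ J ∨ J ⊆ I ∨ Disjoint I J

/-- increasing point set -/
def Inc (τ : Finset Pt) : Prop := ∀ p ∈ τ, ∀ q ∈ τ, p.1 < q.1 → p.2 < q.2

/-- decreasing point set -/
def Dec (τ : Finset Pt) : Prop := ∀ p ∈ τ, ∀ q ∈ τ, p.1 < q.1 → q.2 < p.2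

/-- `p` cuts `I` in one coordinate, and in the other coordinate it is separated from `I` by a
point of `τ`. -/
def Breaks (τ I : Finset Pt) (p : Pt) : Prop :=
  ((∃ i ∈ I, ∃ j ∈ I, i.2 < p.2 ∧ p.2 < j.2) ∧
    ∃ w ∈ τ, ((∀ i ∈ I, i.1 < w.1) ∧ w.1 < p.1) ∨ ((∀ i ∈ I, w.1 < i.1) ∧ p.1 < w.1)) ∨
  ((∃ i ∈ I, ∃ j ∈ I, i.1 < p.1 ∧ p.1 < j.1) ∧
    ∃ w ∈ τ, ((∀ i ∈ I, i.2 < w.2) ∧ w.2 < p.2) ∨ ((∀ i ∈ I, w.2 < i.2) ∧ p.2 < w.2))

/-- the local insertion lemma for the pattern `π` -/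
def Local (π : Fin 5 → ℕ) : Prop :=
  ∀ τ I : Finset Pt, Gen τ → ¬ Occ π τ → Intv τ I → 2 ≤ I.card → I ≠ τ →
    ∃ p, p ∉ τ ∧ Gen (insert p τ) ∧ ¬ Occ π (insert p τ) ∧ Breaks τ I p

open Classical in
/-- the proper intervals with at least two points -/
noncomputable def ivs (τ : Finset Pt) : Finset (Finset Pt) :=
  τ.powerset.filter (fun J => Intv τ J ∧ 2 ≤ J.card ∧ J ≠ τ)

/-- no four entries of `π` are monotone -/
def NM (π : Fin 5 → ℕ) : Prop :=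
  ∀ r : Fin 5, (∃ i j : Fin 5, i ≠ r ∧ j ≠ r ∧ i < j ∧ π i < π j) ∧
    (∃ i j : Fin 5, i ≠ r ∧ j ≠ r ∧ i < j ∧ π j < π i)

end Pool.Agent.Helper79.Defl
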