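import Mathlib
import Pool.Agent.Helper79.Defl.Defs
import Pool.Agent.Defl7.Pts

/-! Existence of a proper strong interval, transported from `Defl7`. -/

namespace Pool.Agent.Helper79.Defl

theorem gp_of_gen {τ : Finset Pt} (h : Gen τ) : Defl7.GP τ := fun p hp q hq hne =>
  ⟨fun e => hne (h.1 p hp q hq e), fun e => hne (h.2 p hp q hq e)⟩

theorem gen_of_gp {τ : Finset Pt} (h : Defl7.GP τ) : Gen τ :=
  ⟨fun p hp q hq e => by
    by_contra hne
    exact (h p hp q hq hne).1 e,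
   fun p hp q hq e => by
    by_contra hne
    exact (h p hp q hq hne).2 e⟩

theorem itv_iff {τ J : Finset Pt} : Defl7.Itv τ J ↔ Intv τ J := by
  constructor
  · rintro ⟨h1, h2⟩
    refine ⟨h1, fun a ha b hb c hc h => ?_⟩
    rcases h with h | h
    · exact (h2 a ha b hb c hc).1 h.1 h.2
    · exact (h2 a ha b hb c hc).2 h.1 h.2
  · rintro ⟨h1, h2⟩
    exact ⟨h1, fun a ha c hc b hb => ⟨fun g1 g2 => h2 a ha c hc b hb (Or.inl ⟨g1, g2⟩),
      fun g1 g2 => h2 a ha c hc b hb (Or.inr ⟨g1, g2⟩)⟩⟩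

theorem strong_iff {τ I : Finset Pt} : Defl7.Strong τ I ↔ Strong τ I := by
  constructor
  · rintro ⟨h1, h2⟩
    refine ⟨itv_iff.1 h1, fun J hJ => ?_⟩
    rcases h2 J (itv_iff.2 hJ) with h | h | h
    · exact Or.inr (Or.inl h)
    · exact Or.inl h
    · exact Or.inr (Or.inr h)
  · rintro ⟨h1, h2⟩
    refine ⟨itv_iff.2 h1, fun J hJ => ?_⟩
    rcases h2 J (itv_iff.1 hJ) with h | h | h
    · exact Or.inr (Or.inl h)
    · exact Or.inl h
    · exact Or.inr (Or.inr h)

theorem simple_iff {τ : Finset Pt} : Defl7.PSimple τ ↔ Simple τ := by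
  constructor
  · exact fun h J hJ => h J (itv_iff.2 hJ)
  · exact fun h J hJ => h J (itv_iff.1 hJ)

theorem nm_of {τ : Finset Pt} (hg : Gen τ) (hi : ¬ Inc τ) (hd : ¬ Dec τ) : Defl7.NM τ := by
  unfold Inc at hi
  unfold Dec at hd
  push Not at hi hd
  obtain ⟨p, hp, q, hq, h1, h2⟩ := hi
  obtain ⟨p', hp', q', hq', h1', h2'⟩ := hd
  refine ⟨⟨p', hp', q', hq', h1', ?_⟩, ⟨p, hp, q, hq, h1, ?_⟩⟩
  · refine lt_of_le_of_ne h2' (fun e => ?_)
    have := hg.2 p' hp' q' hq' e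
    exact lt_irrefl _ (this ▸ h1')
  · refine lt_of_le_of_ne h2 (fun e => ?_)
    have := hg.2 p hp q hq e.symm
    exact lt_irrefl _ (this ▸ h1)

/-- Every finite generic point set that is not simple, not increasing and not decreasing has a
proper strong interval with at least two points. -/
theorem strong_exists (τ : Finset Pt) (hg : Gen τ) (hs : ¬ Simple τ) (hi : ¬ Inc τ)
    (hd : ¬ Dec τ) : ∃ I, Strong τ I ∧ 2 ≤ I.card ∧ I ≠ τ := by
  obtain ⟨K, hK, hc, hn⟩ := Defl7.exists_strong (gp_of_gen hg) (nm_of hg hi hd)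
    (fun h => hs (simple_iff.1 h))
  exact ⟨K, strong_iff.1 hK, hc, hn⟩

end Pool.Agent.Helper79.Defl
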