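import Mathlib
import Pool.Agent.Helper79.Defl.SI
import Pool.Agent.Helper79.Defl.PermDefs
import Pool.Agent.Defl7.Perm

namespace Pool.Agent.Helper79.Defl

open Pool.Agent

theorem Contained.trans' {α β γ : Permutation} (h : Contained α β) (h' : Contained β γ) :
    Contained α γ := Defl7.Contains.trans (α := α.2) (β := β.2) (γ := γ.2) h h'

/-- The substitution closure of a class is the largest class with the same simple
permutations. -/
theorem substClosure_isLargest {D : Set Permutation} (hD : IsClass D) :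
    IsGreatest {E | IsClass E ∧ ∀ ρ, IsSimple ρ → (ρ ∈ E ↔ ρ ∈ D)} (SubstClosure D) := by
  refine ⟨⟨?_, ?_⟩, ?_⟩
  · rintro a b hab ⟨E, hE, h1, h2⟩
    exact ⟨E, hE, h1, hE a b hab h2⟩
  · intro ρ hρ
    constructor
    · rintro ⟨E, hE, h1, h2⟩
      exact (h1 ρ hρ).1 h2
    · intro h
      exact ⟨D, hD, fun _ _ => Iff.rfl, h⟩
  · rintro E ⟨hE, h1⟩ a ha
    exact ⟨E, hE, h1, ha⟩

theorem not_deflatable {C : Set Permutation}
    (h : ∀ σ ∈ C, ∃ ρ ∈ C, IsSimple ρ ∧ Contained σ ρ) : ¬ Deflatable C := by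
  rintro ⟨D, hD, hDC, hCD⟩
  apply hDC.2
  intro a ha
  obtain ⟨b, hb, hbs, hab⟩ := h a ha
  obtain ⟨E, hE, h1, h2⟩ := hCD hb
  exact hD a b hab ((h1 b hbs).1 h2)

/-- **CONV** -/
theorem conv (π : Equiv.Perm (Fin 5))
    (h : ∀ τ : Finset Pt, Gen τ → ¬ Occ (fun i => (π i : ℕ)) τ →
      ∃ τ', τ ⊆ τ' ∧ Gen τ' ∧ ¬ Occ (fun i => (π i : ℕ)) τ' ∧ Simple τ') :
    (∀ σ ∈ Av ⟨5, π⟩, ∃ ρ ∈ Av ⟨5, π⟩, IsSimple ρ ∧ Contained σ ρ) ∧
      ¬ Deflatable (Av ⟨5, π⟩) := by
  classical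
  have main : ∀ σ ∈ Av ⟨5, π⟩, ∃ ρ ∈ Av ⟨5, π⟩, IsSimple ρ ∧ Contained σ ρ := by
    rintro ⟨n, τ⟩ hτ
    have hav : ¬ Occ (fun i => (π i : ℕ)) (Defl7.ptS τ) := by
      rintro ⟨f, h1, h2, h3⟩
      exact Defl7.PAv_ptS (π := π) (τ := τ) hτ ⟨f, h1, h2, fun i j hij => h3 i j hij⟩
    obtain ⟨T, hST, hT1, hT2, hT3⟩ := h (Defl7.ptS τ) (gen_of_gp (Defl7.GP_ptS τ)) hav
    obtain ⟨β, g, hgT, hgs, hx, hy⟩ := Defl7.exists_perm T (gp_of_gen hT1)
    have hginj : Function.Injective g := by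
      intro i j e
      rcases lt_trichotomy i j with h | h | h
      · have := (hx i j).1 h; rw [e] at this; exact absurd this (lt_irrefl _)
      · exact h
      · have := (hx j i).1 h; rw [e] at this; exact absurd this (lt_irrefl _)
    refine ⟨⟨T.card, β⟩, ?_, ?_, ?_⟩
    · rintro ⟨f, hf, h⟩
      apply hT2
      exact ⟨g ∘ f, fun i => hgT _, fun i j hij => (hx _ _).1 (hf hij),
        fun i j hij => (hy _ _).1 ((h i j).1 hij)⟩
    · intro J hJ
      set J' := J.image g with hJ'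
      have mem : ∀ i, g i ∈ J' ↔ i ∈ J := by
        intro i
        rw [hJ', Finset.mem_image]
        constructor
        · rintro ⟨j, hj, e⟩
          rwa [← hginj e]
        · intro h
          exact ⟨i, h, rfl⟩
      have hItv : Intv T J' := by
        refine ⟨fun p hp => ?_, ?_⟩
        · obtain ⟨i, _, rfl⟩ := Finset.mem_image.mp hp
          exact hgT i
        intro a ha c hc b hb hh
        obtain ⟨i, hi, rfl⟩ := Finset.mem_image.mp ha
        obtain ⟨j, hj, rfl⟩ := Finset.mem_image.mp hc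
        obtain ⟨l, rfl⟩ := hgs b hb
        rw [mem]
        rcases hh with hh | hh
        · exact hJ.1 i hi j hj l ((hx _ _).2 hh.1) ((hx _ _).2 hh.2)
        · exact hJ.2 i hi j hj l ((hy _ _).2 hh.1) ((hy _ _).2 hh.2)
      rcases hT3 J' hItv with h | h
      · left
        rwa [hJ', Finset.card_image_of_injective _ hginj] at h
      · right
        ext i
        simp only [Finset.mem_univ, iff_true]
        rw [← mem, h]
        exact hgT i
    · have hf : ∀ i : Fin n, ∃ j, g j = (((i : ℕ) : ℚ), ((τ i : ℕ) : ℚ)) :=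
        fun i => hgs _ (hST (Defl7.mem_ptS τ i))
      choose f hf using hf
      refine ⟨f, ?_, ?_⟩
      · intro i j hij
        rw [hx, hf i, hf j]
        show ((i : ℕ) : ℚ) < ((j : ℕ) : ℚ)
        exact_mod_cast hij
      · intro i j
        show τ i < τ j ↔ β (f i) < β (f j)
        rw [hy, hf i, hf j]
        show _ ↔ ((τ i : ℕ) : ℚ) < ((τ j : ℕ) : ℚ)
        rw [Nat.cast_lt, Fin.lt_def]
  exact ⟨main, not_deflatable main⟩

end Pool.Agent.Helper79.Defl
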