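import Pool.Agent.Helper79.Defl.Defs

/-! Adding a breaking point of a strong interval drops the number of proper intervals. -/

namespace Pool.Agent.Helper79.Defl

/-- intervals with respect to two arbitrary coordinate functions -/
def IXY (X Y : Pt → ℚ) (τ J : Finset Pt) : Prop :=
  J ⊆ τ ∧ ∀ a ∈ J, ∀ b ∈ J, ∀ c ∈ τ,
    ((X a < X c ∧ X c < X b) ∨ (Y a < Y c ∧ Y c < Y b)) → c ∈ J

theorem ixy_fst_snd (τ J : Finset Pt) :
    Intv τ J ↔ IXY (fun p => p.1) (fun p => p.2) τ J := Iff.rfl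

theorem ixy_swap (X Y : Pt → ℚ) (τ J : Finset Pt) : IXY X Y τ J ↔ IXY Y X τ J := by
  constructor
  · rintro ⟨h1, h2⟩
    exact ⟨h1, fun a ha b hb c hc h => h2 a ha b hb c hc h.symm⟩
  · rintro ⟨h1, h2⟩
    exact ⟨h1, fun a ha b hb c hc h => h2 a ha b hb c hc h.symm⟩

theorem ixy_neg (X Y : Pt → ℚ) (τ J : Finset Pt) :
    IXY X Y τ J ↔ IXY (fun p => -X p) Y τ J := by
  constructor
  · rintro ⟨h1, h2⟩
    refine ⟨h1, fun a ha b hb c hc h => ?_⟩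
    rcases h with ⟨h3, h4⟩ | h
    · exact h2 b hb a ha c hc (Or.inl ⟨neg_lt_neg_iff.mp h4, neg_lt_neg_iff.mp h3⟩)
    · exact h2 a ha b hb c hc (Or.inr h)
  · rintro ⟨h1, h2⟩
    refine ⟨h1, fun a ha b hb c hc h => ?_⟩
    rcases h with ⟨h3, h4⟩ | h
    · exact h2 b hb a ha c hc (Or.inl ⟨neg_lt_neg_iff.mpr h4, neg_lt_neg_iff.mpr h3⟩)
    · exact h2 a ha b hb c hc (Or.inr h)

/-- the core data -/
structure Core (X Y : Pt → ℚ) (τ I : Finset Pt) (p : Pt) : Prop where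
  hp : p ∉ τ
  inj : ∀ a ∈ τ, ∀ b ∈ τ, Y a = Y b → a = b
  int : IXY X Y τ I
  strong : ∀ J, IXY X Y τ J → I ⊆ J ∨ J ⊆ I ∨ Disjoint I J
  cut : ∃ i ∈ I, ∃ j ∈ I, Y i < Y p ∧ Y p < Y j
  sep : ∃ w ∈ τ, (∀ i ∈ I, X i < X w) ∧ X w < X p

variable {X Y : Pt → ℚ} {τ I : Finset Pt} {p : Pt}

theorem Core.side (h : Core X Y τ I p) {z : Pt} (hz : z ∈ τ) (hzI : z ∉ I) :
    (∀ i ∈ I, Y i < Y z) ∨ (∀ i ∈ I, Y z < Y i) := by
  by_contra hc
  push Not at hc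
  obtain ⟨⟨i, hi, hi2⟩, ⟨j, hj, hj2⟩⟩ := hc
  have h1 : Y z ≠ Y i := fun he => hzI (by rw [h.inj z hz i (h.int.1 hi) he]; exact hi)
  have h2 : Y j ≠ Y z := fun he => hzI (by rw [← h.inj j (h.int.1 hj) z hz he]; exact hj)
  exact hzI (h.int.2 j hj i hi z hz (Or.inr ⟨lt_of_le_of_ne hj2 h2, lt_of_le_of_ne hi2 h1⟩))

theorem ixy_erase {J : Finset Pt} (hp : p ∉ τ) (hJ : IXY X Y (insert p τ) J) :
    IXY X Y τ (J.erase p) := by
  refine ⟨fun x hx => ?_, fun a ha b hb c hc hh => ?_⟩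
  · rw [Finset.mem_erase] at hx
    rcases Finset.mem_insert.mp (hJ.1 hx.2) with h | h
    · exact absurd h hx.1
    · exact h
  · rw [Finset.mem_erase] at ha hb ⊢
    refine ⟨fun he => hp (he ▸ hc), hJ.2 a ha.2 b hb.2 c (Finset.mem_insert_of_mem hc) hh⟩

/-- a point of `J ∩ τ` outside `I` forces a point of `I` into `J ∋ p` -/
theorem Core.out (h : Core X Y τ I p) {J : Finset Pt} (hJ : IXY X Y (insert p τ) J)
    (hpJ : p ∈ J) {z : Pt} (hz : z ∈ J) (hzτ : z ∈ τ) (hzI : z ∉ I) :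
    ∃ j ∈ I, j ∈ J := by
  obtain ⟨i, hi, j, hj, hip, hpj⟩ := h.cut
  rcases h.side hzτ hzI with hs | hs
  · exact ⟨j, hj, hJ.2 p hpJ z hz j (Finset.mem_insert_of_mem (h.int.1 hj))
      (Or.inr ⟨hpj, hs j hj⟩)⟩
  · exact ⟨i, hi, hJ.2 z hz p hpJ i (Finset.mem_insert_of_mem (h.int.1 hi))
      (Or.inr ⟨hs i hi, hip⟩)⟩

/-- a point of `J ∩ I` forces the separating point into `J ∋ p` -/
theorem Core.inn (h : Core X Y τ I p) {J : Finset Pt} (hJ : IXY X Y (insert p τ) J)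
    (hpJ : p ∈ J) {z : Pt} (hz : z ∈ J) (hzI : z ∈ I) :
    ∃ w ∈ J, w ≠ p ∧ ∀ i ∈ I, X i < X w := by
  obtain ⟨w, hw, hw1, hw2⟩ := h.sep
  refine ⟨w, ?_, fun he => h.hp (he ▸ hw), hw1⟩
  exact hJ.2 z hz p hpJ w (Finset.mem_insert_of_mem hw) (Or.inl ⟨hw1 z hzI, hw2⟩)

theorem Core.card (h : Core X Y τ I p) {J : Finset Pt} (hJ : IXY X Y (insert p τ) J)
    (h2 : 2 ≤ J.card) : 2 ≤ (J.erase p).card := by
  by_cases hpJ : p ∈ J
  · by_contra hc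
    push Not at hc
    have h3 := Finset.card_erase_of_mem hpJ
    have h4 : (J.erase p).card = 1 := by omega
    obtain ⟨z, hz⟩ := Finset.card_eq_one.mp h4
    have hzm : z ∈ J.erase p := by rw [hz]; exact Finset.mem_singleton_self z
    have hzJ : z ∈ J := Finset.mem_of_mem_erase hzm
    have hzτ : z ∈ τ := (ixy_erase h.hp hJ).1 hzm
    have huniq : ∀ x ∈ J, x ≠ p → x = z := fun x hx hxp => by
      have : x ∈ J.erase p := Finset.mem_erase.mpr ⟨hxp, hx⟩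
      rw [hz] at this
      exact Finset.mem_singleton.mp this
    by_cases hzI : z ∈ I
    · obtain ⟨w, hw, hwp, hw1⟩ := h.inn hJ hpJ hzJ hzI
      have := huniq w hw hwp
      have h5 := hw1 z hzI
      rw [this] at h5
      exact lt_irrefl _ h5
    · obtain ⟨j, hj, hjJ⟩ := h.out hJ hpJ hzJ hzτ hzI
      have hjp : j ≠ p := fun he => h.hp (he ▸ h.int.1 hj)
      exact hzI (huniq j hjJ hjp ▸ hj)
  · rwa [Finset.erase_eq_of_notMem hpJ]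

theorem Core.pmem (h : Core X Y τ I p) {J : Finset Pt} (hJ : IXY X Y (insert p τ) J)
    (hI : I ⊆ J) : p ∈ J := by
  obtain ⟨i, hi, j, hj, hip, hpj⟩ := h.cut
  exact hJ.2 i (hI hi) j (hI hj) p (Finset.mem_insert_self p τ) (Or.inr ⟨hip, hpj⟩)

theorem Core.ne_top (h : Core X Y τ I p) {J : Finset Pt} (hJ : IXY X Y (insert p τ) J)
    (hne : J ≠ insert p τ) : J.erase p ≠ τ := by
  intro he
  have h1 : p ∈ J := h.pmem hJ (fun x hx => Finset.mem_of_mem_erase (he ▸ h.int.1 hx))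
  apply hne
  rw [← he, Finset.insert_erase h1]

theorem Core.ne_I (h : Core X Y τ I p) {J : Finset Pt} (hJ : IXY X Y (insert p τ) J) :
    J.erase p ≠ I := by
  intro he
  have h1 : p ∈ J := h.pmem hJ (fun x hx => Finset.mem_of_mem_erase (he ▸ hx))
  obtain ⟨i, hi, -⟩ := h.cut
  obtain ⟨w, hw, hwp, hw1⟩ := h.inn hJ h1 (Finset.mem_of_mem_erase (he ▸ hi)) hi
  have hwI : w ∈ I := by rw [← he]; exact Finset.mem_erase.mpr ⟨hwp, hw⟩
  exact lt_irrefl _ (hw1 w hwI)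

theorem Core.aux (h : Core X Y τ I p) {J1 J2 : Finset Pt} (hJ1 : IXY X Y (insert p τ) J1)
    (hJ2 : IXY X Y (insert p τ) J2) (h2 : 2 ≤ J2.card) (he : J1.erase p = J2.erase p)
    (hp1 : p ∈ J1) : p ∈ J2 := by
  by_contra hp2
  have hJ : IXY X Y τ (J2.erase p) := ixy_erase h.hp hJ2
  have hJe : J2.erase p = J2 := Finset.erase_eq_of_notMem hp2
  rw [hJe] at hJ he
  have hsub : ∀ x ∈ J2, x ∈ J1 := fun x hx => Finset.mem_of_mem_erase (he ▸ hx)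
  have hsub' : ∀ x ∈ J1, x ≠ p → x ∈ J2 := fun x hx hxp => by
    rw [← he]; exact Finset.mem_erase.mpr ⟨hxp, hx⟩
  obtain ⟨z, hz⟩ : J2.Nonempty := Finset.card_pos.mp (by omega)
  rcases h.strong J2 hJ with hs | hs | hs
  · exact hp2 (h.pmem hJ2 hs)
  · obtain ⟨w, hw, hwp, hw1⟩ := h.inn hJ1 hp1 (hsub z hz) (hs hz)
    exact lt_irrefl _ (hw1 w (hs (hsub' w hw hwp)))
  · have hzI : z ∉ I := fun hzI => Finset.disjoint_left.mp hs hzI hz
    obtain ⟨j, hj, hjJ⟩ := h.out hJ1 hp1 (hsub z hz) (hJ.1 hz) hzI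
    exact Finset.disjoint_left.mp hs hj
      (hsub' j hjJ (fun he2 => h.hp (he2 ▸ h.int.1 hj)))

theorem Core.inje (h : Core X Y τ I p) {J1 J2 : Finset Pt} (hJ1 : IXY X Y (insert p τ) J1)
    (hJ2 : IXY X Y (insert p τ) J2) (h1 : 2 ≤ J1.card) (h2 : 2 ≤ J2.card)
    (he : J1.erase p = J2.erase p) : J1 = J2 := by
  by_cases hp1 : p ∈ J1
  · have hp2 := h.aux hJ1 hJ2 h2 he hp1
    rw [← Finset.insert_erase hp1, ← Finset.insert_erase hp2, he]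
  · have hp2 : p ∉ J2 := fun hp2 => hp1 (h.aux hJ2 hJ1 h1 he.symm hp2)
    rw [← Finset.erase_eq_of_notMem hp1, ← Finset.erase_eq_of_notMem hp2, he]

theorem Core.count (h : Core X Y τ I p) (hXY : ∀ σ J, Intv σ J ↔ IXY X Y σ J)
    (h2 : 2 ≤ I.card) (hne : I ≠ τ) : (ivs (insert p τ)).card < (ivs τ).card := by
  classical
  have hmem : ∀ σ J, J ∈ ivs σ ↔ IXY X Y σ J ∧ 2 ≤ J.card ∧ J ≠ σ := by
    intro σ J
    unfold ivs
    rw [Finset.mem_filter, Finset.mem_powerset, hXY]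
    exact ⟨fun hh => hh.2, fun hh => ⟨hh.1.1, hh⟩⟩
  have hI : I ∈ ivs τ := (hmem τ I).mpr ⟨h.int, h2, hne⟩
  have hle : (ivs (insert p τ)).card ≤ ((ivs τ).erase I).card := by
    refine Finset.card_le_card_of_injOn (fun J => J.erase p) ?_ ?_
    · intro J hJ
      have hJ' := (hmem _ _).mp (Finset.mem_coe.mp hJ)
      refine Finset.mem_coe.mpr (Finset.mem_erase.mpr ⟨h.ne_I hJ'.1, (hmem _ _).mpr
        ⟨ixy_erase h.hp hJ'.1, h.card hJ'.1 hJ'.2.1, h.ne_top hJ'.1 hJ'.2.2⟩⟩)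
    · intro J1 hJ1 J2 hJ2 he
      have h1 := (hmem _ _).mp (Finset.mem_coe.mp hJ1)
      have h2 := (hmem _ _).mp (Finset.mem_coe.mp hJ2)
      exact h.inje h1.1 h2.1 h1.2.1 h2.2.1 he
  have h3 := Finset.card_erase_of_mem hI
  have h4 : 0 < (ivs τ).card := Finset.card_pos.mpr ⟨I, hI⟩
  omega

theorem count_lt (τ I : Finset Pt) (p : Pt) (hp : p ∉ τ) (hg : Gen (insert p τ))
    (hI : Strong τ I) (h2 : 2 ≤ I.card) (hne : I ≠ τ) (hb : Breaks τ I p) :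
    (ivs (insert p τ)).card < (ivs τ).card := by
  have hg1 : ∀ a ∈ τ, ∀ b ∈ τ, a.1 = b.1 → a = b := fun a ha b hb he =>
    hg.1 a (Finset.mem_insert_of_mem ha) b (Finset.mem_insert_of_mem hb) he
  have hg2 : ∀ a ∈ τ, ∀ b ∈ τ, a.2 = b.2 → a = b := fun a ha b hb he =>
    hg.2 a (Finset.mem_insert_of_mem ha) b (Finset.mem_insert_of_mem hb) he
  -- the four coordinate systems
  have e1 : ∀ σ J, Intv σ J ↔ IXY (fun q : Pt => q.1) (fun q => q.2) σ J := fun σ J => Iff.rfl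
  have e2 : ∀ σ J, Intv σ J ↔ IXY (fun q : Pt => -q.1) (fun q => q.2) σ J := fun σ J =>
    (e1 σ J).trans (ixy_neg _ _ σ J)
  have e3 : ∀ σ J, Intv σ J ↔ IXY (fun q : Pt => q.2) (fun q => q.1) σ J := fun σ J =>
    (e1 σ J).trans (ixy_swap _ _ σ J)
  have e4 : ∀ σ J, Intv σ J ↔ IXY (fun q : Pt => -q.2) (fun q => q.1) σ J := fun σ J =>
    (e3 σ J).trans (ixy_neg _ _ σ J)
  rcases hb with ⟨hc, w, hw, hw1 | hw1⟩ | ⟨hc, w, hw, hw1 | hw1⟩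
  · exact Core.count ⟨hp, hg2, (e1 _ _).mp hI.1, fun J hJ => hI.2 J ((e1 _ _).mpr hJ), hc,
      w, hw, hw1.1, hw1.2⟩ e1 h2 hne
  · exact Core.count ⟨hp, hg2, (e2 _ _).mp hI.1, fun J hJ => hI.2 J ((e2 _ _).mpr hJ), hc,
      w, hw, fun i hi => neg_lt_neg (hw1.1 i hi), neg_lt_neg hw1.2⟩ e2 h2 hne
  · exact Core.count ⟨hp, hg1, (e3 _ _).mp hI.1, fun J hJ => hI.2 J ((e3 _ _).mpr hJ), hc,
      w, hw, hw1.1, hw1.2⟩ e3 h2 hne
  · exact Core.count ⟨hp, hg1, (e4 _ _).mp hI.1, fun J hJ => hI.2 J ((e4 _ _).mpr hJ), hc,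
      w, hw, fun i hi => neg_lt_neg (hw1.1 i hi), neg_lt_neg hw1.2⟩ e4 h2 hne

end Pool.Agent.Helper79.Defl
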