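import Pool.Agent.Helper79.Defl.Common
import Pool.Agent.Helper79.Defl.D23514d

namespace Pool.Agent.Helper79.Defl.D23514d

theorem th_ok : thOK th = true := by decide +kernel

theorem stat_ok : statAll th true capsN [] (pN pi23514) th.rules stat = true := by
  decide +kernel

theorem cert_ok : chk th 1000 ⟨1, 1, 1, []⟩ cert (fun c => Nat.beq c 0) = true := by
  decide +kernel

end Pool.Agent.Helper79.Defl.D23514d
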