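import Pool.Agent.Helper79.Defl.Common
import Pool.Agent.Helper79.Defl.D24513b

namespace Pool.Agent.Helper79.Defl.D24513b

theorem th_ok : thOK th = true := by decide +kernel

theorem stat_ok : statAll th false caps24513 [x24513] (pN pi24513) th.rules stat = true := by
  decide +kernel

theorem cert_ok : chk th 1000 ⟨1, 1, 1, [x24513]⟩ cert (fun c => Nat.beq c 0) = true := by
  decide +kernel

end Pool.Agent.Helper79.Defl.D24513b
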