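import Pool.Agent.Helper79.Defl.K23514b
import Pool.Agent.Helper79.Defl.K23514d
import Pool.Agent.Helper79.Defl.K24513b
import Pool.Agent.Helper79.Defl.K24513d
import Pool.Agent.Helper79.Defl.K24153
import Pool.Agent.Helper79.Defl.K25314

/-! The local insertion lemma for the four patterns. -/

namespace Pool.Agent.Helper79.Defl

theorem base_nil (W : Finset Pt) (e : Pt) : BaseOK W e [] := fun f hf => absurd hf (by simp)

theorem not_e {τ I : Finset Pt} {e : Pt} {w : Pt} (hw : w ∈ insert e (τ \ I)) (h : w ≠ e) :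
    w ∈ τ ∧ w ∉ I := by
  rcases Finset.mem_insert.mp hw with h' | hw
  · exact absurd h' h
  · exact Finset.mem_sdiff.mp hw

theorem base23514 {τ I : Finset Pt} (hg : Gen τ) (ha : ¬ Occ pi23514 τ) (hI : Intv τ I) {e : Pt}
    (he : e ∈ I) {i1 i2 : Pt} (h1 : i1 ∈ I) (h2 : i2 ∈ I) (hx : i1.1 < i2.1) (hy : i1.2 < i2.2) :
    BaseOK (insert e (τ \ I)) e [x23514] := by
  intro f hf ρ n h0 hn
  rw [List.mem_singleton] at hf
  subst hf
  constructor
  · intro a ha'
    simp only [x23514, List.mem_cons, List.not_mem_nil, or_false] at ha'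
    rcases ha' with rfl | rfl | rfl | rfl | rfl | rfl <;> simp <;> omega
  · intro g hgW hall
    have a1 : e.1 < (g 0).1 := by
      have := hall ⟨false, 0, 100, true⟩ (by simp [x23514])
      simpa [AT, co, val, h0] using this
    have a2 : (g 0).1 < (g 1).1 := by
      have := hall ⟨false, 100, 101, true⟩ (by simp [x23514])
      simpa [AT, co, val, h0] using this
    have a3 : (g 1).1 < (g 2).1 := by
      have := hall ⟨false, 101, 102, true⟩ (by simp [x23514])
      simpa [AT, co, val, h0] using this
    have a4 : (g 1).2 < e.2 := by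
      have := hall ⟨true, 101, 0, true⟩ (by simp [x23514])
      simpa [AT, co, val, h0] using this
    have a5 : e.2 < (g 2).2 := by
      have := hall ⟨true, 0, 102, true⟩ (by simp [x23514])
      simpa [AT, co, val, h0] using this
    have a6 : (g 2).2 < (g 0).2 := by
      have := hall ⟨true, 102, 100, true⟩ (by simp [x23514])
      simpa [AT, co, val, h0] using this
    obtain ⟨m0, n0⟩ := not_e (hgW 0) (fun h => by rw [h] at a1; exact lt_irrefl _ a1)
    obtain ⟨m1, n1⟩ := not_e (hgW 1) (fun h => by rw [h] at a4; exact lt_irrefl _ a4)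
    obtain ⟨m2, n2⟩ := not_e (hgW 2) (fun h => by rw [h] at a5; exact lt_irrefl _ a5)
    have b1 : i2.1 < (g 0).1 := side_X hg hI 0 he h2 m0 n0 a1
    have b2 : (g 1).2 < i1.2 := side_Y' hg hI 0 he h1 m1 n1 a4
    have b3 : i2.2 < (g 2).2 := side_Y hg hI 0 he h2 m2 n2 a5
    apply ha
    refine ⟨![i1, i2, g 0, g 1, g 2], ?_, ?_, ?_⟩
    · intro i
      fin_cases i
      · exact hI.1 h1
      · exact hI.1 h2
      · exact m0
      · exact m1
      · exact m2
    · intro i j hij
      fin_cases i <;> fin_cases j <;> simp at hij ⊢ <;> linarith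
    · intro i j hij
      fin_cases i <;> fin_cases j <;> simp [pi23514] at hij ⊢ <;> linarith

theorem base24513 {τ I : Finset Pt} (hg : Gen τ) (ha : ¬ Occ pi24513 τ) (hI : Intv τ I) {e : Pt}
    (he : e ∈ I) {i1 i2 : Pt} (h1 : i1 ∈ I) (h2 : i2 ∈ I) (hx : i1.1 < i2.1) (hy : i1.2 < i2.2) :
    BaseOK (insert e (τ \ I)) e [x24513] := by
  intro f hf ρ n h0 hn
  rw [List.mem_singleton] at hf
  subst hf
  constructor
  · intro a ha'
    simp only [x24513, List.mem_cons, List.not_mem_nil, or_false] at ha'
    rcases ha' with rfl | rfl | rfl | rfl | rfl | rfl <;> simp <;> omega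
  · intro g hgW hall
    have a1 : (g 0).1 < e.1 := by
      have := hall ⟨false, 100, 0, true⟩ (by simp [x24513])
      simpa [AT, co, val, h0] using this
    have a2 : e.1 < (g 1).1 := by
      have := hall ⟨false, 0, 101, true⟩ (by simp [x24513])
      simpa [AT, co, val, h0] using this
    have a3 : (g 1).1 < (g 2).1 := by
      have := hall ⟨false, 101, 102, true⟩ (by simp [x24513])
      simpa [AT, co, val, h0] using this
    have a4 : (g 1).2 < (g 0).2 := by
      have := hall ⟨true, 101, 100, true⟩ (by simp [x24513])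
      simpa [AT, co, val, h0] using this
    have a5 : (g 0).2 < (g 2).2 := by
      have := hall ⟨true, 100, 102, true⟩ (by simp [x24513])
      simpa [AT, co, val, h0] using this
    have a6 : (g 2).2 < e.2 := by
      have := hall ⟨true, 102, 0, true⟩ (by simp [x24513])
      simpa [AT, co, val, h0] using this
    obtain ⟨m0, n0⟩ := not_e (hgW 0) (fun h => by rw [h] at a1; exact lt_irrefl _ a1)
    obtain ⟨m1, n1⟩ := not_e (hgW 1) (fun h => by rw [h] at a2; exact lt_irrefl _ a2)
    obtain ⟨m2, n2⟩ := not_e (hgW 2) (fun h => by rw [h] at a6; exact lt_irrefl _ a6)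
    have b1 : (g 0).1 < i1.1 := side_X' hg hI 0 he h1 m0 n0 a1
    have b2 : i2.1 < (g 1).1 := side_X hg hI 0 he h2 m1 n1 a2
    have b3 : (g 2).2 < i1.2 := side_Y' hg hI 0 he h1 m2 n2 a6
    apply ha
    refine ⟨![g 0, i1, i2, g 1, g 2], ?_, ?_, ?_⟩
    · intro i
      fin_cases i
      · exact m0
      · exact hI.1 h1
      · exact hI.1 h2
      · exact m1
      · exact m2
    · intro i j hij
      fin_cases i <;> fin_cases j <;> simp at hij ⊢ <;> linarith
    · intro i j hij
      fin_cases i <;> fin_cases j <;> simp [pi24513] at hij ⊢ <;> linarith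

theorem inj25314 : Function.Injective pi25314 := by
  intro i j h; fin_cases i <;> fin_cases j <;> simp_all [pi25314]
theorem inj24153 : Function.Injective pi24153 := by
  intro i j h; fin_cases i <;> fin_cases j <;> simp_all [pi24153]
theorem inj23514 : Function.Injective pi23514 := by
  intro i j h; fin_cases i <;> fin_cases j <;> simp_all [pi23514]
theorem inj24513 : Function.Injective pi24513 := by
  intro i j h; fin_cases i <;> fin_cases j <;> simp_all [pi24513]

theorem ord25314 : OrdOK pi25314 D25314.th.ord := by unfold OrdOK; decide +kernel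
theorem ord24153 : OrdOK pi24153 D24153.th.ord := by unfold OrdOK; decide +kernel
theorem ord23514b : OrdOK pi23514 D23514b.th.ord := by unfold OrdOK; decide +kernel
theorem ord23514d : OrdOK pi23514 D23514d.th.ord := by unfold OrdOK; decide +kernel
theorem ord24513b : OrdOK pi24513 D24513b.th.ord := by unfold OrdOK; decide +kernel
theorem ord24513d : OrdOK pi24513 D24513d.th.ord := by unfold OrdOK; decide +kernel

theorem local_of_false {π : Fin 5 → ℕ}
    (h : ∀ τ I : Finset Pt, Gen τ → ¬ Occ π τ → Intv τ I → 2 ≤ I.card → I ≠ τ →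
      (∀ p, p ∉ τ → Gen (insert p τ) → Breaks τ I p → Occ π (insert p τ)) → False) : Local π := by
  intro τ I hg ha hI h2 hne
  by_contra hcon
  refine h τ I hg ha hI h2 hne fun p hp hgp hb => ?_
  by_contra ho
  exact hcon ⟨p, hp, hgp, ho, hb⟩

theorem local25314 : Local pi25314 := by
  refine local_of_false fun τ I hg ha hI h2 hne H => ?_
  obtain ⟨e, he⟩ := Finset.card_pos.mp (show 0 < I.card by omega)
  exact closes inj25314 hg ha hI h2 hne H he false (fun h => absurd h (by simp)) caps25314
    (fun F => by unfold caps25314; split <;> rfl) D25314.th ord25314 D25314.th_ok []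
    (base_nil _ _) D25314.stat D25314.stat_ok D25314.cert D25314.cert_ok

theorem local24153 : Local pi24153 := by
  refine local_of_false fun τ I hg ha hI h2 hne H => ?_
  obtain ⟨e, he⟩ := Finset.card_pos.mp (show 0 < I.card by omega)
  exact closes inj24153 hg ha hI h2 hne H he false (fun h => absurd h (by simp)) caps24153
    (fun F => by unfold caps24153; split <;> rfl) D24153.th ord24153 D24153.th_ok []
    (base_nil _ _) D24153.stat D24153.stat_ok D24153.cert D24153.cert_ok

theorem dec_of_not {τ I : Finset Pt} (hg : Gen τ) (hI : Intv τ I)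
    (h : ¬ ∃ i1 ∈ I, ∃ i2 ∈ I, i1.1 < i2.1 ∧ i1.2 < i2.2) :
    ∀ a ∈ I, ∀ b ∈ I, a.1 < b.1 → b.2 < a.2 := by
  intro a ha b hb hab
  by_contra hcon
  push Not at hcon
  rcases lt_or_eq_of_le hcon with h1 | h1
  · exact h ⟨a, ha, b, hb, hab, h1⟩
  · have := hg.2 a (hI.1 ha) b (hI.1 hb) h1
    rw [this] at hab
    exact absurd hab (lt_irrefl _)

theorem local23514 : Local pi23514 := by
  refine local_of_false fun τ I hg ha hI h2 hne H => ?_
  obtain ⟨e, he⟩ := Finset.card_pos.mp (show 0 < I.card by omega)
  by_cases hinc : ∃ i1 ∈ I, ∃ i2 ∈ I, i1.1 < i2.1 ∧ i1.2 < i2.2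
  · obtain ⟨i1, h3, i2, h4, h5, h6⟩ := hinc
    exact closes inj23514 hg ha hI h2 hne H he false (fun h => absurd h (by simp)) caps23514
      (fun F => by unfold caps23514; split <;> rfl) D23514b.th ord23514b D23514b.th_ok [x23514]
      (base23514 hg ha hI he h3 h4 h5 h6) D23514b.stat D23514b.stat_ok D23514b.cert
      D23514b.cert_ok
  · exact closes inj23514 hg ha hI h2 hne H he true (fun _ => dec_of_not hg hI hinc) capsN
      (fun F => rfl) D23514d.th ord23514d D23514d.th_ok []
      (base_nil _ _) D23514d.stat D23514d.stat_ok D23514d.cert D23514d.cert_ok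

theorem local24513 : Local pi24513 := by
  refine local_of_false fun τ I hg ha hI h2 hne H => ?_
  obtain ⟨e, he⟩ := Finset.card_pos.mp (show 0 < I.card by omega)
  by_cases hinc : ∃ i1 ∈ I, ∃ i2 ∈ I, i1.1 < i2.1 ∧ i1.2 < i2.2
  · obtain ⟨i1, h3, i2, h4, h5, h6⟩ := hinc
    exact closes inj24513 hg ha hI h2 hne H he false (fun h => absurd h (by simp)) caps24513
      (fun F => by unfold caps24513; split <;> rfl) D24513b.th ord24513b D24513b.th_ok [x24513]
      (base24513 hg ha hI he h3 h4 h5 h6) D24513b.stat D24513b.stat_ok D24513b.cert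
      D24513b.cert_ok
  · exact closes inj24513 hg ha hI h2 hne H he true (fun _ => dec_of_not hg hI hinc) capsN
      (fun F => rfl) D24513d.th ord24513d D24513d.th_ok []
      (base_nil _ _) D24513d.stat D24513d.stat_ok D24513d.cert D24513d.cert_ok

theorem nm25314 : NM pi25314 := by unfold NM; decide +kernel
theorem nm24153 : NM pi24153 := by unfold NM; decide +kernel
theorem nm23514 : NM pi23514 := by unfold NM; decide +kernel
theorem nm24513 : NM pi24513 := by unfold NM; decide +kernel

end Pool.Agent.Helper79.Defl
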