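import Pool.Agent.Helper79.Defl.Bits

/-! Semantics of the relation matrices. -/

namespace Pool.Agent.Helper79.Defl

/-- coordinate -/
def co (ax : Bool) (p : Pt) : ℚ := match ax with | false => p.1 | true => p.2

/-- truth of an atom -/
def AT (v : ℕ → Pt) (a : Atom) : Prop :=
  match a.st with
  | true => co a.ax (v a.i) < co a.ax (v a.j)
  | false => co a.ax (v a.i) ≤ co a.ax (v a.j)

/-- the matrix `M` for the coordinate `ax` is correct -/
structure MOK (ax : Bool) (ρ : ℕ → Pt) (n M : ℕ) : Prop where
  le : ∀ a b, b < 64 → M.testBit (128 * a + b) = true → a < n ∧ b < n ∧ co ax (ρ a) ≤ co ax (ρ b)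
  lt : ∀ a b, b < 64 → M.testBit (128 * a + 64 + b) = true →
    a < n ∧ b < n ∧ co ax (ρ a) < co ax (ρ b)

theorem MOK.congr {ax : Bool} {ρ ρ' : ℕ → Pt} {n M : ℕ} (h : MOK ax ρ n M)
    (hρ : ∀ i < n, ρ' i = ρ i) : MOK ax ρ' n M := by
  constructor
  · intro a b hb hM
    obtain ⟨h1, h2, h3⟩ := h.le a b hb hM
    exact ⟨h1, h2, by rw [hρ a h1, hρ b h2]; exact h3⟩
  · intro a b hb hM
    obtain ⟨h1, h2, h3⟩ := h.lt a b hb hM
    exact ⟨h1, h2, by rw [hρ a h1, hρ b h2]; exact h3⟩

theorem MOK.newPt {ax : Bool} {ρ : ℕ → Pt} {n M : ℕ} (h : MOK ax ρ n M) (hn : n < 64) :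
    MOK ax ρ (n + 1) (Defl.newPt n M) := by
  have key : ∀ k, (Defl.newPt n M).testBit k = true → M.testBit k = true ∨ k = 129 * n := by
    intro k hk
    have h1 : Defl.newPt n M = M ||| (1 <<< (129 * n)) := rfl
    rw [h1, Nat.testBit_or] at hk
    rcases (Bool.or_eq_true _ _).mp hk with h2 | h2
    · exact Or.inl h2
    · right
      rw [Nat.one_shiftLeft, Nat.testBit_two_pow] at h2
      exact (of_decide_eq_true h2).symm
  constructor
  · intro a b hb hM
    rcases key _ hM with h1 | h1
    · obtain ⟨h2, h3, h4⟩ := h.le a b hb h1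
      exact ⟨by omega, by omega, h4⟩
    · have h5 : a = n := by omega
      have h6 : b = n := by omega
      subst h5; subst h6
      exact ⟨by omega, by omega, le_refl _⟩
  · intro a b hb hM
    rcases key _ hM with h1 | h1
    · obtain ⟨h2, h3, h4⟩ := h.lt a b hb h1
      exact ⟨by omega, by omega, h4⟩
    · exfalso
      have h5 : a = n := by omega
      omega

theorem MOK.newPts {ax : Bool} {ρ : ℕ → Pt} : ∀ {m n M : ℕ} (_ : MOK ax ρ n M) (_ : n + m ≤ 64),
    MOK ax ρ (n + m) (newPts m n M) := by
  intro m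
  induction m with
  | zero => intro n M h _; simpa [Defl.newPts] using h
  | succ m ih =>
    intro n M h hn
    have h1 := h.newPt (by omega : n < 64)
    have h2 := ih h1 (by omega)
    have h3 : n + 1 + m = n + (m + 1) := by omega
    rw [h3] at h2
    exact h2

theorem testBit_low (r b : ℕ) : (Nat.mod r 18446744073709551616).testBit b =
    (decide (b < 64) && r.testBit b) := by
  have : Nat.mod r 18446744073709551616 = r % 2 ^ 64 := rfl
  rw [this, Nat.testBit_mod_two_pow]

theorem testBit_rj (M j b : ℕ) :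
    (Nat.mod (Nat.shiftRight M (Nat.mul 128 j)) 340282366920938463463374607431768211456).testBit b =
    (decide (b < 128) && M.testBit (128 * j + b)) := by
  have : Nat.mod (Nat.shiftRight M (Nat.mul 128 j)) 340282366920938463463374607431768211456 =
    (M >>> (128 * j)) % 2 ^ 128 := rfl
  rw [this, Nat.testBit_mod_two_pow, Nat.testBit_shiftRight]

theorem testBit_col (M i m : ℕ) : (Nat.land (Nat.shiftRight M i) colC).testBit m =
    (M.testBit (i + m) && colC.testBit m) := by
  have : Nat.land (Nat.shiftRight M i) colC = (M >>> i) &&& colC := rfl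
  rw [this, Nat.testBit_and, Nat.testBit_shiftRight]

/-- product of a column and a row -/
theorem testBit_col_mul (M i r : ℕ) (hr : r < 2 ^ 128) (a b : ℕ) (hb : b < 128)
    (h : (Nat.mul (Nat.land (Nat.shiftRight M i) colC) r).testBit (128 * a + b) = true) :
    M.testBit (i + 128 * a) = true ∧ r.testBit b = true := by
  have h1 : Nat.mul (Nat.land (Nat.shiftRight M i) colC) r =
    (Nat.land (Nat.shiftRight M i) colC) * r := rfl
  rw [h1, testBit_mul_col r hr _ ?_ a b hb, testBit_col] at h
  · simp only [Bool.and_eq_true] at h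
    exact ⟨h.1.1, h.2⟩
  · intro m hm
    rw [testBit_col] at hm
    exact colC_bits m ((Bool.and_eq_true _ _).mp hm).2

theorem MOK.addE {ax : Bool} {ρ : ℕ → Pt} {n M : ℕ} (h : MOK ax ρ n M) (hn : n ≤ 64) {i j : ℕ}
    (hi : i < n) (hj : j < n) (st : Bool)
    (hr : match st with
      | true => co ax (ρ i) < co ax (ρ j)
      | false => co ax (ρ i) ≤ co ax (ρ j)) : MOK ax ρ n (addE M i j st) := by
  set rj := Nat.mod (Nat.shiftRight M (Nat.mul 128 j)) 340282366920938463463374607431768211456
    with hrj
  set low := Nat.mod rj 18446744073709551616 with hlow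
  have hlowb : ∀ b, low.testBit b = true → b < 64 ∧ M.testBit (128 * j + b) = true := by
    intro b hb
    rw [hlow, testBit_low] at hb
    simp only [Bool.and_eq_true, decide_eq_true_eq] at hb
    obtain ⟨h1, h2⟩ := hb
    rw [hrj, testBit_rj] at h2
    simp only [Bool.and_eq_true, decide_eq_true_eq] at h2
    exact ⟨h1, h2.2⟩
  have hlow64 : low < 2 ^ 64 := Nat.mod_lt _ (by norm_num)
  have hrj128 : rj < 2 ^ 128 := Nat.mod_lt _ (by norm_num)
  -- bits of `low * (2^64 + 1)`
  have hboth : ∀ b, (Nat.mul low 18446744073709551617).testBit b = true →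
      (b < 64 ∧ M.testBit (128 * j + b) = true) ∨
      (64 ≤ b ∧ b < 128 ∧ M.testBit (128 * j + (b - 64)) = true) := by
    intro b hb
    have h1 : Nat.mul low 18446744073709551617 = 2 ^ 64 * low + low := by
      have : Nat.mul low 18446744073709551617 = low * 18446744073709551617 := rfl
      rw [this]; ring
    rw [h1, Nat.testBit_two_pow_mul_add _ hlow64] at hb
    split at hb
    · exact Or.inl (hlowb b hb)
    · obtain ⟨h2, h3⟩ := hlowb _ hb
      exact Or.inr ⟨by omega, by omega, h3⟩
  have hboth128 : Nat.mul low 18446744073709551617 < 2 ^ 128 := by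
    have : Nat.mul low 18446744073709551617 = low * 18446744073709551617 := rfl
    rw [this]
    have h3 : low ≤ 2 ^ 64 - 1 := by omega
    calc low * 18446744073709551617 ≤ (2 ^ 64 - 1) * 18446744073709551617 :=
          Nat.mul_le_mul_right _ h3
      _ < 2 ^ 128 := by norm_num
  have hsh : ∀ b, (Nat.mul low 18446744073709551616).testBit b = true →
      (64 ≤ b ∧ b < 128 ∧ M.testBit (128 * j + (b - 64)) = true) := by
    intro b hb
    have h1 : Nat.mul low 18446744073709551616 = 2 ^ 64 * low := by
      have : Nat.mul low 18446744073709551616 = low * 18446744073709551616 := rfl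
      rw [this]; ring
    rw [h1, Nat.testBit_two_pow_mul] at hb
    simp only [Bool.and_eq_true, decide_eq_true_eq] at hb
    obtain ⟨h2, h3⟩ := hlowb _ hb.2
    exact ⟨hb.1, by omega, h3⟩
  have hsh128 : Nat.mul low 18446744073709551616 < 2 ^ 128 := by
    have : Nat.mul low 18446744073709551616 = low * 18446744073709551616 := rfl
    rw [this]
    have h3 : low ≤ 2 ^ 64 - 1 := by omega
    calc low * 18446744073709551616 ≤ (2 ^ 64 - 1) * 18446744073709551616 :=
          Nat.mul_le_mul_right _ h3
      _ < 2 ^ 128 := by norm_num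
  cases st with
  | true =>
    have hE : Defl.addE M i j true = M ||| (Nat.mul (Nat.land (Nat.shiftRight M i) colC)
      (Nat.mul low 18446744073709551617)) := rfl
    have hr' : co ax (ρ i) < co ax (ρ j) := hr
    have key : ∀ a b, b < 128 → (Defl.addE M i j true).testBit (128 * a + b) = true →
        M.testBit (128 * a + b) = true ∨ (M.testBit (128 * a + i) = true ∧
          ((b < 64 ∧ M.testBit (128 * j + b) = true) ∨
            (64 ≤ b ∧ b < 128 ∧ M.testBit (128 * j + (b - 64)) = true))) := by
      intro a b hb hM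
      rw [hE, Nat.testBit_or] at hM
      rcases (Bool.or_eq_true _ _).mp hM with h1 | h1
      · exact Or.inl h1
      · right
        obtain ⟨h2, h3⟩ := testBit_col_mul M i _ hboth128 a b hb h1
        exact ⟨by rwa [Nat.add_comm], hboth b h3⟩
    constructor
    · intro a b hb hM
      rcases key a b (by omega) hM with h1 | ⟨h1, h2⟩
      · exact h.le a b hb h1
      · rcases h2 with ⟨h3, h4⟩ | ⟨h3, _⟩
        · obtain ⟨e1, e2, e3⟩ := h.le a i (by omega) h1
          obtain ⟨f1, f2, f3⟩ := h.le j b (by omega) h4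
          exact ⟨e1, f2, le_trans e3 (le_trans hr'.le f3)⟩
        · omega
    · intro a b hb hM
      have hM' : (Defl.addE M i j true).testBit (128 * a + (64 + b)) = true := by
        rw [← Nat.add_assoc]; exact hM
      rcases key a (64 + b) (by omega) hM' with h1 | ⟨h1, h2⟩
      · exact h.lt a b hb (by rw [Nat.add_assoc]; exact h1)
      · rcases h2 with ⟨h3, _⟩ | ⟨h3, _, h4⟩
        · omega
        · rw [show 64 + b - 64 = b by omega] at h4
          obtain ⟨e1, e2, e3⟩ := h.le a i (by omega) h1
          obtain ⟨f1, f2, f3⟩ := h.le j b (by omega) h4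
          exact ⟨e1, f2, lt_of_le_of_lt e3 (lt_of_lt_of_le hr' f3)⟩
  | false =>
    have hE : Defl.addE M i j false = (M ||| (Nat.mul (Nat.land (Nat.shiftRight M i) colC) rj)) |||
      (Nat.mul (Nat.land (Nat.shiftRight M (Nat.add i 64)) colC) (Nat.mul low 18446744073709551616)) := rfl
    have hr' : co ax (ρ i) ≤ co ax (ρ j) := hr
    have key : ∀ a b, b < 128 → (Defl.addE M i j false).testBit (128 * a + b) = true →
        M.testBit (128 * a + b) = true ∨
        (M.testBit (128 * a + i) = true ∧ M.testBit (128 * j + b) = true) ∨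
        (M.testBit (128 * a + 64 + i) = true ∧ 64 ≤ b ∧
          M.testBit (128 * j + (b - 64)) = true) := by
      intro a b hb hM
      rw [hE, Nat.testBit_or, Nat.testBit_or] at hM
      rcases (Bool.or_eq_true _ _).mp hM with h1 | h1
      · rcases (Bool.or_eq_true _ _).mp h1 with h1 | h1
        · exact Or.inl h1
        · right; left
          obtain ⟨h2, h3⟩ := testBit_col_mul M i _ hrj128 a b hb h1
          rw [hrj, testBit_rj] at h3
          simp only [Bool.and_eq_true, decide_eq_true_eq] at h3
          exact ⟨by rwa [Nat.add_comm], h3.2⟩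
      · right; right
        obtain ⟨h2, h3⟩ := testBit_col_mul M _ _ hsh128 a b hb h1
        obtain ⟨h4, h5, h6⟩ := hsh b h3
        refine ⟨?_, h4, h6⟩
        have : Nat.add i 64 + 128 * a = 128 * a + 64 + i := by
          change i + 64 + 128 * a = _; omega
        rwa [this] at h2
    constructor
    · intro a b hb hM
      rcases key a b (by omega) hM with h1 | ⟨h1, h2⟩ | ⟨h1, h2, h3⟩
      · exact h.le a b hb h1
      · obtain ⟨e1, e2, e3⟩ := h.le a i (by omega) h1
        obtain ⟨f1, f2, f3⟩ := h.le j b (by omega) h2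
        exact ⟨e1, f2, le_trans e3 (le_trans hr' f3)⟩
      · omega
    · intro a b hb hM
      have hM' : (Defl.addE M i j false).testBit (128 * a + (64 + b)) = true := by
        rw [← Nat.add_assoc]; exact hM
      rcases key a (64 + b) (by omega) hM' with h1 | ⟨h1, h2⟩ | ⟨h1, h2, h3⟩
      · exact h.lt a b hb (by rw [Nat.add_assoc]; exact h1)
      · obtain ⟨e1, e2, e3⟩ := h.le a i (by omega) h1
        obtain ⟨f1, f2, f3⟩ := h.lt j b (by omega) (by rw [Nat.add_assoc]; exact h2)
        exact ⟨e1, f2, lt_of_le_of_lt e3 (lt_of_le_of_lt hr' f3)⟩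
      · rw [show 64 + b - 64 = b by omega] at h3
        obtain ⟨e1, e2, e3⟩ := h.lt a i (by omega) h1
        obtain ⟨f1, f2, f3⟩ := h.le j b (by omega) h3
        exact ⟨e1, f2, lt_of_lt_of_le e3 (le_trans hr' f3)⟩

theorem hasA_spec {ρ : ℕ → Pt} {n mx my : ℕ} (hx : MOK false ρ n mx) (hy : MOK true ρ n my)
    {ax : Bool} {i j : ℕ} {st : Bool} (h : hasA mx my ax i j st = true) :
    i < n ∧ j < n ∧ AT ρ ⟨ax, i, j, st⟩ := by
  unfold hasA at h
  split at h
  · rename_i hj
    have hj' : j ≤ 63 := Nat.le_of_ble_eq_true hj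
    rw [tb_eq] at h
    cases ax <;> cases st
    · have h1 : mx.testBit (128 * i + j) = true := h
      exact hx.le i j (by omega) h1
    · have h1 : mx.testBit (128 * i + (64 + j)) = true := h
      exact hx.lt i j (by omega) (by rw [Nat.add_assoc]; exact h1)
    · have h1 : my.testBit (128 * i + j) = true := h
      exact hy.le i j (by omega) h1
    · have h1 : my.testBit (128 * i + (64 + j)) = true := h
      exact hy.lt i j (by omega) (by rw [Nat.add_assoc]; exact h1)
  · exact absurd h (by simp)

theorem addL_spec {ρ : ℕ → Pt} {n : ℕ} (hn : n ≤ 64) (f : ℕ → ℕ) (k : ℕ → ℕ → St) :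
    ∀ (l : List Atom) (mx my : ℕ), MOK false ρ n mx → MOK true ρ n my →
    (∀ a ∈ l, f a.i < n ∧ f a.j < n ∧ AT (fun t => ρ (f t)) a) →
    ∃ mx' my', addL f l mx my k = k mx' my' ∧ MOK false ρ n mx' ∧ MOK true ρ n my' := by
  intro l
  induction l with
  | nil => intro mx my hx hy _; exact ⟨mx, my, rfl, hx, hy⟩
  | cons a l ih =>
    intro mx my hx hy hl
    obtain ⟨h1, h2, h3⟩ := hl a (by simp)
    have hl' : ∀ a ∈ l, f a.i < n ∧ f a.j < n ∧ AT (fun t => ρ (f t)) a :=
      fun b hb => hl b (by simp [hb])
    obtain ⟨ax, i, j, st⟩ := a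
    cases ax with
    | false =>
      have hx' : MOK false ρ n (addE mx (f i) (f j) st) := hx.addE hn h1 h2 st (by
        cases st <;> exact h3)
      obtain ⟨mx', my', e1, e2, e3⟩ := ih _ my hx' hy hl'
      refine ⟨mx', my', ?_, e2, e3⟩
      simp only [addL, forceN_eq]
      exact e1
    | true =>
      have hy' : MOK true ρ n (addE my (f i) (f j) st) := hy.addE hn h1 h2 st (by
        cases st <;> exact h3)
      obtain ⟨mx', my', e1, e2, e3⟩ := ih mx _ hx hy' hl'
      refine ⟨mx', my', ?_, e2, e3⟩
      simp only [addL, forceN_eq]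
      exact e1

end Pool.Agent.Helper79.Defl
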