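import Mathlib
import Pool.Agent.Helper79.Defl.SI
import Pool.Agent.Defl7.Red

/-! The reduction: the local lemma gives simple avoiding supersets. -/

namespace Pool.Agent.Helper79.Defl

theorem red_nm (π : Fin 5 → ℕ) (hL : Local π) :
    ∀ (n : ℕ) (τ : Finset Pt), (Defl7.Fam τ).card ≤ n → Gen τ → ¬ Occ π τ → Defl7.NM τ →
      ∃ τ', τ ⊆ τ' ∧ Gen τ' ∧ ¬ Occ π τ' ∧ Simple τ' := by
  intro n
  induction n with
  | zero =>
    intro τ hn hg ha hnm
    by_cases hs : Simple τ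
    · exact ⟨τ, subset_rfl, hg, ha, hs⟩
    · obtain ⟨K, hK, hKc, hKS⟩ := Defl7.exists_strong (gp_of_gen hg) hnm
        (fun h => hs (simple_iff.1 h))
      have : 0 < (Defl7.Fam τ).card := Finset.card_pos.mpr ⟨K, Defl7.mem_Fam.2 ⟨hK.1, hKc⟩⟩
      omega
  | succ n ih =>
    intro τ hn hg ha hnm
    by_cases hs : Simple τ
    · exact ⟨τ, subset_rfl, hg, ha, hs⟩
    · obtain ⟨K, hK, hKc, hKS⟩ := Defl7.exists_strong (gp_of_gen hg) hnm
        (fun h => hs (simple_iff.1 h))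
      obtain ⟨p, hp, hg', ha', hb⟩ := hL τ K hg ha (itv_iff.1 hK.1) hKc hKS
      have hlt : (Defl7.Fam (insert p τ)).card < (Defl7.Fam τ).card := by
        rcases hb with h | h
        · have hf := Defl7.facts_row (gp_of_gen hg') hp hK h
          exact Defl7.drop_count hp hK hKc hf.1 hf.2
        · have hf := Defl7.facts_col (gp_of_gen hg') hp hK h
          exact Defl7.drop_count hp hK hKc hf.1 hf.2
      obtain ⟨T, hST, hT1, hT2, hT3⟩ := ih (insert p τ) (by omega) hg' ha'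
        (hnm.mono (Finset.subset_insert _ _))
      exact ⟨T, (Finset.subset_insert _ _).trans hST, hT1, hT2, hT3⟩

theorem occ_insert {π : Fin 5 → ℕ} {τ : Finset Pt} {c : Pt} (ha : ¬ Occ π τ)
    (h : Occ π (insert c τ)) :
    ∃ f : Fin 5 → Pt, ∃ r, f r = c ∧ (∀ i, i ≠ r → f i ∈ τ) ∧
      (∀ i j, i < j → (f i).1 < (f j).1) ∧ (∀ i j, π i < π j → (f i).2 < (f j).2) := by
  obtain ⟨f, h1, h2, h3⟩ := h
  by_cases hall : ∀ i, f i ∈ τ
  · exact absurd ⟨f, hall, h2, h3⟩ ha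
  · push Not at hall
    obtain ⟨r, hr⟩ := hall
    have hrc : f r = c := (Finset.mem_insert.mp (h1 r)).resolve_right hr
    refine ⟨f, r, hrc, fun i hi => ?_, h2, h3⟩
    rcases Finset.mem_insert.mp (h1 i) with h5 | h5
    · exfalso
      rcases lt_or_gt_of_ne hi with h6 | h6
      · have := h2 i r h6
        rw [h5, hrc] at this
        exact lt_irrefl _ this
      · have := h2 r i h6
        rw [h5, hrc] at this
        exact lt_irrefl _ this
    · exact h5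

theorem red (π : Fin 5 → ℕ) (hNM : NM π) (hL : Local π) (τ : Finset Pt) (hg : Gen τ)
    (ha : ¬ Occ π τ) : ∃ τ', τ ⊆ τ' ∧ Gen τ' ∧ ¬ Occ π τ' ∧ Simple τ' := by
  classical
  by_cases hnm : Defl7.NM τ
  · exact red_nm π hL _ τ le_rfl hg ha hnm
  by_cases hc : τ.card ≤ 1
  · exact ⟨τ, subset_rfl, hg, ha, fun J hJ => Or.inl ((Finset.card_le_card hJ.1).trans hc)⟩
  have hS : Defl7.GP τ := gp_of_gen hg
  obtain ⟨M, hM⟩ : ∃ M : ℚ, ∀ p ∈ τ, p.1 < M ∧ p.2 < M ∧ -M < p.2 := by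
    refine ⟨∑ p ∈ τ, (|p.1| + |p.2|) + 1, fun p hp => ?_⟩
    have h1 : |p.1| + |p.2| ≤ ∑ p ∈ τ, (|p.1| + |p.2|) :=
      Finset.single_le_sum (f := fun p : Pt => |p.1| + |p.2|)
        (fun q _ => add_nonneg (abs_nonneg _) (abs_nonneg _)) hp
    have h2 := le_abs_self p.1
    have h3 := le_abs_self p.2
    have h4 := neg_abs_le p.2
    have h5 := abs_nonneg p.1
    have h6 := abs_nonneg p.2
    exact ⟨by linarith, by linarith, by linarith⟩
  obtain ⟨p, hp, q, hq, hpq⟩ := Finset.one_lt_card.mp (not_le.mp hc)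
  obtain ⟨p, hp, q, hq, hpq1⟩ : ∃ p ∈ τ, ∃ q ∈ τ, p.1 < q.1 := by
    rcases lt_or_gt_of_ne (hS p hp q hq hpq).1 with h | h
    · exact ⟨p, hp, q, hq, h⟩
    · exact ⟨q, hq, p, hp, h⟩
  have hpq : p ≠ q := fun e => lt_irrefl _ (e ▸ hpq1)
  rcases lt_or_gt_of_ne (hS p hp q hq hpq).2 with hpq2 | hpq2
  · -- no descent in `τ`
    have hno : ¬ ∃ u ∈ τ, ∃ v ∈ τ, u.1 < v.1 ∧ v.2 < u.2 := fun h =>
      hnm ⟨⟨p, hp, q, hq, hpq1, hpq2⟩, h⟩
    set c : Pt := (M, -M) with hcdef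
    have hcS : c ∉ τ := fun h => lt_irrefl _ (hM c h).1
    have hT : Defl7.GP (insert c τ) := by
      intro a ha b hb hab
      rw [Finset.mem_insert] at ha hb
      rcases ha with rfl | ha <;> rcases hb with rfl | hb
      · exact absurd rfl hab
      · exact ⟨(hM b hb).1.ne', (hM b hb).2.2.ne⟩
      · exact ⟨(hM a ha).1.ne, (hM a ha).2.2.ne'⟩
      · exact hS a ha b hb hab
    have hav' : ¬ Occ π (insert c τ) := by
      intro h
      obtain ⟨f, r, hrc, hf, h2, h3⟩ := occ_insert ha h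
      obtain ⟨_, i, j, hi, hj, hij, hπ⟩ := hNM r
      exact hno ⟨f i, hf i hi, f j, hf j hj, h2 i j hij, h3 j i hπ⟩
    have hnm' : Defl7.NM (insert c τ) :=
      ⟨⟨p, Finset.mem_insert_of_mem hp, q, Finset.mem_insert_of_mem hq, hpq1, hpq2⟩,
        ⟨p, Finset.mem_insert_of_mem hp, c, Finset.mem_insert_self _ _, (hM p hp).1,
          (hM p hp).2.2⟩⟩
    obtain ⟨T, hST, hT1, hT2, hT3⟩ := red_nm π hL _ _ le_rfl (gen_of_gp hT) hav' hnm'
    exact ⟨T, (Finset.subset_insert _ _).trans hST, hT1, hT2, hT3⟩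
  · -- no ascent in `τ`
    have hno : ¬ ∃ u ∈ τ, ∃ v ∈ τ, u.1 < v.1 ∧ u.2 < v.2 := fun h =>
      hnm ⟨h, ⟨p, hp, q, hq, hpq1, hpq2⟩⟩
    set c : Pt := (M, M) with hcdef
    have hcS : c ∉ τ := fun h => lt_irrefl _ (hM c h).1
    have hT : Defl7.GP (insert c τ) := by
      intro a ha b hb hab
      rw [Finset.mem_insert] at ha hb
      rcases ha with rfl | ha <;> rcases hb with rfl | hb
      · exact absurd rfl hab
      · exact ⟨(hM b hb).1.ne', (hM b hb).2.1.ne'⟩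
      · exact ⟨(hM a ha).1.ne, (hM a ha).2.1.ne⟩
      · exact hS a ha b hb hab
    have hav' : ¬ Occ π (insert c τ) := by
      intro h
      obtain ⟨f, r, hrc, hf, h2, h3⟩ := occ_insert ha h
      obtain ⟨⟨i, j, hi, hj, hij, hπ⟩, _⟩ := hNM r
      exact hno ⟨f i, hf i hi, f j, hf j hj, h2 i j hij, h3 i j hπ⟩
    have hnm' : Defl7.NM (insert c τ) :=
      ⟨⟨p, Finset.mem_insert_of_mem hp, c, Finset.mem_insert_self _ _, (hM p hp).1,
          (hM p hp).2.1⟩, ⟨p, Finset.mem_insert_of_mem hp, q, Finset.mem_insert_of_mem hq, hpq1,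
          hpq2⟩⟩
    obtain ⟨T, hST, hT1, hT2, hT3⟩ := red_nm π hL _ _ le_rfl (gen_of_gp hT) hav' hnm'
    exact ⟨T, (Finset.subset_insert _ _).trans hST, hT1, hT2, hT3⟩

end Pool.Agent.Helper79.Defl
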