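import Pool.Agent.Helper79.Defl.Mat

/-! Soundness of the certificate checker. -/

namespace Pool.Agent.Helper79.Defl

/-- valuation of the terms of a fact -/
def val (ρ g : ℕ → Pt) (t : ℕ) : Pt := if 100 ≤ t then g (t - 100) else ρ t

/-- valuation of the terms of a template: `0` is the centre, `99` the cell point -/
def tval (e d : Pt) (g : ℕ → Pt) (t : ℕ) : Pt :=
  if 100 ≤ t then g (t - 100) else if t = 99 then d else e

/-- the fact `f` holds -/
def FOK (W : Finset Pt) (ρ : ℕ → Pt) (n : ℕ) (f : List Atom) : Prop :=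
  (∀ a ∈ f, (a.i < n ∨ 100 ≤ a.i) ∧ (a.j < n ∨ 100 ≤ a.j)) ∧
  ∀ g : ℕ → Pt, (∀ k, g k ∈ W) → ¬ ∀ a ∈ f, AT (val ρ g) a

structure Sat (W : Finset Pt) (e : Pt) (ρ : ℕ → Pt) (s : St) : Prop where
  h0 : ρ 0 = e
  n0 : 0 < s.n
  n64 : s.n ≤ 64
  hW : ∀ i < s.n, ρ i ∈ W
  hx : MOK false ρ s.n s.mx
  hy : MOK true ρ s.n s.my
  hf : ∀ f ∈ s.facts, FOK W ρ s.n f

def Unsat (W : Finset Pt) (e : Pt) (s : St) : Prop := ∀ ρ, ¬ Sat W e ρ s

/-- forward coordinate of a frame -/
def XF (F : ℕ) (p : Pt) : ℚ := match F with | 0 => p.1 | 1 => - p.1 | 2 => p.2 | _ => - p.2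

/-- transverse coordinate of a frame -/
def YF (F : ℕ) (p : Pt) : ℚ := match F with | 0 => p.2 | 1 => p.2 | 2 => p.1 | _ => p.1

theorem AT_atX (v : ℕ → Pt) (F i j : ℕ) : AT v (atX F i j true) ↔ XF F (v i) < XF F (v j) := by
  unfold atX XF
  split <;> simp [AT, co]

theorem AT_atX' (v : ℕ → Pt) (F i j : ℕ) : AT v (atX F i j false) ↔ XF F (v i) ≤ XF F (v j) := by
  unfold atX XF
  split <;> simp [AT, co]

theorem AT_atY (v : ℕ → Pt) (F i j : ℕ) : AT v (atY F i j true) ↔ YF F (v i) < YF F (v j) := by
  unfold atY YF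
  split <;> simp [AT, co]

/-- premise of the blocking rule -/
def Pre9 (W : Finset Pt) (e : Pt) (kind F : ℕ) (d w : Pt) : Prop :=
  match kind with
  | 0 => w ∈ W ∧ XF F e < XF F w ∧ XF F w < XF F d
  | 1 => XF F e < XF F d
  | _ => w ∈ W ∧ XF F e < XF F w

/-- some kept template is realised -/
def Valid4 (W : Finset Pt) (e : Pt) (R : RuleT) : Prop :=
  ∀ d ∈ W, ∀ w, Pre9 W e R.kind R.F d w →
    ∃ t ∈ R.kept, ∃ g : ℕ → Pt, (∀ k, g k ∈ W) ∧ ∀ a ∈ t.ats, AT (tval e d g) a

/-- terms of a template are `0`, `99` or new points -/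
def termOK (nv t : ℕ) : Bool := t == 0 || t == 99 || (decide (100 ≤ t) && decide (t < 100 + nv))

def tplOK (t : Tpl) : Bool :=
  decide (t.nv ≤ 4) && (t.li == 0 || (decide (100 ≤ t.li) && decide (t.li < 100 + t.nv))) &&
    t.ats.all fun a => termOK t.nv a.i && termOK t.nv a.j

def thOK (T : Th) : Bool :=
  (T.rules.all fun R => R.kept.all tplOK) && (T.exts.all fun R => R.kept.all tplOK) &&
    T.ord.all fun i => decide (i < 5)

structure World (T : Th) (W : Finset Pt) (e : Pt) : Prop where
  he : e ∈ W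
  gx : ∀ p ∈ W, ∀ q ∈ W, p.1 = q.1 → p = q
  gy : ∀ p ∈ W, ∀ q ∈ W, p.2 = q.2 → p = q
  pat : ∀ v : ℕ → Pt, (∀ k, v k ∈ W) →
    List.IsChain (fun a b => (v a).1 < (v b).1) [0, 1, 2, 3, 4] →
    List.IsChain (fun a b => (v a).2 < (v b).2) T.ord → False
  ne : ∃ w ∈ W, w ≠ e
  hT : thOK T = true
  rules : ∀ R ∈ T.rules, Valid4 W e R

theorem rdL_spec (F : List ℕ → ℕ → Option (List St × ℕ)) :
    ∀ (m c : ℕ) (acc : List ℕ), ∃ l c', l.length = acc.length + m ∧ rdL m c acc F = F l c' := by
  intro m
  induction m with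
  | zero => intro c acc; exact ⟨acc.reverse, c, by simp, rfl⟩
  | succ m ih =>
    intro c acc
    obtain ⟨l, c', h1, h2⟩ := ih (Nat.div c 128) (Nat.mod c 128 :: acc)
    refine ⟨l, c', by rw [h1]; simp; omega, ?_⟩
    rw [rdL, forceN_eq, forceN_eq]
    exact h2

theorem rdL_elim {F : List ℕ → ℕ → Option (List St × ℕ)} {m c : ℕ} {acc : List ℕ}
    {r : List St × ℕ} (h : rdL m c acc F = some r) :
    ∃ l c', l.length = acc.length + m ∧ F l c' = some r := by
  obtain ⟨l, c', h1, h2⟩ := rdL_spec F m c acc
  exact ⟨l, c', h1, by rw [← h2]; exact h⟩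

variable {T : Th} {W : Finset Pt} {e : Pt}

theorem FOK.mono {ρ ρ' : ℕ → Pt} {n n' : ℕ} {f : List Atom} (h : FOK W ρ n f)
    (hρ : ∀ i < n, ρ' i = ρ i) (hn : n ≤ n') : FOK W ρ' n' f := by
  constructor
  · intro a ha
    obtain ⟨h1, h2⟩ := h.1 a ha
    exact ⟨by omega, by omega⟩
  · intro g hg hall
    apply h.2 g hg
    intro a ha
    obtain ⟨h1, h2⟩ := h.1 a ha
    have e1 : val ρ g a.i = val ρ' g a.i := by
      unfold val
      split
      · rfl
      · rw [hρ]; omega
    have e2 : val ρ g a.j = val ρ' g a.j := by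
      unfold val
      split
      · rfl
      · rw [hρ]; omega
    have h3 := hall a ha
    unfold AT at h3 ⊢
    rw [e1, e2]
    exact h3

theorem chainOK_spec {ρ : ℕ → Pt} {n mx my : ℕ} (hx : MOK false ρ n mx) (hy : MOK true ρ n my)
    (ax : Bool) : ∀ l : List ℕ, chainOK mx my ax l = true →
    List.IsChain (fun a b => a < n ∧ b < n ∧ co ax (ρ a) < co ax (ρ b)) l := by
  intro l
  induction l with
  | nil => intro _; exact List.isChain_nil
  | cons a l ih =>
    intro h
    cases l with
    | nil => exact List.isChain_singleton _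
    | cons b l =>
      rw [chainOK] at h
      split at h
      · rename_i h1
        have h2 := hasA_spec hx hy h1
        exact List.isChain_cons_cons.mpr ⟨⟨h2.1, h2.2.1, h2.2.2⟩, ih h⟩
      · exact absurd h (by simp)

theorem resV_spec {ρ : ℕ → Pt} {n : ℕ} (v : List ℕ) (dflt : Pt) (t : ℕ) (ht : resV v t < n) :
    ρ (resV v t) = val ρ (fun k => if v.getD k 63 < n then ρ (v.getD k 63) else dflt) t := by
  unfold resV at *
  unfold val
  split at ht
  · rename_i h6
    have h5 : 100 ≤ t := Nat.le_of_ble_eq_true h6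
    have ht' : v.getD (t - 100) 63 < n := ht
    rw [if_pos h5]
    show _ = if v.getD (t - 100) 63 < n then ρ (v.getD (t - 100) 63) else dflt
    rw [if_pos ht']
    rfl
  · rename_i h6
    have h5 : ¬ 100 ≤ t := by
      intro h5
      rw [Nat.ble_eq_true_of_le h5] at h6
      exact absurd h6 (by simp)
    rw [if_neg h5]

theorem instOK_spec {ρ : ℕ → Pt} {n mx my : ℕ} (hx : MOK false ρ n mx) (hy : MOK true ρ n my)
    (v : List ℕ) (dflt : Pt) : ∀ l : List Atom, instOK mx my v l = true →
    ∀ a ∈ l, AT (val ρ (fun k => if v.getD k 63 < n then ρ (v.getD k 63) else dflt)) a := by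
  intro l
  induction l with
  | nil => intro _ a ha; exact absurd ha (by simp)
  | cons b l ih =>
    intro h a ha
    rw [instOK] at h
    split at h
    · rename_i h1
      rcases List.mem_cons.mp ha with rfl | ha
      · obtain ⟨h2, h3, h4⟩ := hasA_spec hx hy h1
        unfold AT at h4 ⊢
        simp only at h4
        rw [resV_spec (ρ := ρ) v dflt a.i h2, resV_spec (ρ := ρ) v dflt a.j h3] at h4
        exact h4
      · exact ih h a ha
    · exact absurd h (by simp)

/-- a state with the same points and one more known atom -/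
theorem Sat.addAtoms {ρ : ℕ → Pt} {s : St} (h : Sat W e ρ s) (l : List Atom)
    (hl : ∀ a ∈ l, a.i < s.n ∧ a.j < s.n ∧ AT ρ a) :
    Sat W e ρ (addL id l s.mx s.my (fun mx my => ⟨s.n, mx, my, s.facts⟩)) := by
  obtain ⟨mx', my', e1, e2, e3⟩ := addL_spec (ρ := ρ) h.n64 id
    (fun mx my => (⟨s.n, mx, my, s.facts⟩ : St)) l s.mx s.my h.hx h.hy (by simpa using hl)
  rw [e1]
  exact ⟨h.h0, h.n0, h.n64, h.hW, e2, e3, h.hf⟩

/-- the extended valuation -/
def ext (ρ g : ℕ → Pt) (n : ℕ) (i : ℕ) : Pt := if i < n then ρ i else g (i - n)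

theorem ext_lt {ρ g : ℕ → Pt} {n i : ℕ} (h : i < n) : ext ρ g n i = ρ i := if_pos h

theorem ext_ge {ρ g : ℕ → Pt} {n i : ℕ} (h : n ≤ i) : ext ρ g n i = g (i - n) :=
  if_neg (by omega)

/-- a state with new points -/
theorem Sat.addNew {ρ : ℕ → Pt} {s : St} (h : Sat W e ρ s) (m : ℕ) (hm : s.n + m ≤ 64)
    (g : ℕ → Pt) (hg : ∀ k, g k ∈ W) (f : ℕ → ℕ) (l : List Atom)
    (hl : ∀ a ∈ l, f a.i < s.n + m ∧ f a.j < s.n + m ∧ AT (fun t => ext ρ g s.n (f t)) a)
    (facts : List (List Atom)) (hfa : ∀ x ∈ facts, FOK W (ext ρ g s.n) (s.n + m) x) :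
    Sat W e (ext ρ g s.n) (addL f l (newPts m s.n s.mx) (newPts m s.n s.my)
      (fun mx my => ⟨s.n + m, mx, my, facts⟩)) := by
  have hx : MOK false (ext ρ g s.n) (s.n + m) (newPts m s.n s.mx) :=
    (h.hx.congr (fun i hi => ext_lt hi)).newPts hm
  have hy : MOK true (ext ρ g s.n) (s.n + m) (newPts m s.n s.my) :=
    (h.hy.congr (fun i hi => ext_lt hi)).newPts hm
  obtain ⟨mx', my', e1, e2, e3⟩ := addL_spec hm f
    (fun mx my => (⟨s.n + m, mx, my, facts⟩ : St)) l _ _ hx hy hl
  rw [e1]
  refine ⟨by rw [ext_lt h.n0]; exact h.h0, Nat.lt_of_lt_of_le h.n0 (Nat.le_add_right _ _), hm, ?_, e2, e3, hfa⟩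
  intro i _
  unfold ext
  split
  · rename_i h1; exact h.hW i h1
  · exact hg _

theorem op0_sound {s : St} {c : ℕ} {cs : List St} {c' : ℕ} (h : op0 s c = some (cs, c')) :
    Unsat W e s := by
  intro ρ hs
  unfold op0 at h
  obtain ⟨l, c1, -, h⟩ := rdL_elim h
  split at h
  · split at h
    · rename_i h2
      have h3 := (hasA_spec hs.hx hs.hy h2).2.2
      exact lt_irrefl _ h3
    · exact absurd h (by simp)
  · exact absurd h (by simp)

theorem op1_sound (hT : World T W e) {s : St} {c : ℕ} {cs : List St} {c' : ℕ}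
    (h : op1 T s c = some (cs, c')) : Unsat W e s := by
  intro ρ hs
  unfold op1 at h
  obtain ⟨l, c1, hlen, h⟩ := rdL_elim h
  split at h
  · rename_i h2
    split at h
    · rename_i h3
      have hx := chainOK_spec hs.hx hs.hy false l h2
      have hy := chainOK_spec hs.hx hs.hy true _ h3
      have hl5 : l.length = 5 := by simpa using hlen
      obtain ⟨a, b, c2, d, f, rfl⟩ : ∃ a b c d f, l = [a, b, c, d, f] := by
        match l, hl5 with
        | [a, b, c, d, f], _ => exact ⟨a, b, c, d, f, rfl⟩
      have hx' := hx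
      simp only [List.isChain_cons_cons, List.isChain_singleton, and_true] at hx
      have hlt : ∀ k < 5, [a, b, c2, d, f].getD k 63 < s.n := by
        intro k hk
        interval_cases k <;> simp [List.getD] <;> tauto
      refine hT.pat (fun k => if k < 5 then ρ ([a, b, c2, d, f].getD k 63) else e) ?_ ?_ ?_
      · intro k
        split
        · rename_i h5; exact hs.hW _ (hlt k h5)
        · exact hT.he
      · simp only [List.isChain_cons_cons, List.isChain_singleton, and_true]
        simp [List.getD, co] at hx ⊢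
        tauto
      · rw [List.isChain_map] at hy
        have hord : ∀ i ∈ T.ord, i < 5 := by
          have := hT.hT
          unfold thOK at this
          simp only [Bool.and_eq_true, List.all_eq_true, decide_eq_true_eq] at this
          exact this.2
        have hgen : ∀ o : List ℕ, (∀ i ∈ o, i < 5) →
            List.IsChain (fun i j => [a, b, c2, d, f].getD i 63 < s.n ∧ [a, b, c2, d, f].getD j 63 < s.n ∧
              co true (ρ ([a, b, c2, d, f].getD i 63)) < co true (ρ ([a, b, c2, d, f].getD j 63))) o →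
            List.IsChain (fun i j => (if i < 5 then ρ ([a, b, c2, d, f].getD i 63) else e).2 <
              (if j < 5 then ρ ([a, b, c2, d, f].getD j 63) else e).2) o := by
          intro o
          induction o with
          | nil => intro _ _; exact List.isChain_nil
          | cons x o ih =>
            intro ho hc
            cases o with
            | nil => exact List.isChain_singleton _
            | cons y o =>
              rw [List.isChain_cons_cons] at hc ⊢
              refine ⟨?_, ih (fun i hi => ho i (by simp [hi])) hc.2⟩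
              rw [if_pos (ho x (by simp)), if_pos (ho y (by simp))]
              exact hc.1.2.2
        exact hgen T.ord hord hy
    · exact absurd h (by simp)
  · exact absurd h (by simp)

theorem op2_sound (hT : World T W e) {s : St} {c : ℕ} {cs : List St} {c' : ℕ}
    (h : op2 s c = some (cs, c')) : Unsat W e s := by
  intro ρ hs
  unfold op2 at h
  obtain ⟨l, c1, -, h⟩ := rdL_elim h
  split at h
  · rename_i fi nv
    obtain ⟨v, c2, -, h⟩ := rdL_elim h
    split at h
    · rename_i ats hfi
      split at h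
      · rename_i h3
        have hmem : ats ∈ s.facts := List.mem_of_getElem? hfi
        refine (hs.hf ats hmem).2 _ ?_ (instOK_spec hs.hx hs.hy v e ats h3)
        intro k
        split
        · rename_i h5; exact hs.hW _ h5
        · exact hT.he
      · exact absurd h (by simp)
    · exact absurd h (by simp)
  · exact absurd h (by simp)

theorem allLt_spec {n : ℕ} : ∀ {l : List ℕ}, allLt n l = true → ∀ a ∈ l, a < n := by
  intro l
  induction l with
  | nil => intro _ a ha; exact absurd ha (by simp)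
  | cons b l ih =>
    intro h a ha
    rw [allLt] at h
    split at h
    · rename_i h1
      rcases List.mem_cons.mp ha with rfl | ha
      · exact Nat.le_of_ble_eq_true h1
      · exact ih h a ha
    · exact absurd h (by simp)

theorem op3_sound {s : St} {c : ℕ} {cs : List St} {c' : ℕ}
    (h : op3 s c = some (cs, c')) (hcs : ∀ s' ∈ cs, Unsat W e s') : Unsat W e s := by
  intro ρ hs
  unfold op3 at h
  obtain ⟨l, c1, -, h⟩ := rdL_elim h
  split at h
  · rename_i ax i j
    split at h
    · rename_i h2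
      have hi := allLt_spec h2 i (by simp)
      have hj := allLt_spec h2 j (by simp)
      simp only [Option.some.injEq, Prod.mk.injEq] at h
      obtain ⟨rfl, _⟩ := h
      rcases lt_or_ge (co (Nat.beq ax 1) (ρ i)) (co (Nat.beq ax 1) (ρ j)) with h3 | h3
      · exact hcs _ (by simp) ρ (hs.addAtoms [⟨Nat.beq ax 1, i, j, true⟩] (by
          intro a ha
          rw [List.mem_singleton] at ha
          subst ha
          exact ⟨hi, hj, h3⟩))
      · exact hcs _ (by simp) ρ (hs.addAtoms [⟨Nat.beq ax 1, j, i, false⟩] (by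
          intro a ha
          rw [List.mem_singleton] at ha
          subst ha
          exact ⟨hj, hi, h3⟩))
    · exact absurd h (by simp)
  · exact absurd h (by simp)

theorem co_inj (hT : World T W e) (ax : Bool) {p q : Pt} (hp : p ∈ W) (hq : q ∈ W)
    (h : co ax p = co ax q) : p = q := by
  cases ax
  · exact hT.gx p hp q hq h
  · exact hT.gy p hp q hq h

theorem op4_sound (hT : World T W e) {s : St} {c : ℕ} {cs : List St} {c' : ℕ}
    (h : op4 s c = some (cs, c')) (hcs : ∀ s' ∈ cs, Unsat W e s') : Unsat W e s := by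
  intro ρ hs
  unfold op4 at h
  obtain ⟨l, c1, -, h⟩ := rdL_elim h
  split at h
  · rename_i ax i j
    split at h
    · rename_i h2
      split at h
      · rename_i h3
        simp only [Option.some.injEq, Prod.mk.injEq] at h
        obtain ⟨rfl, _⟩ := h
        obtain ⟨hi, hj, h4⟩ := hasA_spec hs.hx hs.hy h2
        have h4' : co (Nat.beq ax 1) (ρ i) ≤ co (Nat.beq ax 1) (ρ j) := h4
        have hne : co (Nat.beq ax 1) (ρ i) ≠ co (Nat.beq ax 1) (ρ j) := by
          intro heq
          have h5 : ρ i = ρ j := co_inj hT _ (hs.hW i hi) (hs.hW j hj) heq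
          rcases (Bool.or_eq_true _ _).mp h3 with h6 | h6
          · have h7 := (hasA_spec hs.hx hs.hy h6).2.2
            have h8 : co (!(Nat.beq ax 1)) (ρ i) < co (!(Nat.beq ax 1)) (ρ j) := h7
            rw [h5] at h8
            exact lt_irrefl _ h8
          · have h7 := (hasA_spec hs.hx hs.hy h6).2.2
            have h8 : co (!(Nat.beq ax 1)) (ρ j) < co (!(Nat.beq ax 1)) (ρ i) := h7
            rw [h5] at h8
            exact lt_irrefl _ h8
        exact hcs _ (by simp) ρ (hs.addAtoms [⟨Nat.beq ax 1, i, j, true⟩] (by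
          intro a ha
          rw [List.mem_singleton] at ha
          subst ha
          exact ⟨hi, hj, lt_of_le_of_ne h4' hne⟩))
      · exact absurd h (by simp)
    · exact absurd h (by simp)
  · exact absurd h (by simp)

theorem op5_sound (hT : World T W e) {s : St} {c : ℕ} {cs : List St} {c' : ℕ}
    (h : op5 s c = some (cs, c')) (hcs : ∀ s' ∈ cs, Unsat W e s') : Unsat W e s := by
  intro ρ hs
  unfold op5 at h
  obtain ⟨l, c1, -, h⟩ := rdL_elim h
  split at h
  · rename_i ax i j
    split at h
    · rename_i h2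
      split at h
      · rename_i h3
        simp only [Option.some.injEq, Prod.mk.injEq] at h
        obtain ⟨rfl, _⟩ := h
        obtain ⟨hi, hj, h4⟩ := hasA_spec hs.hx hs.hy h2
        have h4' : co (Nat.beq ax 1) (ρ i) ≤ co (Nat.beq ax 1) (ρ j) := h4
        have h5' : co (Nat.beq ax 1) (ρ j) ≤ co (Nat.beq ax 1) (ρ i) :=
          (hasA_spec hs.hx hs.hy h3).2.2
        have h5 : ρ i = ρ j := co_inj hT _ (hs.hW i hi) (hs.hW j hj) (le_antisymm h4' h5')
        exact hcs _ (by simp) ρ (hs.addAtoms [⟨!(Nat.beq ax 1), i, j, false⟩, ⟨!(Nat.beq ax 1), j, i, false⟩] (by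
          intro a ha
          rcases List.mem_cons.mp ha with rfl | ha
          · refine ⟨hi, hj, ?_⟩
            simp only [AT, h5, le_refl]
          · rw [List.mem_singleton] at ha
            subst ha
            refine ⟨hj, hi, ?_⟩
            simp only [AT, h5, le_refl]))
      · exact absurd h (by simp)
    · exact absurd h (by simp)
  · exact absurd h (by simp)

end Pool.Agent.Helper79.Defl
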