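import Pool.Agent.Helper79.Defl.Sound

/-! Soundness of the rules that introduce new points. -/

namespace Pool.Agent.Helper79.Defl

variable {T : Th} {W : Finset Pt} {e : Pt}

theorem le60 {n : ℕ} (h : Nat.ble n 60 = true) : n ≤ 60 := Nat.le_of_ble_eq_true h

theorem facts_mono {ρ g : ℕ → Pt} {s : St} (h : Sat W e ρ s) (m : ℕ) :
    ∀ x ∈ s.facts, FOK W (ext ρ g s.n) (s.n + m) x :=
  fun x hx => (h.hf x hx).mono (fun _ hi => ext_lt hi) (Nat.le_add_right _ _)

theorem Sat.consFact {ρ : ℕ → Pt} {s : St} (h : Sat W e ρ s) {f : List Atom}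
    (hf : FOK W ρ s.n f) : Sat W e ρ ⟨s.n, s.mx, s.my, f :: s.facts⟩ :=
  ⟨h.h0, h.n0, h.n64, h.hW, h.hx, h.hy, fun x hx => by
    rcases List.mem_cons.mp hx with rfl | hx
    · exact hf
    · exact h.hf x hx⟩

theorem op6_sound (hT : World T W e) {s : St} {c : ℕ} {cs : List St} {c' : ℕ}
    (h : op6 s c = some (cs, c')) (hcs : ∀ s' ∈ cs, Unsat W e s') : Unsat W e s := by
  intro ρ hs
  unfold op6 at h
  obtain ⟨l, c1, -, h⟩ := rdL_elim h
  split at h
  · rename_i ax
    split at h
    · rename_i h2
      have hn := le60 h2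
      simp only [Option.some.injEq, Prod.mk.injEq] at h
      obtain ⟨rfl, _⟩ := h
      obtain ⟨w, hw, hwe⟩ := hT.ne
      have hne : co (Nat.beq ax 1) w ≠ co (Nat.beq ax 1) e := fun h3 =>
        hwe (co_inj hT _ hw hT.he h3)
      have e0 : ext ρ (fun _ => w) s.n 0 = e := by rw [ext_lt hs.n0]; exact hs.h0
      have e1 : ext ρ (fun _ => w) s.n s.n = w := ext_ge (le_refl _)
      have h0n : 0 < s.n + 1 := by omega
      rcases lt_or_gt_of_ne hne with h3 | h3
      · refine hcs _ (by simp) _ (hs.addNew 1 (by omega) (fun _ => w) (fun _ => hw) id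
          [⟨Nat.beq ax 1, s.n, 0, true⟩] ?_ s.facts (facts_mono hs 1))
        intro a ha
        rw [List.mem_singleton] at ha
        subst ha
        refine ⟨Nat.lt_succ_self _, h0n, ?_⟩
        simp only [AT, id, e0, e1]
        exact h3
      · refine hcs _ (by simp) _ (hs.addNew 1 (by omega) (fun _ => w) (fun _ => hw) id
          [⟨Nat.beq ax 1, 0, s.n, true⟩] ?_ s.facts (facts_mono hs 1))
        intro a ha
        rw [List.mem_singleton] at ha
        subst ha
        refine ⟨h0n, Nat.lt_succ_self _, ?_⟩
        simp only [AT, id, e0, e1]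
        exact h3
    · exact absurd h (by simp)
  · exact absurd h (by simp)

theorem atX_idx (F i j : ℕ) (st : Bool) :
    ((atX F i j st).i = i ∧ (atX F i j st).j = j) ∨ ((atX F i j st).i = j ∧ (atX F i j st).j = i) := by
  unfold atX
  split <;> simp

theorem atY_idx (F i j : ℕ) (st : Bool) : (atY F i j st).i = i ∧ (atY F i j st).j = j := by
  unfold atY
  split <;> simp

theorem sideA_idx (F q v : ℕ) : ∀ a ∈ sideA F q v, (a.i = v ∧ a.j = 0) ∨ (a.i = 0 ∧ a.j = v) := by
  unfold sideA
  intro a ha
  split at ha
  · rw [List.mem_singleton] at ha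
    subst ha
    left; exact atY_idx F v 0 true
  · rw [List.mem_singleton] at ha
    subst ha
    right; exact atY_idx F 0 v true
  · exact absurd ha (by simp)

/-- semantic side condition -/
def Side (e : Pt) (F q : ℕ) (p : Pt) : Prop :=
  match q with | 0 => YF F p < YF F e | 1 => YF F e < YF F p | _ => True

theorem sideA_spec (v : ℕ → Pt) (F q k : ℕ) (he : v 0 = e) :
    (∀ a ∈ sideA F q k, AT v a) ↔ Side e F q (v k) := by
  unfold sideA Side
  split
  · simp only [List.mem_singleton, forall_eq, AT_atY, he]
  · simp only [List.mem_singleton, forall_eq, AT_atY, he]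
  · simp

theorem val_pt {ρ g : ℕ → Pt} {t : ℕ} (h : t < 100) : val ρ g t = ρ t := if_neg (by omega)

theorem val_var {ρ g : ℕ → Pt} {t : ℕ} (h : 100 ≤ t) : val ρ g t = g (t - 100) := if_pos h

theorem op7_sound (hT : World T W e) {s : St} {c : ℕ} {cs : List St} {c' : ℕ}
    (h : op7 s c = some (cs, c')) (hcs : ∀ s' ∈ cs, Unsat W e s') : Unsat W e s := by
  intro ρ hs
  unfold op7 at h
  obtain ⟨l, c1, -, h⟩ := rdL_elim h
  split at h
  · rename_i F
    split at h
    · rename_i h2
      have hn := le60 h2
      simp only [Option.some.injEq, Prod.mk.injEq] at h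
      obtain ⟨rfl, _⟩ := h
      have h0n : 0 < s.n + 1 := by omega
      by_cases hex : ∃ w ∈ W, XF F e < XF F w
      · obtain ⟨w, hw, h3⟩ := hex
        have e0 : ext ρ (fun _ => w) s.n 0 = e := by rw [ext_lt hs.n0]; exact hs.h0
        have e1 : ext ρ (fun _ => w) s.n s.n = w := ext_ge (le_refl _)
        refine hcs _ (by simp) _ (hs.addNew 1 (by omega) (fun _ => w) (fun _ => hw) id
          [atX F 0 s.n true] ?_ s.facts (facts_mono hs 1))
        intro a ha
        rw [List.mem_singleton] at ha
        subst ha
        refine ⟨?_, ?_, ?_⟩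
        · simp only [id]; rcases atX_idx F 0 s.n true with ⟨h4, _⟩ | ⟨h4, _⟩ <;> omega
        · simp only [id]; rcases atX_idx F 0 s.n true with ⟨_, h4⟩ | ⟨_, h4⟩ <;> omega
        · rw [AT_atX]
          simp only [id, e0, e1]
          exact h3
      · refine hcs _ List.mem_cons_self ρ (hs.consFact ⟨?_, ?_⟩)
        · intro a ha
          rw [List.mem_singleton] at ha
          subst ha
          have := hs.n0
          rcases atX_idx F 0 100 true with ⟨h4, h5⟩ | ⟨h4, h5⟩ <;> omega
        · intro g hg hall
          have h3 := hall _ (List.mem_singleton_self _)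
          rw [AT_atX, val_pt (by norm_num), val_var (by norm_num), hs.h0] at h3
          exact hex ⟨g 0, hg 0, h3⟩
    · exact absurd h (by simp)
  · exact absurd h (by simp)

theorem op8_sound (hT : World T W e) {s : St} {c : ℕ} {cs : List St} {c' : ℕ}
    (h : op8 s c = some (cs, c')) (hcs : ∀ s' ∈ cs, Unsat W e s') : Unsat W e s := by
  classical
  intro ρ hs
  unfold op8 at h
  obtain ⟨l, c1, -, h⟩ := rdL_elim h
  split at h
  · rename_i F d q
    split at h
    · rename_i h2
      have hn := le60 h2
      split at h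
      · rename_i h3
        have hd : d < s.n := Nat.le_of_ble_eq_true h3
        simp only [Option.some.injEq, Prod.mk.injEq] at h
        obtain ⟨rfl, _⟩ := h
        have hn0 := hs.n0
        set S : Finset Pt := W.filter (fun w => XF F e < XF F w ∧ XF F w < XF F (ρ d) ∧ Side e F q w)
          with hS
        have hSm : ∀ w, w ∈ S ↔ w ∈ W ∧ XF F e < XF F w ∧ XF F w < XF F (ρ d) ∧ Side e F q w := by
          intro w; rw [hS, Finset.mem_filter]
        rcases S.eq_empty_or_nonempty with hemp | hne
        · -- no such point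
          refine hcs _ List.mem_cons_self ρ (hs.consFact ⟨?_, ?_⟩)
          · intro a ha
            rcases List.mem_cons.mp ha with rfl | ha
            · rcases atX_idx F 0 100 true with ⟨h4, h5⟩ | ⟨h4, h5⟩ <;> omega
            · rcases List.mem_cons.mp ha with rfl | ha
              · rcases atX_idx F 100 d true with ⟨h4, h5⟩ | ⟨h4, h5⟩ <;> omega
              · rcases sideA_idx F q 100 a ha with ⟨h4, h5⟩ | ⟨h4, h5⟩ <;> omega
          · intro g hg hall
            have h4 := hall _ (List.mem_cons_self)
            have h5 := hall _ (List.mem_cons_of_mem _ List.mem_cons_self)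
            have h6 : ∀ a ∈ sideA F q 100, AT (val ρ g) a := fun a ha =>
              hall a (List.mem_cons_of_mem _ (List.mem_cons_of_mem _ ha))
            rw [sideA_spec (e := e) _ _ _ _ (by rw [val_pt (by norm_num), hs.h0]),
              val_var (by norm_num)] at h6
            rw [AT_atX, val_pt (by norm_num), val_var (by norm_num), hs.h0] at h4
            rw [AT_atX, val_pt (by omega : d < 100), val_var (by norm_num)] at h5
            have : g 0 ∈ S := (hSm _).mpr ⟨hg 0, h4, h5, h6⟩
            rw [hemp] at this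
            exact absurd this (by simp)
        · obtain ⟨w, hwS, hmax⟩ := S.exists_max_image (XF F) hne
          obtain ⟨hw, hw1, hw2, hw3⟩ := (hSm w).mp hwS
          have e0 : ext ρ (fun _ => w) s.n 0 = e := by rw [ext_lt hs.n0]; exact hs.h0
          have e1 : ext ρ (fun _ => w) s.n s.n = w := ext_ge (le_refl _)
          have ed : ext ρ (fun _ => w) s.n d = ρ d := ext_lt hd
          refine hcs _ (by simp) _ (hs.addNew 1 (by omega) (fun _ => w) (fun _ => hw) id
            (atX F 0 s.n true :: atX F s.n d true :: sideA F q s.n) ?_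
            ((atX F s.n 100 true :: atX F 100 d true :: sideA F q 100) :: s.facts) ?_)
          · intro a ha
            rcases List.mem_cons.mp ha with rfl | ha
            · refine ⟨?_, ?_, ?_⟩
              · simp only [id]; rcases atX_idx F 0 s.n true with ⟨h4, _⟩ | ⟨h4, _⟩ <;> omega
              · simp only [id]; rcases atX_idx F 0 s.n true with ⟨_, h4⟩ | ⟨_, h4⟩ <;> omega
              · rw [AT_atX]
                simp only [id, e0, e1]
                exact hw1
            · rcases List.mem_cons.mp ha with rfl | ha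
              · refine ⟨?_, ?_, ?_⟩
                · simp only [id]; rcases atX_idx F s.n d true with ⟨h4, _⟩ | ⟨h4, _⟩ <;> omega
                · simp only [id]; rcases atX_idx F s.n d true with ⟨_, h4⟩ | ⟨_, h4⟩ <;> omega
                · rw [AT_atX]
                  simp only [id, ed, e1]
                  exact hw2
              · refine ⟨?_, ?_, ?_⟩
                · simp only [id]; rcases sideA_idx F q s.n a ha with ⟨h4, _⟩ | ⟨h4, _⟩ <;> omega
                · simp only [id]; rcases sideA_idx F q s.n a ha with ⟨_, h4⟩ | ⟨_, h4⟩ <;> omega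
                · have h5 := (sideA_spec (e := e) (ext ρ (fun _ => w) s.n) F q s.n e0).mpr
                    (by rw [e1]; exact hw3)
                  exact h5 a ha
          · intro x hx
            rcases List.mem_cons.mp hx with rfl | hx
            · constructor
              · intro a ha
                rcases List.mem_cons.mp ha with rfl | ha
                · rcases atX_idx F s.n 100 true with ⟨h4, h5⟩ | ⟨h4, h5⟩ <;> omega
                · rcases List.mem_cons.mp ha with rfl | ha
                  · rcases atX_idx F 100 d true with ⟨h4, h5⟩ | ⟨h4, h5⟩ <;> omega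
                  · rcases sideA_idx F q 100 a ha with ⟨h4, h5⟩ | ⟨h4, h5⟩ <;> omega
              · intro g hg hall
                have h4 := hall _ (List.mem_cons_self)
                have h5 := hall _ (List.mem_cons_of_mem _ List.mem_cons_self)
                have h6 : ∀ a ∈ sideA F q 100, AT (val (ext ρ (fun _ => w) s.n) g) a := fun a ha =>
                  hall a (List.mem_cons_of_mem _ (List.mem_cons_of_mem _ ha))
                rw [sideA_spec (e := e) _ _ _ _ (by rw [val_pt (by norm_num), e0]),
                  val_var (by norm_num)] at h6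
                rw [AT_atX, val_pt (by omega : s.n < 100), val_var (by norm_num), e1] at h4
                rw [AT_atX, val_pt (by omega : d < 100), val_var (by norm_num), ed] at h5
                have : g 0 ∈ S := (hSm _).mpr ⟨hg 0, lt_trans hw1 h4, h5, h6⟩
                exact absurd (hmax _ this) (not_le.mpr h4)
            · exact facts_mono hs 1 x hx
      · exact absurd h (by simp)
    · exact absurd h (by simp)
  · exact absurd h (by simp)

theorem resP_99 {d n t : ℕ} (h : t = 99) : resP d n t = d := by
  subst h; rfl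

theorem resP_ge {d n t : ℕ} (h : 100 ≤ t) : resP d n t = n + (t - 100) := by
  unfold resP
  rw [Nat.ble_eq_true_of_le h]
  rfl

theorem resP_0 {d n : ℕ} : resP d n 0 = 0 := rfl

theorem termOK_cases {nv t : ℕ} (h : termOK nv t = true) :
    t = 0 ∨ t = 99 ∨ (100 ≤ t ∧ t < 100 + nv) := by
  unfold termOK at h
  simp only [Bool.or_eq_true, beq_iff_eq, Bool.and_eq_true, decide_eq_true_eq] at h
  tauto

/-- value of a resolved template term -/
theorem ext_resP {ρ g : ℕ → Pt} {s : St} (hs : Sat W e ρ s) {d nv t : ℕ} (hd : d < s.n)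
    (ht : termOK nv t = true) :
    resP d s.n t < s.n + nv ∧ ext ρ g s.n (resP d s.n t) = tval e (ρ d) g t := by
  have hn0 := hs.n0
  rcases termOK_cases ht with rfl | rfl | ⟨h1, h2⟩
  · refine ⟨by rw [resP_0]; omega, ?_⟩
    rw [resP_0, ext_lt hs.n0, hs.h0]
    unfold tval
    rw [if_neg (by norm_num), if_neg (by norm_num)]
  · refine ⟨by rw [resP_99 rfl]; omega, ?_⟩
    rw [resP_99 rfl, ext_lt hd]
    unfold tval
    rw [if_neg (by norm_num), if_pos rfl]
  · refine ⟨by rw [resP_ge h1]; omega, ?_⟩
    rw [resP_ge h1, ext_ge (by omega)]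
    unfold tval
    rw [if_pos h1]
    congr 1
    omega

theorem Sat.addT {ρ : ℕ → Pt} {s : St} (hs : Sat W e ρ s) {d : ℕ} (hd : d < s.n) {t : Tpl}
    (ht : tplOK t = true) (hn : s.n ≤ 60) {g : ℕ → Pt} (hg : ∀ k, g k ∈ W)
    (hat : ∀ a ∈ t.ats, AT (tval e (ρ d) g) a) (facts : List (List Atom))
    (hfa : ∀ x ∈ facts, FOK W (ext ρ g s.n) (s.n + t.nv) x) :
    Sat W e (ext ρ g s.n) (Defl.addT s d t facts) := by
  unfold tplOK at ht
  simp only [Bool.and_eq_true, decide_eq_true_eq, List.all_eq_true] at ht
  obtain ⟨⟨h4, _⟩, hall⟩ := ht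
  refine hs.addNew t.nv (by omega) g hg (resP d s.n) t.ats ?_ facts hfa
  intro a ha
  obtain ⟨h5, h6⟩ := hall a ha
  obtain ⟨e1, e2⟩ := ext_resP (g := g) hs hd h5
  obtain ⟨e3, e4⟩ := ext_resP (g := g) hs hd h6
  refine ⟨e1, e3, ?_⟩
  have h7 := hat a ha
  unfold AT at h7 ⊢
  simp only [e2, e4]
  exact h7

theorem hasX_spec {ρ : ℕ → Pt} {s : St} (hs : Sat W e ρ s) {F i j : ℕ} (h : hasX s F i j = true) :
    i < s.n ∧ j < s.n ∧ XF F (ρ i) < XF F (ρ j) := by
  unfold hasX at h
  split at h
  · obtain ⟨h1, h2, h3⟩ := hasA_spec hs.hx hs.hy h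
    exact ⟨h1, h2, h3⟩
  · obtain ⟨h1, h2, h3⟩ := hasA_spec hs.hx hs.hy h
    have h4 : (ρ j).1 < (ρ i).1 := h3
    exact ⟨h2, h1, neg_lt_neg h4⟩
  · obtain ⟨h1, h2, h3⟩ := hasA_spec hs.hx hs.hy h
    exact ⟨h1, h2, h3⟩
  · rename_i n0 n1 n2
    obtain ⟨h1, h2, h3⟩ := hasA_spec hs.hx hs.hy h
    have h4 : (ρ j).2 < (ρ i).2 := h3
    refine ⟨h2, h1, ?_⟩
    unfold XF
    split
    · exact (n0 rfl).elim
    · exact (n1 rfl).elim
    · exact (n2 rfl).elim
    · exact neg_lt_neg h4

theorem thOK_rules (h : thOK T = true) {R : RuleT} (hR : R ∈ T.rules) {t : Tpl} (ht : t ∈ R.kept) :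
    tplOK t = true := by
  unfold thOK at h
  simp only [Bool.and_eq_true, List.all_eq_true] at h
  exact h.1.1 R hR t ht

theorem thOK_exts (h : thOK T = true) {R : RuleT} (hR : R ∈ T.exts) {t : Tpl} (ht : t ∈ R.kept) :
    tplOK t = true := by
  unfold thOK at h
  simp only [Bool.and_eq_true, List.all_eq_true] at h
  exact h.1.2 R hR t ht

theorem op9_sound (hT : World T W e) {s : St} {c : ℕ} {cs : List St} {c' : ℕ}
    (h : op9 T s c = some (cs, c')) (hcs : ∀ s' ∈ cs, Unsat W e s') : Unsat W e s := by
  intro ρ hs
  unfold op9 at h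
  obtain ⟨l, c1, -, h⟩ := rdL_elim h
  split at h
  · rename_i ri d w
    split at h
    · rename_i R hR
      have hRm : R ∈ T.rules := List.mem_of_getElem? hR
      split at h
      · rename_i hpre
        split at h
        · rename_i h2
          have hn := le60 h2
          simp only [Option.some.injEq, Prod.mk.injEq] at h
          obtain ⟨rfl, _⟩ := h
          have hpre' : d < s.n ∧ ∃ w', Pre9 W e R.kind R.F (ρ d) w' := by
            unfold pre9 at hpre
            split at hpre
            · rename_i hd
              have hd' : d < s.n := Nat.le_of_ble_eq_true hd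
              refine ⟨hd', ?_⟩
              split at hpre
              · rename_i hk
                obtain ⟨h3, h4⟩ := (Bool.and_eq_true _ _).mp hpre |>.imp id id
                obtain ⟨_, a2, a3⟩ := hasX_spec hs h3
                obtain ⟨_, _, b3⟩ := hasX_spec hs h4
                rw [hs.h0] at a3
                exact ⟨ρ w, by rw [hk]; exact ⟨hs.hW w a2, a3, b3⟩⟩
              · rename_i hk
                obtain ⟨_, a2, a3⟩ := hasX_spec hs hpre
                rw [hs.h0] at a3
                exact ⟨ρ w, by rw [hk]; exact a3⟩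
              · rename_i hk0 hk1
                obtain ⟨_, a2, a3⟩ := hasX_spec hs hpre
                rw [hs.h0] at a3
                refine ⟨ρ w, ?_⟩
                unfold Pre9
                split
                · rename_i hk; exact absurd hk hk0
                · rename_i hk; exact absurd hk hk1
                · exact ⟨hs.hW w a2, a3⟩
            · exact absurd hpre (by simp)
          obtain ⟨hd, w', hw'⟩ := hpre'
          obtain ⟨t, ht, g, hg, hat⟩ := hT.rules R hRm (ρ d) (hs.hW d hd) w' hw'
          exact hcs _ (List.mem_map.mpr ⟨t, ht, rfl⟩) _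
            (hs.addT hd (thOK_rules hT.hT hRm ht) hn hg hat s.facts (facts_mono hs _))
        · exact absurd h (by simp)
      · exact absurd h (by simp)
    · exact absurd h (by simp)
  · exact absurd h (by simp)

end Pool.Agent.Helper79.Defl
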