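import Pool.Agent.Helper79.Defl.Sound2

/-! Soundness of the extremal rule and of the checker. -/

namespace Pool.Agent.Helper79.Defl

variable {T : Th} {W : Finset Pt} {e : Pt}

theorem resF_99 {d t : ℕ} (h : t = 99) : resF d t = d := by subst h; rfl

theorem resF_ne {d t : ℕ} (h : t ≠ 99) : resF d t = t := by
  unfold resF
  split
  · rename_i h1; exact absurd (Nat.eq_of_beq_eq_true h1) h
  · rfl

/-- value of a template term inside a fact -/
theorem val_resF {σ g : ℕ → Pt} {n d nv t : ℕ} (hd : d < n) (h0 : σ 0 = e) (hn : n ≤ 64) (hn0 : 0 < n)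
    (ht : termOK nv t = true) :
    (resF d t < n ∨ 100 ≤ resF d t) ∧ val σ g (resF d t) = tval e (σ d) g t := by
  rcases termOK_cases ht with rfl | rfl | ⟨h1, h2⟩
  · rw [resF_ne (by norm_num)]
    refine ⟨Or.inl hn0, ?_⟩
    rw [val_pt (by norm_num), h0]
    unfold tval
    rw [if_neg (by norm_num), if_neg (by norm_num)]
  · rw [resF_99 rfl]
    refine ⟨Or.inl hd, ?_⟩
    rw [val_pt (by omega)]
    unfold tval
    rw [if_neg (by norm_num), if_pos rfl]
  · rw [resF_ne (by omega)]
    refine ⟨Or.inr h1, ?_⟩
    rw [val_var h1]
    unfold tval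
    rw [if_pos h1]

/-- the instance of a template as a fact -/
theorem tplFact_iff {σ g : ℕ → Pt} {n d : ℕ} (hd : d < n) (h0 : σ 0 = e) (hn : n ≤ 64) (hn0 : 0 < n)
    {t : Tpl} (ht : tplOK t = true) :
    (∀ a ∈ tplFact d t, (a.i < n ∨ 100 ≤ a.i) ∧ (a.j < n ∨ 100 ≤ a.j)) ∧
    ((∀ a ∈ tplFact d t, AT (val σ g) a) → ∀ a ∈ t.ats, AT (tval e (σ d) g) a) := by
  unfold tplOK at ht
  simp only [Bool.and_eq_true, decide_eq_true_eq, List.all_eq_true] at ht
  obtain ⟨_, hall⟩ := ht
  constructor
  · intro a ha
    obtain ⟨b, hb, rfl⟩ := List.mem_map.mp ha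
    obtain ⟨h5, h6⟩ := hall b hb
    exact ⟨(val_resF (g := g) hd h0 hn hn0 h5).1, (val_resF (g := g) hd h0 hn hn0 h6).1⟩
  · intro h b hb
    obtain ⟨h5, h6⟩ := hall b hb
    have h7 := h (mapA (resF d) b) (List.mem_map.mpr ⟨b, hb, rfl⟩)
    have e5 := (val_resF (g := g) hd h0 hn hn0 h5).2
    have e6 := (val_resF (g := g) hd h0 hn hn0 h6).2
    unfold AT at h7 ⊢
    simp only [mapA, e5, e6] at h7
    exact h7

theorem li_ok {t : Tpl} (ht : tplOK t = true) : t.li = 0 ∨ (100 ≤ t.li ∧ t.li < 100 + t.nv) := by
  unfold tplOK at ht
  simp only [Bool.and_eq_true, Bool.or_eq_true, beq_iff_eq, decide_eq_true_eq] at ht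
  tauto

theorem op10_sound (hT : World T W e) {s : St} {c : ℕ} {cs : List St} {c' : ℕ}
    (h : op10 T s c = some (cs, c')) (hcs : ∀ s' ∈ cs, Unsat W e s') : Unsat W e s := by
  classical
  intro ρ hs
  unfold op10 at h
  obtain ⟨l, c1, -, h⟩ := rdL_elim h
  split at h
  · rename_i ri d
    split at h
    · rename_i R hR
      have hRm : R ∈ T.exts := List.mem_of_getElem? hR
      split at h
      · rename_i hdb
        have hd : d < s.n := Nat.le_of_ble_eq_true hdb
        split at h
        · rename_i h2
          have hn := le60 h2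
          have hn0 := hs.n0
          simp only [Option.some.injEq, Prod.mk.injEq] at h
          obtain ⟨rfl, _⟩ := h
          set S : Finset Pt := W.filter (fun p => ∃ t ∈ R.kept, ∃ g : ℕ → Pt, (∀ k, g k ∈ W) ∧
            (∀ a ∈ t.ats, AT (tval e (ρ d) g) a) ∧ tval e (ρ d) g t.li = p) with hS
          have hSm : ∀ p, p ∈ S ↔ p ∈ W ∧ ∃ t ∈ R.kept, ∃ g : ℕ → Pt, (∀ k, g k ∈ W) ∧
            (∀ a ∈ t.ats, AT (tval e (ρ d) g) a) ∧ tval e (ρ d) g t.li = p := by
            intro p; rw [hS, Finset.mem_filter]
          have hSin : ∀ t ∈ R.kept, ∀ g : ℕ → Pt, (∀ k, g k ∈ W) →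
              (∀ a ∈ t.ats, AT (tval e (ρ d) g) a) → tval e (ρ d) g t.li ∈ S := by
            intro t ht g hg hat
            refine (hSm _).mpr ⟨?_, t, ht, g, hg, hat, rfl⟩
            unfold tval
            split
            · exact hg _
            · split
              · exact hs.hW d hd
              · exact hT.he
          rcases S.eq_empty_or_nonempty with hemp | hne
          · refine hcs _ List.mem_cons_self ρ ⟨hs.h0, hs.n0, hs.n64, hs.hW, hs.hx, hs.hy, ?_⟩
            intro f hf
            rcases List.mem_append.mp hf with hf | hf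
            · obtain ⟨t, ht, rfl⟩ := List.mem_map.mp hf
              refine ⟨(tplFact_iff (g := ρ) hd hs.h0 hs.n64 hn0 (thOK_exts hT.hT hRm ht)).1, ?_⟩
              intro g hg hall
              have h5 := (tplFact_iff (g := g) hd hs.h0 hs.n64 hn0 (thOK_exts hT.hT hRm ht)).2 hall
              have h6 := hSin t ht g hg h5
              rw [hemp] at h6
              exact absurd h6 (by simp)
            · exact hs.hf f hf
          · obtain ⟨p, hpS, hmin⟩ := S.exists_min_image (XF R.F) hne
            obtain ⟨hpW, t, ht, g, hg, hat, hp⟩ := (hSm p).mp hpS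
            have htok := thOK_exts hT.hT hRm ht
            have hnv : t.nv ≤ 4 := by
              unfold tplOK at htok
              simp only [Bool.and_eq_true, decide_eq_true_eq] at htok
              exact htok.1.1
            have hlit : termOK t.nv t.li = true := by
              unfold termOK
              rcases li_ok htok with h5 | ⟨h5, h6⟩
              · simp [h5]
              · simp [h5, h6]
            obtain ⟨hz1, hz2⟩ := ext_resP (g := g) hs hd hlit
            rw [hp] at hz2
            refine hcs _ (List.mem_cons_of_mem _ (List.mem_map.mpr ⟨t, ht, rfl⟩)) _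
              (hs.addT hd htok hn hg hat _ ?_)
            intro f hf
            rcases List.mem_append.mp hf with hf | hf
            · obtain ⟨t', ht', rfl⟩ := List.mem_map.mp hf
              have htok' := thOK_exts hT.hT hRm ht'
              have e0 : ext ρ g s.n 0 = e := by rw [ext_lt hn0, hs.h0]
              have ed : ext ρ g s.n d = ρ d := ext_lt hd
              have hli' : termOK t'.nv t'.li = true := by
                unfold termOK
                rcases li_ok htok' with h5 | ⟨h5, h6⟩
                · simp [h5]
                · simp [h5, h6]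
              have hne99 : t'.li ≠ 99 := by
                rcases li_ok htok' with h5 | ⟨h5, h6⟩ <;> omega
              have hd' : d < s.n + t.nv := by omega
              have hn' : s.n + t.nv ≤ 64 := by omega
              have hn0' : 0 < s.n + t.nv := by omega
              have hvli : ∀ g' : ℕ → Pt, (resF d t'.li < s.n + t.nv ∨ 100 ≤ resF d t'.li) ∧
                  val (ext ρ g s.n) g' (resF d t'.li) = tval e (ext ρ g s.n d) g' t'.li :=
                fun g' => val_resF hd' e0 hn' hn0' hli'
              rw [resF_ne hne99] at hvli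
              constructor
              · intro a ha
                rcases List.mem_cons.mp ha with rfl | ha
                · have h7 := (hvli g).1
                  rcases atX_idx R.F t'.li (resP d s.n t.li) true with ⟨h5, h6⟩ | ⟨h5, h6⟩ <;>
                    rw [h5, h6]
                  · exact ⟨h7, Or.inl hz1⟩
                  · exact ⟨Or.inl hz1, h7⟩
                · exact (tplFact_iff (g := g) hd' e0 hn' hn0' htok').1 a ha
              · intro g' hg' hall
                have h5 : ∀ a ∈ tplFact d t', AT (val (ext ρ g s.n) g') a := fun a ha =>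
                  hall a (List.mem_cons_of_mem _ ha)
                have h6 := (tplFact_iff (g := g') hd' e0 hn' hn0' htok').2 h5
                rw [ed] at h6
                have h7 := hSin t' ht' g' hg' h6
                have h8 := hall _ List.mem_cons_self
                rw [AT_atX, (hvli g').2, ed, val_pt (by omega), hz2] at h8
                exact absurd (hmin _ h7) (not_le.mpr h8)
            · exact facts_mono hs _ f hf
        · exact absurd h (by simp)
      · exact absurd h (by simp)
    · exact absurd h (by simp)
  · exact absurd h (by simp)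

theorem step_sound (hT : World T W e) {s : St} {c : ℕ} {cs : List St} {c' : ℕ}
    (h : step T s c = some (cs, c')) (hcs : ∀ s' ∈ cs, Unsat W e s') : Unsat W e s := by
  unfold step at h
  rw [forceN_eq, forceN_eq] at h
  split at h
  · exact op0_sound h
  · exact op1_sound hT h
  · exact op2_sound hT h
  · exact op3_sound h hcs
  · exact op4_sound hT h hcs
  · exact op5_sound hT h hcs
  · exact op6_sound hT h hcs
  · exact op7_sound hT h hcs
  · exact op8_sound hT h hcs
  · exact op9_sound hT h hcs
  · exact op10_sound hT h hcs
  · exact absurd h (by simp)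

theorem chkList_sound (f : St → ℕ → (ℕ → Bool) → Bool)
    (hf : ∀ s c k, f s c k = true → Unsat W e s ∧ ∃ c', k c' = true) :
    ∀ (l : List St) (c : ℕ) (k : ℕ → Bool), chkList f l c k = true →
      (∀ s ∈ l, Unsat W e s) ∧ ∃ c', k c' = true := by
  intro l
  induction l with
  | nil => intro c k h; exact ⟨fun s hs => absurd hs (by simp), c, h⟩
  | cons a l ih =>
    intro c k h
    rw [chkList] at h
    obtain ⟨h1, c1, h2⟩ := hf a c _ h
    obtain ⟨h3, c2, h4⟩ := ih c1 k h2
    refine ⟨?_, c2, h4⟩
    intro s hs
    rcases List.mem_cons.mp hs with rfl | hs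
    · exact h1
    · exact h3 s hs

theorem chk_sound (hT : World T W e) : ∀ (fuel : ℕ) (s : St) (c : ℕ) (k : ℕ → Bool),
    chk T fuel s c k = true → Unsat W e s ∧ ∃ c', k c' = true := by
  intro fuel
  induction fuel with
  | zero => intro s c k h; exact absurd h (by simp [chk])
  | succ fuel ih =>
    intro s c k h
    rw [chk, forceN_eq, forceN_eq, forceN_eq] at h
    split at h
    · rename_i l c1 hst
      obtain ⟨h1, h2⟩ := chkList_sound _ ih l c1 k h
      exact ⟨step_sound hT hst h1, h2⟩
    · exact absurd h (by simp)

end Pool.Agent.Helper79.Defl
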