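import Pool.Agent.Helper79.Defl.Block

/-! Every configuration realises its template. -/

namespace Pool.Agent.Helper79.Defl

theorem restL_idx_aux : (List.range 5).all (fun r => (List.range 32).all fun K =>
    (List.range 5).all fun j => decide (j = r) || inK K j ||
      decide ((restL r K)[idx r K j]? = some j)) = true := by
  decide +kernel

theorem restL_idx (r : ℕ) (hr : r < 5) (K : ℕ) (hK : K < 32) (j : ℕ) (hj : j < 5) (h1 : j ≠ r)
    (h2 : inK K j = false) : (restL r K)[idx r K j]? = some j := by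
  have h := restL_idx_aux
  simp only [List.all_eq_true, List.mem_range] at h
  have h3 := h r hr K hK j hj
  rw [h2, decide_eq_false h1] at h3
  simpa using h3

theorem mem_restL {r K j : ℕ} (h : j ∈ restL r K) : j < 5 ∧ j ≠ r ∧ inK K j = false := by
  unfold restL rg at h
  simp only [List.mem_filter, List.mem_cons, List.not_mem_nil, or_false, Bool.and_eq_true,
    Bool.not_eq_true', decide_eq_false_iff_not] at h
  refine ⟨by omega, h.2.1, h.2.2⟩

theorem mem_consec {lt : ℕ → ℕ → Bool} {L : List (ℕ × ℕ)} {x : ℕ × ℕ} (h : x ∈ consec lt L) :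
    ∃ a ∈ L, ∃ b ∈ L, lt a.1 b.1 = true ∧ x = (a.2, b.2) := by
  unfold consec at h
  rw [List.mem_flatMap] at h
  obtain ⟨a, ha, h⟩ := h
  rw [List.mem_filterMap] at h
  obtain ⟨b, hb, h⟩ := h
  split at h
  · rename_i hc
    rw [Bool.and_eq_true] at hc
    exact ⟨a, ha, b, hb, hc.1, (Option.some.inj h).symm⟩
  · exact absurd h (by simp)

theorem ltX_irr (F : ℕ) (p : ℕ → ℕ) (i : ℕ) : ltX F p i i = false := by
  match F with
  | 0 => simp [ltX]
  | 1 => simp [ltX]
  | 2 => simp [ltX]
  | n + 3 => simp [ltX]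

theorem ltX_asymm (F : ℕ) (p : ℕ → ℕ) (i j : ℕ) (h : ltX F p i j = true) : ltX F p j i = false := by
  match F with
  | 0 => simp only [ltX, decide_eq_true_eq, decide_eq_false_iff_not] at *; omega
  | 1 => simp only [ltX, decide_eq_true_eq, decide_eq_false_iff_not] at *; omega
  | 2 => simp only [ltX, decide_eq_true_eq, decide_eq_false_iff_not] at *; omega
  | n + 3 => simp only [ltX, decide_eq_true_eq, decide_eq_false_iff_not] at *; omega

theorem ltY_irr (F : ℕ) (p : ℕ → ℕ) (i : ℕ) : ltY F p i i = false := by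
  match F with
  | 0 => simp [ltY]
  | 1 => simp [ltY]
  | 2 => simp [ltY]
  | n + 3 => simp [ltY]

/-- the values of the variables of the template -/
def gT (e : Pt) (r K : ℕ) (v : ℕ → Pt) (m : ℕ) : Pt :=
  match (restL r K)[m]? with
  | some j => v j
  | none => e

theorem gT_mem {W : Finset Pt} {e : Pt} {F : ℕ} {p : ℕ → ℕ} {r K : ℕ} {t : ℚ} {v : ℕ → Pt}
    (h : CfgSem W e F p r K t v) (he : e ∈ W) (m : ℕ) : gT e r K v m ∈ W := by
  unfold gT
  split
  · rename_i j hj
    obtain ⟨h1, h2, h3⟩ := mem_restL (List.mem_of_getElem? hj)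
    exact h.mem j h1 h2 h3
  · exact he

/-- semantic value of a term with role -/
theorem tval_rest {e d : Pt} {r K j : ℕ} {v : ℕ → Pt} (hr : r < 5) (hK : K < 32) (hj : j < 5)
    (h1 : j ≠ r) (h2 : inK K j = false) : tval e d (gT e r K v) (100 + idx r K j) = v j := by
  unfold tval
  rw [if_pos (by omega)]
  unfold gT
  rw [show 100 + idx r K j - 100 = idx r K j by omega, restL_idx r hr K hK j hj h1 h2]

theorem tval_zero {e d : Pt} {g : ℕ → Pt} : tval e d g 0 = e := by
  unfold tval
  rw [if_neg (by norm_num), if_neg (by norm_num)]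

theorem tval_cell {e d : Pt} {g : ℕ → Pt} : tval e d g 99 = d := by
  unfold tval
  rw [if_neg (by norm_num), if_pos rfl]

/-- hypotheses on the position of the threshold relative to the cell point -/
def CellRel (W : Finset Pt) (F kind : ℕ) (t : ℚ) (d : Pt) : Prop :=
  match kind with
  | 0 => ∀ w ∈ W, (XF F w < t → XF F w < XF F d) ∧ (t < XF F w → XF F d ≤ XF F w)
  | 1 => ∀ w ∈ W, (XF F w < t → XF F w ≤ XF F d) ∧ (t < XF F w → XF F d < XF F w)
  | _ => ∀ w ∈ W, XF F w < t

theorem mem_all {r K : ℕ} {a : ℕ × ℕ} (h : a ∈ (restL r K).map fun j => (j, 100 + idx r K j)) :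
    a.1 < 5 ∧ a.1 ≠ r ∧ inK K a.1 = false ∧ a.2 = 100 + idx r K a.1 := by
  obtain ⟨j, hj, rfl⟩ := List.mem_map.mp h
  obtain ⟨h1, h2, h3⟩ := mem_restL hj
  exact ⟨h1, h2, h3, rfl⟩

theorem take_one_eq {l : List ℕ} {a b : ℕ} (ha : a ∈ l.take 1) (hb : b ∈ l.take 1) : a = b := by
  cases l with
  | nil => simp at ha
  | cons x l =>
    simp only [List.take_succ_cons, List.take_zero, List.mem_cons, List.not_mem_nil, or_false] at ha hb
    rw [ha, hb]

theorem mem_block {K : ℕ} {a : ℕ × ℕ} (h : a ∈ ((rg.filter (inK K)).take 1).map fun j => (j, 0)) :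
    a.1 < 5 ∧ inK K a.1 = true ∧ a.2 = 0 ∧ a.1 ∈ (rg.filter (inK K)).take 1 := by
  obtain ⟨j, hj, rfl⟩ := List.mem_map.mp h
  have h1 := List.mem_of_mem_take hj
  rw [List.mem_filter] at h1
  unfold rg at h1
  simp only [List.mem_cons, List.not_mem_nil, or_false] at h1
  exact ⟨by simp only; omega, h1.2, rfl, hj⟩

theorem mem_inner {F : ℕ} {p : ℕ → ℕ} {r K : ℕ} {a : ℕ × ℕ} (h : a ∈ innerL F p r K) :
    ltX F p a.1 r = true ∧ a.1 < 5 ∧
      ((a.1 ≠ r ∧ inK K a.1 = false ∧ a.2 = 100 + idx r K a.1) ∨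
        (inK K a.1 = true ∧ a.2 = 0 ∧ a.1 ∈ (rg.filter (inK K)).take 1)) := by
  unfold innerL at h
  rw [List.mem_filter] at h
  obtain ⟨h, h1⟩ := h
  rw [List.mem_append] at h
  rcases h with h | h
  · obtain ⟨a1, a2, a3, a4⟩ := mem_all h
    exact ⟨h1, a1, Or.inl ⟨a2, a3, a4⟩⟩
  · obtain ⟨a1, a2, a3, a4⟩ := mem_block h
    exact ⟨h1, a1, Or.inr ⟨a2, a3, a4⟩⟩

theorem mem_outer {F : ℕ} {p : ℕ → ℕ} {r K : ℕ} {a : ℕ × ℕ} (h : a ∈ outerL F p r K) :
    ltX F p r a.1 = true ∧ a.1 < 5 ∧ a.1 ≠ r ∧ inK K a.1 = false ∧ a.2 = 100 + idx r K a.1 := by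
  unfold outerL at h
  rw [List.mem_filter] at h
  obtain ⟨h, h1⟩ := h
  obtain ⟨a1, a2, a3, a4⟩ := mem_all h
  exact ⟨h1, a1, a2, a3, a4⟩

theorem tpl_holds {W : Finset Pt} {e d : Pt} {F : ℕ} {p : ℕ → ℕ} {r K kind : ℕ} {t : ℚ}
    {v : ℕ → Pt} (hr : r < 5) (hK : K < 32) (h : CfgSem W e F p r K t v)
    (hc : CellRel W F kind t d) :
    ∀ a ∈ (mkTpl F p kind r K).ats, AT (tval e d (gT e r K v)) a := by
  intro a ha
  unfold mkTpl at ha
  simp only at ha
  rw [List.mem_append, List.mem_append] at ha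
  rcases ha with (ha | ha) | ha
  · -- chains of the first coordinate
    obtain ⟨x, hx, rfl⟩ := List.mem_map.mp ha
    rw [AT_atX]
    rw [List.mem_append] at hx
    rcases hx with hx | hx
    · clear ha
      obtain ⟨a, ha, b, hb, hab, rfl⟩ := mem_consec hx
      obtain ⟨a1, a2, a3⟩ := mem_inner ha
      obtain ⟨b1, b2, b3⟩ := mem_inner hb
      rcases a3 with ⟨a3, a4, a5⟩ | ⟨a3, a4, a5⟩
      · rcases b3 with ⟨b3, b4, b5⟩ | ⟨b3, b4, b5⟩
        · simp only
          rw [a5, b5, tval_rest hr hK a2 a3 a4, tval_rest hr hK b2 b3 b4]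
          exact h.xx _ a2 a3 a4 _ b2 b3 b4 hab
        · simp only
          rw [a5, b4, tval_rest hr hK a2 a3 a4, tval_zero]
          exact h.xk _ a2 a3 a4 _ b2 b3 hab
      · rcases b3 with ⟨b3, b4, b5⟩ | ⟨b3, b4, b5⟩
        · simp only
          rw [a4, b5, tval_rest hr hK b2 b3 b4, tval_zero]
          exact h.kx _ b2 b3 b4 _ a2 a3 hab
        · rw [take_one_eq a5 b5, ltX_irr] at hab
          exact absurd hab (by simp)
    · clear ha
      obtain ⟨a, ha, b, hb, hab, rfl⟩ := mem_consec hx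
      obtain ⟨a1, a2, a3, a4, a5⟩ := mem_outer ha
      obtain ⟨b1, b2, b3, b4, b5⟩ := mem_outer hb
      simp only
      rw [a5, b5, tval_rest hr hK a2 a3 a4, tval_rest hr hK b2 b3 b4]
      exact h.xx _ a2 a3 a4 _ b2 b3 b4 hab
  · -- relation to the cell point
    have hlast : ∀ a ∈ (lastL F p r K).filter (fun a => !(decide (a.2 = 0))),
        a.1 < 5 ∧ tval e d (gT e r K v) a.2 = v a.1 ∧ XF F (v a.1) < t ∧ v a.1 ∈ W := by
      intro a ha
      rw [List.mem_filter] at ha
      obtain ⟨ha, hn⟩ := ha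
      unfold lastL at ha
      rw [List.mem_filter] at ha
      obtain ⟨a1, a2, a3⟩ := mem_inner ha.1
      rcases a3 with ⟨a3, a4, a5⟩ | ⟨a3, a4, a5⟩
      · refine ⟨a2, ?_, h.inner _ a2 a3 a4 a1, h.mem _ a2 a3 a4⟩
        rw [a5, tval_rest hr hK a2 a3 a4]
      · rw [a4] at hn
        exact absurd hn (by simp)
    have hfirst : ∀ a ∈ firstL F p r K,
        a.1 < 5 ∧ tval e d (gT e r K v) a.2 = v a.1 ∧ t < XF F (v a.1) ∧ v a.1 ∈ W := by
      intro a ha
      unfold firstL at ha
      rw [List.mem_filter] at ha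
      obtain ⟨a1, a2, a3, a4, a5⟩ := mem_outer ha.1
      refine ⟨a2, ?_, h.outer _ a2 a3 a4 a1, h.mem _ a2 a3 a4⟩
      rw [a5, tval_rest hr hK a2 a3 a4]
    match kind with
    | 0 =>
      simp only at ha
      have hc' : ∀ w ∈ W, (XF F w < t → XF F w < XF F d) ∧ (t < XF F w → XF F d ≤ XF F w) := hc
      rw [List.mem_append] at ha
      rcases ha with ha | ha
      · obtain ⟨x, hx, rfl⟩ := List.mem_map.mp ha
        obtain ⟨_, h2, h3, h4⟩ := hlast x hx
        rw [AT_atX, h2, tval_cell]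
        exact (hc' _ h4).1 h3
      · obtain ⟨x, hx, rfl⟩ := List.mem_map.mp ha
        obtain ⟨_, h2, h3, h4⟩ := hfirst x hx
        rw [AT_atX', h2, tval_cell]
        exact (hc' _ h4).2 h3
    | 1 =>
      simp only at ha
      have hc' : ∀ w ∈ W, (XF F w < t → XF F w ≤ XF F d) ∧ (t < XF F w → XF F d < XF F w) := hc
      rw [List.mem_append] at ha
      rcases ha with ha | ha
      · obtain ⟨x, hx, rfl⟩ := List.mem_map.mp ha
        obtain ⟨_, h2, h3, h4⟩ := hlast x hx
        rw [AT_atX', h2, tval_cell]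
        exact (hc' _ h4).1 h3
      · obtain ⟨x, hx, rfl⟩ := List.mem_map.mp ha
        obtain ⟨_, h2, h3, h4⟩ := hfirst x hx
        rw [AT_atX, h2, tval_cell]
        exact (hc' _ h4).2 h3
    | n + 2 =>
      simp at ha
  · -- chain of the second coordinate
    obtain ⟨x, hx, rfl⟩ := List.mem_map.mp ha
    rw [AT_atY]
    clear ha
    obtain ⟨a, ha, b, hb, hab, rfl⟩ := mem_consec hx
    rw [List.mem_append, List.mem_singleton] at ha hb
    rcases ha with ha | rfl
    · obtain ⟨a2, a3, a4, a5⟩ := mem_all ha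
      rcases hb with hb | rfl
      · obtain ⟨b2, b3, b4, b5⟩ := mem_all hb
        simp only
        rw [a5, b5, tval_rest hr hK a2 a3 a4, tval_rest hr hK b2 b3 b4]
        exact h.yy _ a2 a3 a4 _ b2 b3 b4 hab
      · simp only
        rw [a5, tval_rest hr hK a2 a3 a4, tval_zero]
        exact h.yr _ a2 a3 a4 hab
    · rcases hb with hb | rfl
      · obtain ⟨b2, b3, b4, b5⟩ := mem_all hb
        simp only
        rw [b5, tval_rest hr hK b2 b3 b4, tval_zero]
        exact h.ry _ b2 b3 b4 hab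
      · simp only at hab
        rw [ltY_irr] at hab
        exact absurd hab (by simp)

theorem tb31 : ∀ r < 5, Nat.testBit 31 r = true := by decide

/-- the template of a configuration belongs to the full table -/
theorem mem_fullT {W : Finset Pt} {e d : Pt} {F : ℕ} {p : ℕ → ℕ} {r K kind : ℕ} {t : ℚ}
    {v : ℕ → Pt} {dec capL capU : Bool} (hr : r < 5) (hK : K < 32) (h : CfgSem W e F p r K t v)
    (hc : CellRel W F kind t d) (hok : cfgOK F p dec capL capU r K = true) :
    mkTpl F p kind r K ∈ fullT F p dec capL capU kind 31 := by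
  unfold fullT
  rw [List.mem_flatMap]
  refine ⟨r, ?_, ?_⟩
  · unfold rg
    simp only [List.mem_cons, List.not_mem_nil, or_false]
    omega
  · have hcond : (Nat.testBit 31 r && !(kind == 2 && rg.any (fun j => ltX F p r j))) = true := by
      rw [tb31 r hr, Bool.true_and, Bool.not_eq_true']
      rcases hx : (kind == 2 && rg.any (fun j => ltX F p r j)) with _ | _
      · rfl
      · exfalso
        rw [Bool.and_eq_true, beq_iff_eq, List.any_eq_true] at hx
        obtain ⟨h2, j, hj, hlt⟩ := hx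
        subst h2
        have hj5 : j < 5 := by
          unfold rg at hj
          simp only [List.mem_cons, List.not_mem_nil, or_false] at hj
          omega
        have hjr : j ≠ r := by
          rintro rfl
          rw [ltX_irr] at hlt
          exact absurd hlt (by simp)
        rcases hb : inK K j with _ | _
        · have h3 := h.outer j hj5 hjr hb hlt
          have h4 : ∀ w ∈ W, XF F w < t := hc
          exact absurd (h4 _ (h.mem j hj5 hjr hb)) (not_lt.mpr h3.le)
        · unfold cfgOK at hok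
          simp only [Bool.and_eq_true, List.all_eq_true, Bool.or_eq_true, Bool.not_eq_true'] at hok
          have h5 := hok.1.1.2 j hj
          rw [hb, ltX_asymm F p r j hlt] at h5
          simp at h5
    rw [if_pos hcond, List.mem_filterMap]
    exact ⟨K, List.mem_range.mpr hK, by rw [if_pos hok]⟩

end Pool.Agent.Helper79.Defl
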